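import Pool.Agent.FBM.StmtC1

/-!
# CAD: an admissible map for the limit data
-/

open MeasureTheory Set Filter Topology
open scoped Real

namespace Pool.Agent.FBM

namespace CAD

theorem cos_third : Real.cos (2 * π / 3) = -(1 / 2) := by
  have h : 2 * π / 3 = π - π / 3 := by ring
  rw [h, Real.cos_pi_sub, Real.cos_pi_div_three]

theorem cos_le {θ : ℝ} (h1 : 2 * π / 3 ≤ θ) (h2 : θ ≤ 4 * π / 3) : Real.cos θ ≤ -(1 / 2) := by
  have h3 : Real.cos θ = -Real.cos |θ - π| := by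
    rw [Real.cos_abs, Real.cos_sub_pi, neg_neg]
  have h4 : |θ - π| ≤ π / 3 := by
    rw [abs_le]
    constructor <;> linarith
  have h5 := Real.cos_le_cos_of_nonneg_of_le_pi (abs_nonneg (θ - π))
    (by linarith [Real.pi_pos] : π / 3 ≤ π) h4
  rw [Real.cos_pi_div_three] at h5
  rw [h3]
  linarith

/-- The function `max 0 (2 cos (t + a) + 1)`. -/
noncomputable def u (a t : ℝ) : ℝ := max 0 (2 * Real.cos (t + a) + 1)

theorem u_fe (hcos : Stmt_A_cos) (a : ℝ) : FE (u a) := by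
  have h1 := (hcos _ (FE.const 0) 1).1
  have h2 := (hcos _ (FE.const 0) 1).2.1
  have h3 := (FE.const 0).sup ((((h1.smul (Real.cos a)).sub (h2.smul (Real.sin a))).smul 2).add
    (FE.const 1))
  refine (congrArg FE (funext fun t => ?_)).mp h3
  unfold u
  rw [Real.cos_add]
  congr 3
  push_cast
  rw [one_mul]
  ring

theorem u_zero {a t : ℝ} {lo hi : ℝ} (hlo : lo + a = 2 * π / 3) (hhi : hi + a = 4 * π / 3)
    (h : t ∈ pe (Ioo lo hi)) : u a t = 0 := by
  obtain ⟨n, hn⟩ := h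
  have h1 : Real.cos (t + a) = Real.cos (t + n * (2 * π) + a) := by
    have h2 : t + n * (2 * π) + a = t + a + n * (2 * π) := by ring
    rw [h2, Real.cos_add_int_mul_two_pi]
  unfold u
  rw [h1]
  have h3 := cos_le (θ := t + n * (2 * π) + a) (by linarith [hn.1]) (by linarith [hn.2])
  exact max_eq_left (by linarith)

theorem u_nonneg (a t : ℝ) : 0 ≤ u a t := le_max_left _ _

theorem sum_ge (t : ℝ) : 3 ≤ u (2 * π / 3) t + u (-(2 * π / 3)) t + u 0 t := by
  have h1 : 2 * Real.cos (t + 2 * π / 3) + 1 ≤ u (2 * π / 3) t := le_max_right _ _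
  have h2 : 2 * Real.cos (t + -(2 * π / 3)) + 1 ≤ u (-(2 * π / 3)) t := le_max_right _ _
  have h3 : 2 * Real.cos (t + 0) + 1 ≤ u 0 t := le_max_right _ _
  rw [Real.cos_add, cos_third] at h1
  rw [Real.cos_add, Real.cos_neg, Real.sin_neg, cos_third] at h2
  rw [add_zero] at h3
  linarith

/-- The norm. -/
noncomputable def nrm (t : ℝ) : ℝ :=
  Real.sqrt (u (2 * π / 3) t ^ 2 + u (-(2 * π / 3)) t ^ 2 + u 0 t ^ 2)

theorem nrm_fe (hcos : Stmt_A_cos) (hsqrt : Stmt_A_sqrt) : FE nrm := by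
  have h1 := (hsqrt _ _ (u_fe hcos (2 * π / 3)) (u_fe hcos (-(2 * π / 3)))).1
  have h2 := (hsqrt _ _ h1 (u_fe hcos 0)).1
  refine (congrArg FE (funext fun t => ?_)).mp h2
  unfold nrm
  rw [Real.sq_sqrt (by positivity)]

theorem sq_ge (t : ℝ) :
    1 ≤ u (2 * π / 3) t ^ 2 + u (-(2 * π / 3)) t ^ 2 + u 0 t ^ 2 := by
  have h := sum_ge t
  nlinarith [sq_nonneg (u (2 * π / 3) t - 1), sq_nonneg (u (-(2 * π / 3)) t - 1),
    sq_nonneg (u 0 t - 1)]

theorem nrm_ge (t : ℝ) : 1 ≤ nrm t := by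
  unfold nrm
  rw [Real.one_le_sqrt]
  exact sq_ge t

theorem inv_lip (x y : ℝ) : |1 / max x 1 - 1 / max y 1| ≤ 1 * |x - y| := by
  have hx : 1 ≤ max x 1 := le_max_right _ _
  have hy : 1 ≤ max y 1 := le_max_right _ _
  have h1 : 1 / max x 1 - 1 / max y 1 = (max y 1 - max x 1) / (max x 1 * max y 1) := by
    field_simp
  have h2 : 1 ≤ max x 1 * max y 1 := by nlinarith
  rw [h1, abs_div, abs_of_pos (by linarith : (0 : ℝ) < max x 1 * max y 1), one_mul]
  have h3 : |max y 1 - max x 1| ≤ |x - y| := by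
    rw [abs_sub_comm x y]
    exact abs_max_sub_max_le_abs y x 1
  exact (div_le_self (abs_nonneg _) h2).trans h3

/-- The map. -/
noncomputable def Y (i : Fin 3) (t : ℝ) : ℝ :=
  (match i with
    | 0 => u (2 * π / 3) t
    | 1 => u (-(2 * π / 3)) t
    | 2 => u 0 t) * (1 / max (nrm t) 1)

theorem adm (hcos : Stmt_A_cos) (hsqrt : Stmt_A_sqrt) : Adm Dlim Y := by
  have hinv : FE (fun t => 1 / max (nrm t) 1) :=
    (nrm_fe hcos hsqrt).lip (Φ := fun x => 1 / max x 1) (L := 1) inv_lip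
  refine ⟨fun i => ?_, fun i => ?_, ?_⟩
  · fin_cases i
    · exact (u_fe hcos (2 * π / 3)).mul hinv
    · exact (u_fe hcos (-(2 * π / 3))).mul hinv
    · exact (u_fe hcos 0).mul hinv
  · refine Eventually.of_forall fun t ht => ?_
    fin_cases i
    · have h : u (2 * π / 3) t = 0 := u_zero (lo := 0) (hi := 2 * π / 3) (by ring) (by ring) ht
      change u (2 * π / 3) t * (1 / max (nrm t) 1) = 0
      rw [h, zero_mul]
    · have h2 : t ∈ pe (Ioo (-(2 * π / 3)) 0) := ht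
      obtain ⟨n, hn⟩ := h2
      have h : u (-(2 * π / 3)) t = 0 := by
        refine u_zero (lo := 2 * π / 3 + 2 * π / 3) (hi := 2 * π) (by ring) (by ring) ?_
        refine ⟨n + 1, ?_⟩
        push_cast
        constructor
        · linarith [hn.1]
        · linarith [hn.2]
      change u (-(2 * π / 3)) t * (1 / max (nrm t) 1) = 0
      rw [h, zero_mul]
    · have h : u 0 t = 0 :=
        u_zero (lo := 2 * π / 3) (hi := 4 * π / 3) (by ring) (by ring) ht
      change u 0 t * (1 / max (nrm t) 1) = 0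
      rw [h, zero_mul]
  · refine Eventually.of_forall fun t _ => ?_
    have h1 : ∑ i, Y i t ^ 2 = (u (2 * π / 3) t ^ 2 + u (-(2 * π / 3)) t ^ 2 + u 0 t ^ 2) *
        (1 / max (nrm t) 1) ^ 2 := by
      rw [Fin.sum_univ_three]
      change (u (2 * π / 3) t * (1 / max (nrm t) 1)) ^ 2 +
        (u (-(2 * π / 3)) t * (1 / max (nrm t) 1)) ^ 2 + (u 0 t * (1 / max (nrm t) 1)) ^ 2 = _
      ring
    have h2 := nrm_ge t
    have h3 : nrm t ^ 2 = u (2 * π / 3) t ^ 2 + u (-(2 * π / 3)) t ^ 2 + u 0 t ^ 2 := by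
      unfold nrm
      rw [Real.sq_sqrt (by positivity)]
    rw [h1, max_eq_left h2, ← h3, one_div, inv_pow, mul_inv_cancel₀]
    positivity

end CAD

theorem t_CAD : Stmt_A_cos → Stmt_A_sqrt → Stmt_CAD :=
  fun hcos hsqrt => ⟨CAD.Y, CAD.adm hcos hsqrt⟩

end Pool.Agent.FBM
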