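import Pool.Agent.FBM.StmtC1

/-!
# FBM, module CAI: admissible maps of the limit data are admissible for configurations
-/

open MeasureTheory Set Filter Topology
open scoped Real

namespace Pool.Agent.FBM

namespace CAI

theorem zz_sub (m : ℕ) (a b : Fin m → ℝ) (i : Fin 3) : ZZ m a b i ⊆ side i := by
  fin_cases i
  · exact Set.diff_subset
  · exact Set.diff_subset
  · exact subset_rfl

theorem pe_countable {S : Set ℝ} (hS : S.Countable) : (pe S).Countable := by
  have e : pe S = ⋃ n : ℤ, (fun t : ℝ => t + n * (2 * π)) ⁻¹' S := by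
    ext t
    simp only [pe, mem_setOf_eq, mem_iUnion, mem_preimage]
  rw [e]
  refine Set.countable_iUnion fun n => ?_
  exact hS.preimage (add_left_injective _)

theorem ae_not {S : Set ℝ} (hS : S.Countable) : ∀ᵐ t ∂cm, t ∉ pe S := by
  have h : ∀ᵐ t : ℝ, t ∉ pe S := (pe_countable hS).ae_notMem volume
  exact ae_restrict_of_ae h

theorem hh_sub {m : ℕ} {p : (Fin m → ℝ) × (Fin m → ℝ)} (hp : p ∈ Par m) {t : ℝ}
    (ht : t ∈ HH m p.1 p.2) (hn : t ∉ pe {0, 2 * π / 3, -(2 * π / 3)}) :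
    t ∈ side 0 ∪ side 1 := by
  obtain ⟨n, hn'⟩ := ht
  obtain ⟨k, hk⟩ := mem_iUnion.1 hn'
  have hpk := hp k
  have h1 : -(2 * π / 3) ≤ t + n * (2 * π) := hpk.1.trans hk.1
  have h2 : t + n * (2 * π) ≤ 2 * π / 3 := hk.2.trans hpk.2.2
  have h3 : t + n * (2 * π) ∉ ({0, 2 * π / 3, -(2 * π / 3)} : Set ℝ) := fun h => hn ⟨n, h⟩
  simp only [mem_insert_iff, mem_singleton_iff, not_or] at h3
  rcases lt_or_gt_of_ne h3.1 with h0 | h0
  · right
    exact ⟨n, lt_of_le_of_ne h1 (Ne.symm h3.2.2), h0⟩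
  · left
    exact ⟨n, h0, lt_of_le_of_ne h2 h3.2.1⟩

end CAI

open CAI in
theorem t_CAI : Stmt_CAI := by
  intro m p hp Y hY
  refine ⟨hY.fe, fun i => ?_, ?_⟩
  · filter_upwards [hY.zero i] with t ht h
    exact ht (zz_sub m p.1 p.2 i h)
  · have hc : ({0, 2 * π / 3, -(2 * π / 3)} : Set ℝ).Countable := by
      exact (Set.toFinite _).countable
    filter_upwards [hY.one, ae_not hc] with t ht hn h
    exact ht (hh_sub hp h hn)

end Pool.Agent.FBM
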