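import Pool.Agent.FBM.StmtC

/-!
# FBM, block C, CAR: vanishing normal derivatives on an arc
-/

open MeasureTheory Set Filter Topology
open scoped Real

namespace Pool.Agent.FBM

namespace CAR_

theorem tendsto_of_unif {u : ℝ → ℝ} {g : ℝ → ℂ}
    (h : ∀ ε : ℝ, 0 < ε → ∃ r₀ < 1, ∀ r t : ℝ, r₀ < r → 0 ≤ r → r < 1 →
      ‖hz u (ep r t) - g t‖ ≤ ε) (t : ℝ) :
    Tendsto (fun r : ℝ => hz u (ep r t)) (𝓝[<] 1) (𝓝 (g t)) := by
  refine Metric.tendsto_nhds.2 fun ε hε => ?_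
  obtain ⟨r₀, hr₀, hr⟩ := h (ε / 2) (half_pos hε)
  have h1 : Ioo (max r₀ 0) 1 ∈ 𝓝[<] (1 : ℝ) := Ioo_mem_nhdsLT (max_lt hr₀ one_pos)
  filter_upwards [h1] with r hr1
  rw [dist_eq_norm]
  have h2 := hr r t ((le_max_left _ _).trans_lt hr1.1) ((le_max_right _ _).trans hr1.1.le) hr1.2
  linarith

theorem norm_ep_one (t : ℝ) : ‖ep 1 t‖ = 1 := by
  rw [ep, Complex.ofReal_one, one_mul, Complex.norm_exp_ofReal_mul_I]

theorem en_zero (hU : Stmt_DUC) (hX : Stmt_DXC) (hR : Stmt_DRE) (hL : Stmt_DLE) (hN : Stmt_CUN)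
    {u τ : ℝ → ℝ} {C : ℝ} (hu : FE u) (hPB : PB u τ C)
    (hhd : DifferentiableOn ℂ (hz u) (Metric.ball 0 1)) (hint : Integrable u cm)
    {a b : ℝ} (hab : a < b) (hτ : ∀ᵐ t, t ∈ Ioo a b → τ t = 0) : en u u = 0 := by
  obtain ⟨g, hgc, hgp, hgu⟩ := hU u τ C hPB
  obtain ⟨hXc, hXe, hXg⟩ := hX u g hhd hgc hgp hgu
  have hle := hL u τ C hPB g (tendsto_of_unif hgu)
  have hmono : ∀ s t, a < s → s ≤ t → t < b → g t = g s := by
    intro s t hs hst ht
    have h1 : ∫ v in s..t, τ v = 0 := by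
      refine intervalIntegral.integral_zero_ae ?_
      filter_upwards [hτ] with v hv hv1
      rw [uIoc_of_le hst] at hv1
      exact hv ⟨hs.trans hv1.1, hv1.2.trans_lt ht⟩
    have h2 := hle s t hst
    rw [h1, mul_zero] at h2
    exact sub_eq_zero.1 (norm_eq_zero.1 (le_antisymm h2 (norm_nonneg _)))
  set c : ℂ := g ((a + b) / 2) with hc
  have hconst : ∀ t, t ∈ Ioo a b → g t = c := by
    intro t ht
    rcases le_total t ((a + b) / 2) with h | h
    · exact (hmono t ((a + b) / 2) ht.1 h (by linarith)).symm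
    · exact hmono ((a + b) / 2) t (by linarith) h ht.2
  have hz0 := hN (fun z => Fx u z - c) a b (hXc.sub continuousOn_const)
    ((hhd.congr hXe).sub_const c) hab (fun t ht => by rw [hXg, hconst t ht, sub_self])
  have hg : ∀ t, g t = c := by
    intro t
    have h1 := hz0 (ep 1 t) (norm_ep_one t).le
    rw [hXg] at h1
    exact sub_eq_zero.1 h1
  have hae : u =ᵐ[cm] fun _ => c.re := by
    have h1 := hR u g hu.meas hu.per hint hgc hgp hgu
    unfold cm
    refine ae_restrict_of_ae ?_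
    filter_upwards [h1] with t ht
    rw [← ht, hg t]
  rw [en_congr hae hae, en_const_left]

end CAR_

open CAR_ in
theorem t_CAR (hP : Stmt_CPB) (hH : Stmt_DHD) (hU : Stmt_DUC) (hX : Stmt_DXC) (hR : Stmt_DRE)
    (hL : Stmt_DLE) (hN : Stmt_CUN) : Stmt_CAR := by
  intro D X lam T hEL hconf a b hab hT
  refine Finset.sum_eq_zero fun i _ => ?_
  have hu := hEL.oct.adm.fe i
  have hint : Integrable (X i) cm := by
    obtain ⟨C, hC⟩ := hu.bdd
    refine Integrable.of_bound hu.meas.aestronglyMeasurable C (Eventually.of_forall fun t => ?_)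
    rw [Real.norm_eq_abs]
    exact hC t
  refine en_zero hU hX hR hL hN hu (hP hEL hconf i) (hH _ hint) hint hab ?_
  have h0 := hT 0
  have h1 := hT 1
  have h2 := hT 2
  filter_upwards [h0, h1, h2] with t h0 h1 h2 ht
  rw [Fin.sum_univ_three, h0 ht, h1 ht, h2 ht]
  simp

end Pool.Agent.FBM
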