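import Pool.Agent.FBM.StmtC
import Pool.Agent.FBM.StmtC1
import Pool.Agent.FBM.F.EDG

/-!
# FBM, block C, part 1: assembly
-/

open MeasureTheory Set Filter Topology
open scoped Real

namespace Pool.Agent.FBM.CASM

theorem edge (hT : Stmt_CTM) : Stmt_C_edge := fun m p hp =>
  ⟨hT.1 m p hp, (_root_.FBM.F.EDG_thm m p.1 p.2 hp).edR, (_root_.FBM.F.EDG_thm m p.1 p.2 hp).edL⟩

theorem att (h : Stmt_CMA) : Stmt_C_att := h

theorem adm (hT : Stmt_CTM) (hAD : Stmt_CAD) (hAI : Stmt_CAI) : Stmt_C_adm :=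
  ⟨hAD, hT.2, fun m p hp => ⟨hT.1 m p hp, hAD.elim fun Y hY => ⟨Y, hAI m p hp Y hY⟩⟩⟩

theorem levels (hT : Stmt_CTM) (hAD : Stmt_CAD) (hex : Stmt_B_ex) (hLN : Stmt_CLN)
    (hLV : Stmt_CLV) : Stmt_C_lev := by
  obtain ⟨X, hX⟩ := hex Dlim hT.2 hAD
  exact ⟨hLV.1, hLV.2, C0.ven_eq hX ▸ (hLN X hX.oct.adm).1⟩

end Pool.Agent.FBM.CASM
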