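import Pool.Agent.FBM.StmtC

/-!
# FBM, CCF: stationary maps are conformal (helper95)
-/

open MeasureTheory Set Filter Topology
open scoped Real

namespace Pool.Agent.FBM

namespace CCF_

theorem vf_cos (k : ℕ) : VF0 (fun t => Real.cos (k * t)) (fun t => -(k * Real.sin (k * t))) := by
  refine ⟨fun t => ?_, by fun_prop, fun t => ?_, fun t => ?_⟩
  · have h := ((hasDerivAt_id t).const_mul (k : ℝ)).cos
    simp only [id, mul_one] at h
    rw [show -((k : ℝ) * Real.sin (k * t)) = -Real.sin (k * t) * k by ring]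
    exact h
  · change Real.cos (k * (t + 2 * π)) = Real.cos (k * t)
    rw [mul_add, Real.cos_add_nat_mul_two_pi]
  · change -((k : ℝ) * Real.sin (k * (t + 2 * π))) = -(k * Real.sin (k * t))
    rw [mul_add, Real.sin_add_nat_mul_two_pi]

theorem vf_sin (k : ℕ) : VF0 (fun t => Real.sin (k * t)) (fun t => k * Real.cos (k * t)) := by
  refine ⟨fun t => ?_, by fun_prop, fun t => ?_, fun t => ?_⟩
  · have h := ((hasDerivAt_id t).const_mul (k : ℝ)).sin
    simp only [id, mul_one] at h
    rw [mul_comm]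
    exact h
  · change Real.sin (k * (t + 2 * π)) = Real.sin (k * t)
    rw [mul_add, Real.sin_add_nat_mul_two_pi]
  · change (k : ℝ) * Real.cos (k * (t + 2 * π)) = k * Real.cos (k * t)
    rw [mul_add, Real.cos_add_nat_mul_two_pi]

end CCF_

theorem t_CCF (hM : Stmt_CMB) (hH : Stmt_CHP) : Stmt_CCF := by
  intro X hX hQ
  have key : ∀ w dw, VF0 w dw → QQv w dw X = 0 := by
    intro w dw hw
    obtain ⟨v, dv, hv, h⟩ := hM w dw hw
    rw [← hQ v dv hv]
    exact Finset.sum_congr rfl fun i _ => (h (X i) (hX i)).symm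
  exact hH X hX fun k => ⟨key _ _ (CCF_.vf_cos k), key _ _ (CCF_.vf_sin k)⟩

end Pool.Agent.FBM
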