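import Pool.Agent.FBM.StmtC

/-!
# FBM, block C: limits of admissible maps
-/

open MeasureTheory Set Filter Topology
open scoped Real

namespace Pool.Agent.FBM

namespace CCL_

/-- one interval: convergence of the endpoints decides membership off the endpoints -/
lemma ev_mem {a b : ℕ → ℝ} {a' b' x : ℝ} (ha : Tendsto a atTop (𝓝 a'))
    (hb : Tendsto b atTop (𝓝 b')) (h1 : x ≠ a') (h2 : x ≠ b') :
    ∀ᶠ j in atTop, (x ∈ Icc (a j) (b j) ↔ x ∈ Icc a' b') := by
  by_cases hx : x ∈ Icc a' b'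
  · have c1 : a' < x := lt_of_le_of_ne hx.1 (Ne.symm h1)
    have c2 : x < b' := lt_of_le_of_ne hx.2 h2
    filter_upwards [ha.eventually (gt_mem_nhds c1), hb.eventually (lt_mem_nhds c2)] with j d1 d2
    exact ⟨fun _ => hx, fun _ => ⟨d1.le, d2.le⟩⟩
  · rw [mem_Icc, not_and_or, not_le, not_le] at hx
    rcases hx with hx | hx
    · filter_upwards [ha.eventually (lt_mem_nhds hx)] with j d1
      constructor
      · intro h; exact absurd h.1 (not_le.mpr d1)
      · intro h; exact absurd h.1 (not_le.mpr hx)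
    · filter_upwards [hb.eventually (gt_mem_nhds hx)] with j d1
      constructor
      · intro h; exact absurd h.2 (not_le.mpr d1)
      · intro h; exact absurd h.2 (not_le.mpr hx)

/-- the integers `n` for which `t + 2πn` is in a bounded interval are finitely many -/
lemma fin_shift (t B : ℝ) : {n : ℤ | |t + n * (2 * π)| ≤ B}.Finite := by
  have hpi := Real.pi_pos
  refine (Set.finite_Icc (⌊(-B - t) / (2 * π)⌋) (⌈(B - t) / (2 * π)⌉)).subset ?_
  intro n hn
  rw [mem_ofPred_eq, abs_le] at hn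
  constructor
  · apply Int.floor_le_iff.mpr
    rw [div_lt_iff₀ (by positivity)]
    have h1 := hn.1
    nlinarith
  · apply Int.le_ceil_iff.mpr
    rw [lt_div_iff₀ (by positivity)]
    have h1 := hn.2
    nlinarith

/-- membership in the free arcs off the endpoints -/
lemma ev_HH {m : ℕ} {p : ℕ → (Fin m → ℝ) × (Fin m → ℝ)} {q : (Fin m → ℝ) × (Fin m → ℝ)}
    (hp : Tendsto p atTop (𝓝 q)) {t : ℝ} (ht : ∀ (k : Fin m) (n : ℤ), t + n * (2 * π) ≠ q.1 k ∧
      t + n * (2 * π) ≠ q.2 k) :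
    ∀ᶠ j in atTop, (t ∈ HH m (p j).1 (p j).2 ↔ t ∈ HH m q.1 q.2) := by
  have h1 : ∀ k, Tendsto (fun j => (p j).1 k) atTop (𝓝 (q.1 k)) := fun k =>
    ((continuous_apply k).comp continuous_fst).tendsto q |>.comp hp
  have h2 : ∀ k, Tendsto (fun j => (p j).2 k) atTop (𝓝 (q.2 k)) := fun k =>
    ((continuous_apply k).comp continuous_snd).tendsto q |>.comp hp
  set B : ℝ := ∑ k, (|q.1 k| + |q.2 k|) + 1 with hB
  have hqB : ∀ k, |q.1 k| < B ∧ |q.2 k| < B := by
    intro k
    have h3 := Finset.single_le_sum (f := fun k => |q.1 k| + |q.2 k|)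
      (fun k _ => add_nonneg (abs_nonneg _) (abs_nonneg _)) (Finset.mem_univ k)
    have h4 := abs_nonneg (q.1 k)
    have h5 := abs_nonneg (q.2 k)
    constructor <;> linarith
  have hbd : ∀ᶠ j in atTop, ∀ k, |(p j).1 k| < B ∧ |(p j).2 k| < B := by
    rw [eventually_all]
    intro k
    filter_upwards [(h1 k).abs.eventually (gt_mem_nhds (hqB k).1),
      (h2 k).abs.eventually (gt_mem_nhds (hqB k).2)] with j a b
    exact ⟨a, b⟩
  have hfin := fin_shift t B
  have hev : ∀ᶠ j in atTop, ∀ k, ∀ n ∈ {n : ℤ | |t + n * (2 * π)| ≤ B},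
      (t + n * (2 * π) ∈ Icc ((p j).1 k) ((p j).2 k) ↔ t + n * (2 * π) ∈ Icc (q.1 k) (q.2 k)) := by
    rw [eventually_all]
    intro k
    rw [eventually_all_finite hfin]
    intro n _
    exact ev_mem (h1 k) (h2 k) (ht k n).1 (ht k n).2
  filter_upwards [hbd, hev] with j c1 c2
  unfold HH pe
  simp only [mem_ofPred_eq, mem_iUnion]
  constructor
  · rintro ⟨n, k, hn⟩
    have hn' : |t + n * (2 * π)| ≤ B := by
      have a1 := abs_lt.mp (c1 k).1
      have a2 := abs_lt.mp (c1 k).2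
      rw [abs_le]
      exact ⟨by linarith [hn.1, a1.1], by linarith [hn.2, a2.2]⟩
    exact ⟨n, k, (c2 k n hn').mp hn⟩
  · rintro ⟨n, k, hn⟩
    have hn' : |t + n * (2 * π)| ≤ B := by
      have a1 := abs_lt.mp (hqB k).1
      have a2 := abs_lt.mp (hqB k).2
      rw [abs_le]
      exact ⟨by linarith [hn.1, a1.1], by linarith [hn.2, a2.2]⟩
    exact ⟨n, k, (c2 k n hn').mpr hn⟩

/-- almost every point is off the endpoints -/
lemma ae_off {m : ℕ} (q : (Fin m → ℝ) × (Fin m → ℝ)) :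
    ∀ᵐ t ∂cm, ∀ (k : Fin m) (n : ℤ), t + n * (2 * π) ≠ q.1 k ∧ t + n * (2 * π) ≠ q.2 k := by
  unfold cm
  apply ae_restrict_of_ae
  rw [ae_all_iff]
  intro k
  rw [ae_all_iff]
  intro n
  have h1 : ∀ c : ℝ, ∀ᵐ t : ℝ, t + n * (2 * π) ≠ c := by
    intro c
    have h2 : ∀ᵐ t : ℝ, t ∈ ({c - n * (2 * π)} : Set ℝ)ᶜ :=
      (compl_mem_ae_iff).mpr (measure_singleton _)
    filter_upwards [h2] with t ht hc
    exact ht (by rw [mem_singleton_iff]; linarith)
  filter_upwards [h1 (q.1 k), h1 (q.2 k)] with t a b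
  exact ⟨a, b⟩

end CCL_

open CCL_ in
/-- CCL -/
theorem t_CCL : Stmt_CCL := by
  intro m p q hp Y X hY hX hlim
  have hz : ∀ i, ∀ᵐ t ∂cm, ∀ j, t ∈ ZZ m (p j).1 (p j).2 i → Y j i t = 0 := by
    intro i
    rw [ae_all_iff]
    intro j
    exact (hY j).zero i
  have ho : ∀ᵐ t ∂cm, ∀ j, t ∈ HH m (p j).1 (p j).2 → ∑ i, Y j i t ^ 2 = 1 := by
    rw [ae_all_iff]
    intro j
    exact (hY j).one
  have hl : ∀ᵐ t ∂cm, ∀ i, Tendsto (fun j => Y j i t) atTop (𝓝 (X i t)) := by
    rw [ae_all_iff]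
    exact hlim
  refine ⟨hX, fun i => ?_, ?_⟩
  · filter_upwards [hz i, hlim i, ae_off q] with t h1 h2 h3 ht
    have hev := ev_HH hp h3
    have hev2 : ∀ᶠ j in atTop, t ∈ ZZ m (p j).1 (p j).2 i := by
      filter_upwards [hev] with j hj
      change t ∈ ZZ m q.1 q.2 i at ht
      fin_cases i
      · exact ⟨ht.1, fun h => ht.2 (hj.mp h)⟩
      · exact ⟨ht.1, fun h => ht.2 (hj.mp h)⟩
      · exact ht
    have hev3 : (fun j => Y j i t) =ᶠ[atTop] fun _ => 0 := by
      filter_upwards [hev2] with j hj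
      exact h1 j hj
    exact tendsto_nhds_unique h2 (tendsto_const_nhds.congr' hev3.symm)
  · filter_upwards [ho, hl, ae_off q] with t h1 h2 h3 ht
    have hev := ev_HH hp h3
    have hs : Tendsto (fun j => ∑ i, Y j i t ^ 2) atTop (𝓝 (∑ i, X i t ^ 2)) :=
      tendsto_finsetSum _ fun i _ => (h2 i).pow 2
    have hev3 : (fun j => ∑ i, Y j i t ^ 2) =ᶠ[atTop] fun _ => 1 := by
      filter_upwards [hev] with j hj
      exact h1 j (hj.mpr ht)
    exact tendsto_nhds_unique hs (tendsto_const_nhds.congr' hev3.symm)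

end Pool.Agent.FBM
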