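import Pool.Agent.FBM.StmtC1

/-!
# FBM_CCT: cutoffs
-/

open MeasureTheory Set Filter Topology
open scoped Real

namespace Pool.Agent.FBM

namespace CCT

/-- lower bound of the sine -/
lemma sin_low {a b : ℝ} (ha : 0 < a) (hb : b < π) (hab : a ≤ b) :
    ∃ δ > 0, ∀ x, a ≤ x → x ≤ b → δ ≤ Real.sin x := by
  refine ⟨min (Real.sin a) (Real.sin b), lt_min (Real.sin_pos_of_pos_of_lt_pi ha (by linarith))
    (Real.sin_pos_of_pos_of_lt_pi (by linarith) hb), fun x h1 h2 => ?_⟩
  exact strictConcaveOn_sin_Icc.concaveOn.min_le_of_mem_Icc (x := a) (y := b)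
    ⟨ha.le, by linarith⟩ ⟨by linarith, hb.le⟩ ⟨h1, h2⟩

lemma abs_sin_shift (t e : ℝ) (n : ℤ) :
    |Real.sin ((t + n * (2 * π) - e) / 2)| = |Real.sin ((t - e) / 2)| := by
  have h : (t + n * (2 * π) - e) / 2 = (t - e) / 2 + n * π := by ring
  rw [h, Real.sin_add_int_mul_pi, abs_mul, abs_zpow, abs_neg, abs_one, one_zpow, one_mul]

/-- every point of the closed arc has a positive distance to one of the sides -/
lemma exists_side {e : ℝ} (h1 : -(2 * π / 3) ≤ e) (h2 : e ≤ 2 * π / 3) :
    ∃ i : Fin 3, ∃ δ > 0, ∀ t ∈ side i, δ ≤ |Real.sin ((t - e) / 2)| := by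
  have hπ := Real.pi_pos
  rcases eq_or_lt_of_le h1 with he | he
  · obtain ⟨δ, hδ, hs⟩ := sin_low (a := π / 3) (b := 2 * π / 3) (by positivity) (by linarith)
      (by linarith)
    refine ⟨0, δ, hδ, ?_⟩
    rintro t ⟨n, hn1, hn2⟩
    rw [← abs_sin_shift t e n]
    exact (hs _ (by linarith) (by linarith)).trans (le_abs_self _)
  rcases eq_or_lt_of_le h2 with he' | he'
  · obtain ⟨δ, hδ, hs⟩ := sin_low (a := π / 3) (b := 2 * π / 3) (by positivity) (by linarith)
      (by linarith)
    refine ⟨1, δ, hδ, ?_⟩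
    rintro t ⟨n, hn1, hn2⟩
    rw [← abs_sin_shift t e n, ← abs_neg, ← Real.sin_neg]
    exact (hs _ (by linarith) (by linarith)).trans (le_abs_self _)
  · obtain ⟨δ, hδ, hs⟩ := sin_low (a := (2 * π / 3 - e) / 2) (b := (4 * π / 3 - e) / 2)
      (by linarith) (by linarith) (by linarith)
    refine ⟨2, δ, hδ, ?_⟩
    rintro t ⟨n, hn1, hn2⟩
    rw [← abs_sin_shift t e n]
    exact (hs _ (by linarith) (by linarith)).trans (le_abs_self _)

lemma lip_sin (x y : ℝ) : |Real.sin (π / 2 * x) - Real.sin (π / 2 * y)| ≤ 2 * |x - y| := by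
  have h := Real.lipschitzWith_sin.dist_le_mul (π / 2 * x) (π / 2 * y)
  rw [Real.dist_eq, Real.dist_eq, NNReal.coe_one, one_mul, ← mul_sub, abs_mul,
    abs_of_pos (by positivity : (0 : ℝ) < π / 2)] at h
  refine h.trans (mul_le_mul_of_nonneg_right ?_ (abs_nonneg _))
  linarith [Real.pi_le_four]

lemma lip_cos (x y : ℝ) : |Real.cos (π / 2 * x) - Real.cos (π / 2 * y)| ≤ 2 * |x - y| := by
  have h := Real.lipschitzWith_cos.dist_le_mul (π / 2 * x) (π / 2 * y)
  rw [Real.dist_eq, Real.dist_eq, NNReal.coe_one, one_mul, ← mul_sub, abs_mul,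
    abs_of_pos (by positivity : (0 : ℝ) < π / 2)] at h
  refine h.trans (mul_le_mul_of_nonneg_right ?_ (abs_nonneg _))
  linarith [Real.pi_le_four]

lemma en_lip {χ Φ : ℝ → ℝ} (hχ : FE χ) (h : ∀ x y, |Φ x - Φ y| ≤ 2 * |x - y|) :
    en (fun t => Φ (χ t)) (fun t => Φ (χ t)) ≤ 4 * en χ χ := by
  have h1 : en (fun t => Φ (χ t)) (fun t => Φ (χ t)) ≤
      en (fun t => 2 * χ t) (fun t => 2 * χ t) := by
    refine en_mono (hχ.smul 2) fun s t => ?_
    have h2 := h (χ s) (χ t)
    rw [← sq_abs (Φ (χ s) - Φ (χ t)), ← mul_sub, mul_pow, ← sq_abs (χ s - χ t), ← mul_pow]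
    exact pow_le_pow_left₀ (abs_nonneg _) h2 2
  rw [en_smul_left, en_smul_right] at h1
  linarith

lemma prod_bound (hP : Stmt_A_prod) {u v : ℝ → ℝ} {η : ℝ} (hu : FE u) (hv : FE v)
    (hu1 : ∀ t, |u t| ≤ 1) (hv1 : ∀ t, |v t| ≤ 1) (hη : 0 < η) (h1 : en u u ≤ η / 16)
    (h2 : en v v ≤ η / 16) : en (fun t => u t * v t) (fun t => u t * v t) ≤ η / 4 := by
  refine (hP u v hu hv hu1 hv1).trans ?_
  have h3 : Real.sqrt (en u u) ≤ Real.sqrt (η / 16) := Real.sqrt_le_sqrt h1
  have h4 : Real.sqrt (en v v) ≤ Real.sqrt (η / 16) := Real.sqrt_le_sqrt h2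
  have h5 : (Real.sqrt (en u u) + Real.sqrt (en v v)) ^ 2 ≤ (2 * Real.sqrt (η / 16)) ^ 2 :=
    pow_le_pow_left₀ (add_nonneg (Real.sqrt_nonneg _) (Real.sqrt_nonneg _)) (by linarith) 2
  refine h5.trans ?_
  rw [mul_pow, Real.sq_sqrt (by positivity)]
  linarith

end CCT

open CCT in
/-- CCT: cutoffs. -/
theorem t_CCT : Stmt_A_log → Stmt_A_sqrt → Stmt_A_prod → Stmt_CCT := by
  intro hL hS hP F
  induction F using Finset.induction_on with
  | empty =>
    intro _ η hη
    refine ⟨fun _ => 1, fun _ _ => 0, FE.const 1, fun _ => FE.const 0, fun _ => zero_le_one,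
      fun _ _ => le_rfl, fun t => by simp, ?_, fun i => ?_, ⟨1, one_pos, by simp⟩,
      fun i t _ => rfl⟩
    · rw [en_const_left]
      exact hη.le
    · rw [en_const_left]
      exact hη.le
  | insert e F he ih =>
    intro hF η hη
    obtain ⟨α, β, hα, hβ, hα0, hβ0, hsum, heα, heβ, ⟨r, hr, hrα⟩, hside⟩ :=
      ih (fun x hx => hF x (Finset.mem_insert_of_mem hx)) (η / 16) (by positivity)
    obtain ⟨he1, he2⟩ := hF e (Finset.mem_insert_self e F)
    obtain ⟨i₀, δ, hδ, hsi⟩ := exists_side he1 he2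
    obtain ⟨χ, hχ, -, hχ01, hχe, ⟨r', hr', hχ0⟩, hχ1⟩ := hL e δ (η / 64) hδ (by positivity)
    have hc : FE (fun t => Real.sin (π / 2 * χ t)) := hχ.lip (Φ := fun x => Real.sin (π / 2 * x))
      lip_sin
    have hs : FE (fun t => Real.cos (π / 2 * χ t)) := hχ.lip (Φ := fun x => Real.cos (π / 2 * x))
      lip_cos
    have hec : en (fun t => Real.sin (π / 2 * χ t)) (fun t => Real.sin (π / 2 * χ t)) ≤ η / 16 :=
      (en_lip (Φ := fun x => Real.sin (π / 2 * x)) hχ lip_sin).trans (by linarith)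
    have hes : en (fun t => Real.cos (π / 2 * χ t)) (fun t => Real.cos (π / 2 * χ t)) ≤ η / 16 :=
      (en_lip (Φ := fun x => Real.cos (π / 2 * x)) hχ lip_cos).trans (by linarith)
    have hα1 : ∀ t, |α t| ≤ 1 := fun t => by
      rw [abs_of_nonneg (hα0 t)]
      have h1 : 0 ≤ ∑ i, β i t ^ 2 := Finset.sum_nonneg fun i _ => sq_nonneg _
      have h2 := hsum t
      nlinarith [hα0 t]
    have hca := prod_bound hP hc hα (fun t => Real.abs_sin_le_one _) hα1 hη hec heα
    have hsa := prod_bound hP hs hα (fun t => Real.abs_cos_le_one _) hα1 hη hes heα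
    have hca' : FE (fun t => Real.sin (π / 2 * χ t) * α t) := hc.mul hα
    have hsa' : FE (fun t => Real.cos (π / 2 * χ t) * α t) := hs.mul hα
    obtain ⟨hw, hwe⟩ := hS (β i₀) (fun t => Real.cos (π / 2 * χ t) * α t) (hβ i₀) hsa'
    have hpi : 0 < π := Real.pi_pos
    refine ⟨fun t => Real.sin (π / 2 * χ t) * α t,
      Function.update β i₀ (fun t => Real.sqrt (β i₀ t ^ 2 + (Real.cos (π / 2 * χ t) * α t) ^ 2)),
      hca', fun i => ?_, fun t => ?_, fun i t => ?_, fun t => ?_, by linarith, fun i => ?_,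
      ⟨min r r', lt_min hr hr', fun x hx t ht => ?_⟩, fun i t ht => ?_⟩
    · by_cases hi : i = i₀
      · subst hi
        rw [Function.update_self]
        exact hw
      · rw [Function.update_of_ne hi]
        exact hβ i
    · refine mul_nonneg (Real.sin_nonneg_of_nonneg_of_le_pi ?_ ?_) (hα0 t)
      · exact mul_nonneg (by positivity) (hχ01 t).1
      · have h1 := mul_le_mul_of_nonneg_left (hχ01 t).2 (by positivity : (0 : ℝ) ≤ π / 2)
        linarith
    · by_cases hi : i = i₀
      · subst hi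
        rw [Function.update_self]
        exact Real.sqrt_nonneg _
      · rw [Function.update_of_ne hi]
        exact hβ0 i t
    · have h1 : ∑ i, Function.update β i₀
          (fun t => Real.sqrt (β i₀ t ^ 2 + (Real.cos (π / 2 * χ t) * α t) ^ 2)) i t ^ 2
          = ∑ i, β i t ^ 2 + (Real.cos (π / 2 * χ t) * α t) ^ 2 := by
        rw [← Finset.add_sum_erase _ _ (Finset.mem_univ i₀),
          ← Finset.add_sum_erase _ (fun i => β i t ^ 2) (Finset.mem_univ i₀)]
        have h2 : ∑ j ∈ Finset.univ.erase i₀, Function.update β i₀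
            (fun t => Real.sqrt (β i₀ t ^ 2 + (Real.cos (π / 2 * χ t) * α t) ^ 2)) j t ^ 2
            = ∑ j ∈ Finset.univ.erase i₀, β j t ^ 2 :=
          Finset.sum_congr rfl fun j hj => by
            rw [Function.update_of_ne (Finset.ne_of_mem_erase hj)]
        rw [h2, Function.update_self, Real.sq_sqrt (by positivity)]
        ring
      rw [h1]
      have h3 := Real.sin_sq_add_cos_sq (π / 2 * χ t)
      have h4 : (Real.sin (π / 2 * χ t) * α t) ^ 2 + (∑ i, β i t ^ 2
          + (Real.cos (π / 2 * χ t) * α t) ^ 2)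
          = (Real.sin (π / 2 * χ t) ^ 2 + Real.cos (π / 2 * χ t) ^ 2) * α t ^ 2
            + ∑ i, β i t ^ 2 := by ring
      rw [h4, h3, one_mul]
      exact hsum t
    · by_cases hi : i = i₀
      · subst hi
        rw [Function.update_self]
        have h1 := heβ i
        linarith
      · rw [Function.update_of_ne hi]
        have h1 := heβ i
        linarith
    · rcases Finset.mem_insert.1 hx with hxe | hxF
      · rw [hxe] at ht
        have h1 := hχ0 t (ht.trans_le (min_le_right _ _))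
        simp only [h1, mul_zero, Real.sin_zero, zero_mul]
      · have h1 := hrα x hxF t (ht.trans_le (min_le_left _ _))
        simp only [h1, mul_zero]
    · by_cases hi : i = i₀
      · subst hi
        rw [Function.update_self]
        have h1 := hχ1 t (hsi t ht)
        simp only [h1, hside i t ht, mul_one, Real.cos_pi_div_two, zero_mul]
        simp
      · rw [Function.update_of_ne hi]
        exact hside i t ht

end Pool.Agent.FBM
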