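/-
FBM, block C: change of variables on the square of the circle (module FBM_CCV, helper5).
-/
import Pool.Agent.FBM.StmtC

open MeasureTheory Set Filter Topology
open scoped Real

namespace Pool.Agent.FBM

namespace CCV_

/-- Integrals of periodic functions over periods. -/
theorem per_lint {h : ℝ → ENNReal} (hp : Function.Periodic h (2 * π)) (a b : ℝ) :
    ∫⁻ t in Ioc a (a + 2 * π), h t = ∫⁻ t in Ioc b (b + 2 * π), h t := by
  have h2 : (0 : ℝ) < 2 * π := Real.two_pi_pos
  have ha := isAddFundamentalDomain_Ioc h2 a (volume : Measure ℝ)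
  have hb := isAddFundamentalDomain_Ioc h2 b (volume : Measure ℝ)
  refine ha.setLIntegral_eq hb h ?_
  rintro ⟨g, hg⟩ x
  obtain ⟨n, rfl⟩ := AddSubgroup.mem_zmultiples_iff.mp hg
  have hpn := hp.zsmul n x
  rw [add_comm] at hpn
  exact hpn

theorem psi_strictMono {v : ℝ → ℝ} {s : ℝ} {τ : ℝ → ℝ} (hI : Inv v s τ) :
    StrictMono fun t => t + s * v t := by
  intro a b hab
  by_contra hle
  rw [not_lt] at hle
  have h1 : τ (b + s * v b) ≤ τ (a + s * v a) := hI.mono.monotone hle
  rw [hI.left, hI.left] at h1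
  exact absurd hab (not_lt.mpr h1)

/-- Change of variables in one variable. -/
theorem one {v dv : ℝ → ℝ} {s : ℝ} {τ : ℝ → ℝ} (hv : VF0 v dv) (hI : Inv v s τ)
    (hpos : ∀ t, 0 < 1 + s * dv t) {h : ℝ → ENNReal} (hp : Function.Periodic h (2 * π)) :
    ∫⁻ t, h (τ t) ∂cm = ∫⁻ t, h t * ENNReal.ofReal (1 + s * dv t) ∂cm := by
  have hmono := psi_strictMono hI
  have hpτ : Function.Periodic (fun t => h (τ t)) (2 * π) := by
    intro t
    change h (τ (t + 2 * π)) = h (τ t)
    rw [hI.per, hp]
  have h2 : (-π : ℝ) + 2 * π = π := by ring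
  have e1 : ∫⁻ t, h (τ t) ∂cm = ∫⁻ t in Ioc (-π + s * v (-π)) (-π + s * v (-π) + 2 * π), h (τ t) := by
    have := per_lint hpτ (-π) (-π + s * v (-π))
    rw [h2] at this
    exact this
  have himg : (fun t => t + s * v t) '' Ioc (-π) π =
      Ioc (-π + s * v (-π)) (-π + s * v (-π) + 2 * π) := by
    have hend : -π + s * v (-π) + 2 * π = π + s * v π := by
      have h3 := hv.per (-π)
      rw [h2] at h3
      rw [← h3]
      ring
    rw [hend]
    ext y
    constructor
    · rintro ⟨x, hx, rfl⟩
      exact ⟨hmono hx.1, hmono.monotone hx.2⟩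
    · intro hy
      refine ⟨τ y, ⟨?_, ?_⟩, hI.right y⟩
      · by_contra hle
        rw [not_lt] at hle
        have h4 := hmono.monotone hle
        simp only [hI.right] at h4
        exact absurd hy.1 (not_lt.mpr h4)
      · by_contra hle
        rw [not_le] at hle
        have h4 := hmono hle
        simp only [hI.right] at h4
        exact absurd hy.2 (not_le.mpr h4)
  have hder : ∀ x ∈ Ioc (-π) π, HasDerivWithinAt (fun t => t + s * v t) (1 + s * dv x)
      (Ioc (-π) π) x := by
    intro x _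
    exact ((hasDerivAt_id x).add ((hv.der x).const_mul s)).hasDerivWithinAt
  have e2 := lintegral_image_eq_lintegral_abs_deriv_mul (measurableSet_Ioc) hder
    hmono.injective.injOn (fun t => h (τ t))
  rw [e1, ← himg, e2]
  unfold cm
  refine lintegral_congr fun x => ?_
  rw [hI.left, abs_of_pos (hpos x), mul_comm]

end CCV_

open CCV_ in
theorem t_CCV : Stmt_CCV := by
  intro v dv s τ hv hI hpos F hF hp1 hp2
  have hdm : Measurable dv := hv.cont.measurable
  have hτ : Measurable τ := hI.cont.measurable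
  have hw : Measurable fun t : ℝ => ENNReal.ofReal (1 + s * dv t) :=
    ((hdm.const_mul s).const_add 1).ennreal_ofReal
  have : SFinite cm := by unfold cm; infer_instance
  have hL : ∫⁻ p, F (τ p.1, τ p.2) ∂cm2 = ∫⁻ a, ∫⁻ b, F (τ a, τ b) ∂cm ∂cm := by
    unfold cm2
    have hm : Measurable fun p : ℝ × ℝ => F (τ p.1, τ p.2) :=
      hF.comp ((hτ.comp measurable_fst).prodMk (hτ.comp measurable_snd))
    exact lintegral_prod _ hm.aemeasurable
  have hR : ∫⁻ p, F p * ENNReal.ofReal ((1 + s * dv p.1) * (1 + s * dv p.2)) ∂cm2 =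
      ∫⁻ a, ∫⁻ b, F (a, b) * ENNReal.ofReal ((1 + s * dv a) * (1 + s * dv b)) ∂cm ∂cm := by
    unfold cm2
    have hm : Measurable fun p : ℝ × ℝ =>
        F p * ENNReal.ofReal ((1 + s * dv p.1) * (1 + s * dv p.2)) := by
      refine hF.mul (Measurable.ennreal_ofReal ?_)
      exact (((hdm.comp measurable_fst).const_mul s).const_add 1).mul
        (((hdm.comp measurable_snd).const_mul s).const_add 1)
    exact lintegral_prod _ hm.aemeasurable
  rw [hL, hR]
  have h1 : ∀ a, ∫⁻ b, F (τ a, τ b) ∂cm =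
      ∫⁻ b, F (τ a, b) * ENNReal.ofReal (1 + s * dv b) ∂cm := fun a =>
    one hv hI hpos (h := fun b => F (τ a, b)) (fun b => hp2 _ _)
  simp only [h1]
  have h2 := one hv hI hpos
    (h := fun a => ∫⁻ b, F (a, b) * ENNReal.ofReal (1 + s * dv b) ∂cm)
    (fun a => by simp only [hp1])
  rw [h2]
  refine lintegral_congr fun a => ?_
  rw [mul_comm, ← lintegral_const_mul]
  · refine lintegral_congr fun b => ?_
    rw [ENNReal.ofReal_mul (hpos a).le]
    ring
  · exact (hF.comp (measurable_const.prodMk measurable_id)).mul hw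

end Pool.Agent.FBM
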