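import Pool.Agent.FBM.StmtC1

/-!
# FBM, block C: fine configurations (module CFI)

Architect helper62, worked out by helper82.
-/

open MeasureTheory Set Filter Topology
open scoped Real

namespace Pool.Agent.FBM

namespace CFI

/-- left endpoints -/
noncomputable def la (N : ℕ) (δ : ℝ) (k : ℕ) : ℝ :=
  if k < N then k * δ else if k < 2 * N then -(2 * π / 3) + ((k : ℝ) - N) * δ else 0

/-- lengths -/
noncomputable def wi (N : ℕ) (δ : ℝ) (k : ℕ) : ℝ := if k < 2 * N then δ / 2 else 0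

theorem cell {N : ℕ} {δ x : ℝ} (hδ : 0 < δ) (h0 : 0 ≤ x) (h1 : x < N * δ) :
    ∃ j : ℕ, j < N ∧ j * δ ≤ x ∧ x < (j + 1) * δ := by
  have h := Nat.floor_le (div_nonneg h0 hδ.le)
  refine ⟨⌊x / δ⌋₊, ?_, ?_, ?_⟩
  · have h2 : x / δ < N := by rwa [div_lt_iff₀ hδ]
    exact_mod_cast h.trans_lt h2
  · rwa [le_div_iff₀ hδ] at h
  · have h3 := Nat.lt_floor_add_one (x / δ)
    rwa [div_lt_iff₀ hδ] at h3

theorem HH_elim {m : ℕ} {a b : Fin m → ℝ} (h : ∀ k, -(2 * π / 3) ≤ a k ∧ b k ≤ 2 * π / 3)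
    {t : ℝ} (h1 : -(2 * π / 3) < t) (h2 : t < 2 * π / 3) (hm : t ∈ HH m a b) :
    ∃ k, a k ≤ t ∧ t ≤ b k := by
  obtain ⟨n, hn⟩ := hm
  rw [mem_iUnion] at hn
  obtain ⟨k, hk1, hk2⟩ := hn
  have hp := Real.pi_pos
  have ha := (h k).1
  have hb := (h k).2
  have hn0 : n = 0 := by
    have h3 : (n : ℝ) < 1 := by
      by_contra hc
      push Not at hc
      nlinarith
    have h4 : (-1 : ℝ) < n := by
      by_contra hc
      push Not at hc
      nlinarith
    have h3' : n < 1 := by exact_mod_cast h3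
    have h4' : -1 < n := by exact_mod_cast h4
    omega
  subst hn0
  simp only [Int.cast_zero, zero_mul, add_zero] at hk1 hk2
  exact ⟨k, hk1, hk2⟩

theorem HH_intro {m : ℕ} {a b : Fin m → ℝ} {t : ℝ} (k : Fin m) (h1 : a k ≤ t) (h2 : t ≤ b k) :
    t ∈ HH m a b := by
  refine ⟨0, ?_⟩
  rw [mem_iUnion]
  refine ⟨k, ?_, ?_⟩ <;> simpa using by assumption

theorem side0 {t : ℝ} (h1 : 0 < t) (h2 : t < 2 * π / 3) : t ∈ side 0 :=
  ⟨0, by simpa using ⟨h1, h2⟩⟩

theorem side1 {t : ℝ} (h1 : -(2 * π / 3) < t) (h2 : t < 0) : t ∈ side 1 :=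
  ⟨0, by simpa using ⟨h1, h2⟩⟩

/-- the intervals meeting the positive side -/
theorem pos_elim {N : ℕ} {δ t : ℝ} (hδ : 0 < δ) (hN : N * δ = 2 * π / 3) (ht : 0 < t) {k : ℕ}
    (h1 : la N δ k ≤ t) (h2 : t ≤ la N δ k + wi N δ k) : k * δ ≤ t ∧ t ≤ k * δ + δ / 2 := by
  unfold la wi at *
  by_cases hk : k < N
  · have hk2 : k < 2 * N := by omega
    rw [if_pos hk] at h1 h2
    rw [if_pos hk2] at h2
    exact ⟨h1, h2⟩
  · rw [if_neg hk] at h1 h2
    by_cases hk2 : k < 2 * N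
    · rw [if_pos hk2] at h1 h2
      rw [if_pos hk2] at h2
      exfalso
      have h3 : (k : ℝ) + 1 ≤ 2 * N := by exact_mod_cast hk2
      nlinarith
    · rw [if_neg hk2] at h1 h2
      rw [if_neg hk2] at h2
      exfalso
      linarith

/-- the intervals meeting the negative side -/
theorem neg_elim {N : ℕ} {δ t : ℝ} (hδ : 0 < δ) (ht : t < 0) {k : ℕ}
    (h1 : la N δ k ≤ t) (h2 : t ≤ la N δ k + wi N δ k) :
    N ≤ k ∧ ((k : ℝ) - N) * δ ≤ t + 2 * π / 3 ∧ t + 2 * π / 3 ≤ ((k : ℝ) - N) * δ + δ / 2 := by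
  unfold la wi at *
  by_cases hk : k < N
  · rw [if_pos hk] at h1 h2
    exfalso
    have : 0 ≤ (k : ℝ) * δ := by positivity
    linarith
  · rw [if_neg hk] at h1 h2
    by_cases hk2 : k < 2 * N
    · rw [if_pos hk2] at h1 h2
      rw [if_pos hk2] at h2
      exact ⟨by omega, by linarith, by linarith⟩
    · rw [if_neg hk2] at h1 h2
      exfalso
      linarith

theorem la_bd {N : ℕ} {δ : ℝ} (hδ : 0 < δ) (hN : N * δ = 2 * π / 3) (k : ℕ) :
    -(2 * π / 3) ≤ la N δ k ∧ la N δ k ≤ la N δ k + wi N δ k ∧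
      la N δ k + wi N δ k ≤ 2 * π / 3 := by
  have hp := Real.pi_pos
  unfold la wi
  by_cases hk : k < N
  · have hk2 : k < 2 * N := by omega
    rw [if_pos hk, if_pos hk2]
    have h0 : 0 ≤ (k : ℝ) * δ := by positivity
    have h3 : (k : ℝ) + 1 ≤ N := by exact_mod_cast hk
    refine ⟨by linarith, by linarith, ?_⟩
    nlinarith
  · rw [if_neg hk]
    by_cases hk2 : k < 2 * N
    · rw [if_pos hk2, if_pos hk2]
      have h3 : (k : ℝ) + 1 ≤ 2 * N := by exact_mod_cast hk2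
      have h4 : (N : ℝ) ≤ k := by exact_mod_cast (not_lt.1 hk)
      have h5 : 0 ≤ ((k : ℝ) - N) * δ := mul_nonneg (by linarith) hδ.le
      refine ⟨by linarith, by linarith, ?_⟩
      nlinarith
    · rw [if_neg hk2, if_neg hk2]
      refine ⟨by linarith, by linarith, by linarith⟩

end CFI

open CFI

theorem t_CFI : Stmt_CFI := by
  intro δ₀ hδ₀
  have hp := Real.pi_pos
  obtain ⟨M, hM⟩ := exists_nat_gt (2 * π / (3 * δ₀))
  refine ⟨2 * (M + 1), fun m hm => ?_⟩
  set N := m / 2 with hNdef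
  have hNM : M + 1 ≤ N := by omega
  have hNm : 2 * N ≤ m := by omega
  have hN0 : (0 : ℝ) < N := by exact_mod_cast (by omega : 0 < N)
  have hMN : (M : ℝ) ≤ N := by exact_mod_cast (by omega : M ≤ N)
  obtain ⟨δ, hδdef⟩ : ∃ δ : ℝ, δ = 2 * π / 3 / N := ⟨_, rfl⟩
  have hδ : 0 < δ := by rw [hδdef]; positivity
  have hNδ : N * δ = 2 * π / 3 := by rw [hδdef]; field_simp
  have hδδ : δ ≤ δ₀ := by
    rw [hδdef, div_le_iff₀ hN0]
    rw [div_lt_iff₀ (by positivity)] at hM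
    nlinarith
  let a : Fin m → ℝ := fun k => la N δ k
  let b : Fin m → ℝ := fun k => la N δ k + wi N δ k
  have hbd : ∀ k : Fin m, -(2 * π / 3) ≤ a k ∧ a k ≤ b k ∧ b k ≤ 2 * π / 3 :=
    fun k => la_bd hδ hNδ k
  have hbd' : ∀ k : Fin m, -(2 * π / 3) ≤ a k ∧ b k ≤ 2 * π / 3 :=
    fun k => ⟨(hbd k).1, (hbd k).2.2⟩
  refine ⟨(a, b), hbd, δ, hδ, hδδ, ?_, ?_, ?_⟩
  · rintro s ⟨hs1, hs2⟩
    obtain ⟨j, hj, hj1, hj2⟩ := cell (N := N) hδ hs1.le (by linarith)
    have hj3 : (j : ℝ) + 1 ≤ N := by exact_mod_cast hj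
    have hj0 : 0 ≤ (j : ℝ) * δ := by positivity
    have hj4 : ((j : ℝ) + 1) * δ ≤ 2 * π / 3 := by
      rw [← hNδ]; exact mul_le_mul_of_nonneg_right hj3 hδ.le
    refine ⟨j * δ + δ / 2, fun t ht1 ht2 => ⟨?_, ?_, ?_⟩⟩
    · rw [abs_le]; constructor <;> linarith
    · exact side0 (by linarith) (by linarith)
    · intro hH
      obtain ⟨k, hk1, hk2⟩ := HH_elim hbd' (by linarith) (by linarith) hH
      obtain ⟨h1, h2⟩ := pos_elim hδ hNδ (by linarith) hk1 hk2
      have h3 : ((k : ℕ) : ℝ) < (j : ℝ) + 1 := by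
        by_contra hc
        push Not at hc
        nlinarith
      have h4 : ((k : ℕ) : ℝ) ≤ j := by
        have : (k : ℕ) < j + 1 := by exact_mod_cast h3
        exact_mod_cast Nat.lt_succ_iff.1 this
      nlinarith
  · rintro s ⟨hs1, hs2⟩
    obtain ⟨j, hj, hj1, hj2⟩ := cell (N := N) (x := s + 2 * π / 3) hδ (by linarith) (by linarith)
    have hj3 : (j : ℝ) + 1 ≤ N := by exact_mod_cast hj
    have hj0 : 0 ≤ (j : ℝ) * δ := by positivity
    have hj4 : ((j : ℝ) + 1) * δ ≤ 2 * π / 3 := by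
      rw [← hNδ]; exact mul_le_mul_of_nonneg_right hj3 hδ.le
    refine ⟨-(2 * π / 3) + j * δ + δ / 2, fun t ht1 ht2 => ⟨?_, ?_, ?_⟩⟩
    · rw [abs_le]; constructor <;> linarith
    · exact side1 (by linarith) (by linarith)
    · intro hH
      obtain ⟨k, hk1, hk2⟩ := HH_elim hbd' (by linarith) (by linarith) hH
      obtain ⟨h0, h1, h2⟩ := neg_elim hδ (by linarith) hk1 hk2
      have h3 : ((k : ℕ) : ℝ) < N + (j : ℝ) + 1 := by
        by_contra hc
        push Not at hc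
        nlinarith
      have h4 : ((k : ℕ) : ℝ) ≤ N + j := by
        have : (k : ℕ) < N + j + 1 := by exact_mod_cast h3
        exact_mod_cast Nat.lt_succ_iff.1 this
      nlinarith
  · rintro s ⟨hs1, hs2⟩
    rcases le_or_gt 0 s with hs0 | hs0
    · obtain ⟨j, hj, hj1, hj2⟩ := cell (N := N) hδ hs0 (by linarith)
      refine ⟨j * δ, fun t ht1 ht2 => ⟨?_, ?_⟩⟩
      · rw [abs_le]; constructor <;> linarith
      · have e1 : la N δ j = j * δ := by unfold la; rw [if_pos hj]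
        have e2 : wi N δ j = δ / 2 := by unfold wi; rw [if_pos (by omega)]
        refine HH_intro (⟨j, by omega⟩ : Fin m) ?_ ?_
        · change la N δ j ≤ t
          rw [e1]; exact ht1.le
        · change t ≤ la N δ j + wi N δ j
          rw [e1, e2]; exact ht2.le
    · obtain ⟨j, hj, hj1, hj2⟩ := cell (N := N) (x := s + 2 * π / 3) hδ (by linarith) (by linarith)
      refine ⟨-(2 * π / 3) + j * δ, fun t ht1 ht2 => ⟨?_, ?_⟩⟩
      · rw [abs_le]; constructor <;> linarith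
      · have e1 : la N δ (N + j) = -(2 * π / 3) + j * δ := by
          unfold la; rw [if_neg (by omega), if_pos (by omega)]; push_cast; ring
        have e2 : wi N δ (N + j) = δ / 2 := by unfold wi; rw [if_pos (by omega)]
        refine HH_intro (⟨N + j, by omega⟩ : Fin m) ?_ ?_
        · change la N δ (N + j) ≤ t
          rw [e1]; exact ht1.le
        · change t ≤ la N δ (N + j) + wi N δ (N + j)
          rw [e1, e2]; exact ht2.le

end Pool.Agent.FBM
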