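import Pool.Agent.FBM.StmtC

/-!
# FBM, block C: `Qv` of trigonometric fields (helper92)
-/

open MeasureTheory Set Filter Topology
open scoped Real

namespace Pool.Agent.FBM

namespace CFQ_

/-- `e^{iat}` -/
noncomputable def ee (a : ℕ) (t : ℝ) : ℂ := Complex.exp (a * t * Complex.I)

lemma ee_eq (a : ℕ) (t : ℝ) : ee a t = Complex.exp (((a * t : ℝ) : ℂ) * Complex.I) := by
  unfold ee; push_cast; rfl

lemma norm_ee (a : ℕ) (t : ℝ) : ‖ee a t‖ = 1 := by
  rw [ee_eq]; exact Complex.norm_exp_ofReal_mul_I _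

lemma cont_ee (a : ℕ) : Continuous (ee a) := by
  unfold ee; fun_prop

lemma ee_re (a : ℕ) (t : ℝ) : ee a t = (Real.cos (a * t) : ℂ) + Real.sin (a * t) * Complex.I := by
  rw [ee_eq, Complex.exp_mul_I, Complex.ofReal_cos, Complex.ofReal_sin]

lemma int_ee (b : ℕ) (hb : b ≠ 0) : ∫ t, ee b t ∂cm = 0 := by
  have hpi : (-π) ≤ π := by linarith [Real.pi_pos]
  have hc : (b : ℂ) * Complex.I ≠ 0 :=
    mul_ne_zero (Nat.cast_ne_zero.2 hb) Complex.I_ne_zero
  have h0 : ∀ t : ℝ, ee b t = Complex.exp ((b : ℂ) * Complex.I * t) := by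
    intro t; unfold ee; congr 1; ring
  have h1 : ∫ t, ee b t ∂cm = ∫ t in (-π)..π, Complex.exp ((b : ℂ) * Complex.I * t) := by
    rw [intervalIntegral.integral_of_le hpi]
    unfold cm
    exact integral_congr_ae (Eventually.of_forall h0)
  rw [h1, integral_exp_mul_complex hc]
  have h2 : Complex.exp ((b : ℂ) * Complex.I * ((-π : ℝ) : ℂ)) =
      Complex.exp ((b : ℂ) * Complex.I * (π : ℂ)) := by
    have h3 : (b : ℂ) * Complex.I * (π : ℂ) =
        (b : ℂ) * Complex.I * ((-π : ℝ) : ℂ) + (b : ℕ) * (2 * π * Complex.I) := by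
      push_cast; ring
    rw [h3, Complex.exp_add, Complex.exp_nat_mul, Complex.exp_two_pi_mul_I, one_pow, mul_one]
  rw [h2, sub_self, zero_div]

lemma intg {g : ℝ → ℂ} (hm : Measurable g) (C : ℝ) (h : ∀ t, ‖g t‖ ≤ C) : Integrable g cm :=
  Integrable.of_bound hm.aestronglyMeasurable C (Eventually.of_forall h)

lemma meas_ee (a : ℕ) : Measurable (ee a) := (cont_ee a).measurable

/-- the integral of one term -/
lemma term {f : ℝ → ℝ} (hf : FE f) (a b : ℕ) (ha : a ≠ 0) (hb : b ≠ 0) :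
    Integrable (fun p : ℝ × ℝ => ((f p.1 : ℂ) - f p.2) ^ 2 * (ee a p.1 * ee b p.2)) cm2 ∧
    ∫ p : ℝ × ℝ, ((f p.1 : ℂ) - f p.2) ^ 2 * (ee a p.1 * ee b p.2) ∂cm2 =
      -2 * ((∫ u, (f u : ℂ) * ee a u ∂cm) * ∫ u, (f u : ℂ) * ee b u ∂cm) := by
  obtain ⟨C, hC⟩ := hf.bdd
  have hfm : Measurable (fun t => (f t : ℂ)) := Complex.measurable_ofReal.comp hf.meas
  have hn : ∀ t, ‖(f t : ℂ)‖ ≤ C := fun t => by
    rw [Complex.norm_real]; exact hC t
  have hC0 : 0 ≤ C := (norm_nonneg _).trans (hn 0)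
  have i0 : ∀ c, Integrable (ee c) cm := fun c => intg (meas_ee c) 1 fun t => (norm_ee c t).le
  have i1 : ∀ c, Integrable (fun t => (f t : ℂ) * ee c t) cm := fun c =>
    intg (hfm.mul (meas_ee c)) C fun t => by
      rw [norm_mul, norm_ee, mul_one]; exact hn t
  have i2 : ∀ c, Integrable (fun t => (f t : ℂ) ^ 2 * ee c t) cm := fun c =>
    intg ((hfm.pow_const 2).mul (meas_ee c)) (C ^ 2) fun t => by
      rw [norm_mul, norm_ee, mul_one, norm_pow]
      exact pow_le_pow_left₀ (norm_nonneg _) (hn t) 2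
  have j1 : Integrable (fun p : ℝ × ℝ => ((f p.1 : ℂ) ^ 2 * ee a p.1) * ee b p.2) cm2 :=
    (i2 a).mul_prod (i0 b)
  have j2 : Integrable (fun p : ℝ × ℝ => ((f p.1 : ℂ) * ee a p.1) * ((f p.2 : ℂ) * ee b p.2)) cm2 :=
    (i1 a).mul_prod (i1 b)
  have j3 : Integrable (fun p : ℝ × ℝ => ee a p.1 * ((f p.2 : ℂ) ^ 2 * ee b p.2)) cm2 :=
    (i0 a).mul_prod (i2 b)
  have e1 : ∫ p : ℝ × ℝ, ((f p.1 : ℂ) ^ 2 * ee a p.1) * ee b p.2 ∂cm2 = 0 := by
    have := integral_prod_mul (μ := cm) (ν := cm) (fun t => (f t : ℂ) ^ 2 * ee a t) (ee b)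
    rw [int_ee b hb, mul_zero] at this
    exact this
  have e2 : ∫ p : ℝ × ℝ, ((f p.1 : ℂ) * ee a p.1) * ((f p.2 : ℂ) * ee b p.2) ∂cm2 =
      (∫ u, (f u : ℂ) * ee a u ∂cm) * ∫ u, (f u : ℂ) * ee b u ∂cm :=
    integral_prod_mul (μ := cm) (ν := cm) (fun t => (f t : ℂ) * ee a t) (fun t => (f t : ℂ) * ee b t)
  have e3 : ∫ p : ℝ × ℝ, ee a p.1 * ((f p.2 : ℂ) ^ 2 * ee b p.2) ∂cm2 = 0 := by
    have := integral_prod_mul (μ := cm) (ν := cm) (ee a) (fun t => (f t : ℂ) ^ 2 * ee b t)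
    rw [int_ee a ha, zero_mul] at this
    exact this
  have hsplit : ∀ p : ℝ × ℝ, ((f p.1 : ℂ) - f p.2) ^ 2 * (ee a p.1 * ee b p.2) =
      ((f p.1 : ℂ) ^ 2 * ee a p.1) * ee b p.2 +
      (-2 * (((f p.1 : ℂ) * ee a p.1) * ((f p.2 : ℂ) * ee b p.2)) +
        ee a p.1 * ((f p.2 : ℂ) ^ 2 * ee b p.2)) := by
    intro p; ring
  simp only [hsplit]
  have j4 : Integrable (fun p : ℝ × ℝ =>
      -2 * (((f p.1 : ℂ) * ee a p.1) * ((f p.2 : ℂ) * ee b p.2))) cm2 := j2.const_mul _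
  have j5 : Integrable (fun p : ℝ × ℝ =>
      -2 * (((f p.1 : ℂ) * ee a p.1) * ((f p.2 : ℂ) * ee b p.2)) +
        ee a p.1 * ((f p.2 : ℂ) ^ 2 * ee b p.2)) cm2 := j4.add j3
  refine ⟨j1.add j5, ?_⟩
  rw [integral_add j1 j5, integral_add j4 j3, integral_const_mul, e1, e2, e3]
  ring

lemma vf_cos (k : ℕ) : VF0 (fun t => Real.cos (k * t)) (fun t => -(k * Real.sin (k * t))) where
  der t := by
    have h := (Real.hasDerivAt_cos (k * t)).comp t ((hasDerivAt_id t).const_mul (k : ℝ))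
    have e : -(k * Real.sin (k * t)) = -Real.sin (k * t) * (k * 1) := by ring
    rw [e]; exact h
  cont := by fun_prop
  per t := by
    have e : (k : ℝ) * (t + 2 * π) = k * t + k * (2 * π) := by ring
    simp only [e, Real.cos_add_nat_mul_two_pi]
  per' t := by
    have e : (k : ℝ) * (t + 2 * π) = k * t + k * (2 * π) := by ring
    simp only [e, Real.sin_add_nat_mul_two_pi]

lemma vf_sin (k : ℕ) : VF0 (fun t => Real.sin (k * t)) (fun t => k * Real.cos (k * t)) where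
  der t := by
    have h := (Real.hasDerivAt_sin (k * t)).comp t ((hasDerivAt_id t).const_mul (k : ℝ))
    have e : k * Real.cos (k * t) = Real.cos (k * t) * (k * 1) := by ring
    rw [e]; exact h
  cont := by fun_prop
  per t := by
    have e : (k : ℝ) * (t + 2 * π) = k * t + k * (2 * π) := by ring
    simp only [e, Real.sin_add_nat_mul_two_pi]
  per' t := by
    have e : (k : ℝ) * (t + 2 * π) = k * t + k * (2 * π) := by ring
    simp only [e, Real.cos_add_nat_mul_two_pi]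

/-- the diagonal of the torus is a null set -/
lemma ae_sin : ∀ᵐ p : ℝ × ℝ ∂cm2, Real.sin ((p.1 - p.2) / 2) ≠ 0 := by
  have hm : MeasurableSet {p : ℝ × ℝ | Real.sin ((p.1 - p.2) / 2) ≠ 0} := by
    have hc : Continuous (fun p : ℝ × ℝ => Real.sin ((p.1 - p.2) / 2)) := by fun_prop
    exact (hc.measurable (measurableSet_singleton (0 : ℝ))).compl
  unfold cm2
  rw [Measure.ae_prod_iff_ae_ae (p := fun p : ℝ × ℝ => Real.sin ((p.1 - p.2) / 2) ≠ 0) hm]
  refine Eventually.of_forall fun s => ?_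
  have hcount : {t : ℝ | Real.sin ((s - t) / 2) = 0}.Countable := by
    have : {t : ℝ | Real.sin ((s - t) / 2) = 0} ⊆ range (fun n : ℤ => s - 2 * (n * π)) := by
      intro t ht
      obtain ⟨n, hn⟩ := Real.sin_eq_zero_iff.1 ht
      exact ⟨n, by simp only; linarith⟩
    exact (countable_range _).mono this
  have hz : cm {t : ℝ | Real.sin ((s - t) / 2) = 0} = 0 := by
    unfold cm
    exact Measure.absolutelyContinuous_of_le Measure.restrict_le_self (hcount.measure_zero volume)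
  rw [ae_iff]
  simpa using hz

/-- the bracket -/
lemma bracket (k : ℕ) (u w : ℝ) :
    ((kv (fun t => Real.cos (k * t)) (fun t => -(k * Real.sin (k * t))) u w : ℝ) : ℂ) +
      Complex.I * ((kv (fun t => Real.sin (k * t)) (fun t => k * Real.cos (k * t)) u w : ℝ) : ℂ) =
    Complex.I * k * (ee k u + ee k w) -
      (ee k u - ee k w) * ((Real.cos ((u - w) / 2) / Real.sin ((u - w) / 2) : ℝ) : ℂ) := by
  rw [ee_re, ee_re]
  unfold kv
  push_cast
  ring_nf
  rw [Complex.I_sq]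
  ring

end CFQ_

open CFQ_ in
theorem t_CFQ (hI : Stmt_CID) (hQ : Stmt_CQB) : Stmt_CFQ := by
  intro f hf k
  obtain ⟨C1, -, h1⟩ := hQ _ _ (vf_cos k)
  obtain ⟨C2, -, h2⟩ := hQ _ _ (vf_sin k)
  have g1 := (h1 f f hf hf).1
  have g2 := (h2 f f hf hf).1
  unfold Qv
  rw [Complex.ofReal_mul, Complex.ofReal_mul, ← integral_complex_ofReal, ← integral_complex_ofReal]
  have hL : ((1 / (2 * π) : ℝ) : ℂ) *
      (∫ p : ℝ × ℝ, ((J p.1 p.2 * kv (fun t => Real.cos (k * t))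
        (fun t => -(k * Real.sin (k * t))) p.1 p.2 * ((f p.1 - f p.2) * (f p.1 - f p.2)) : ℝ) : ℂ)
        ∂cm2) +
      Complex.I * (((1 / (2 * π) : ℝ) : ℂ) *
      (∫ p : ℝ × ℝ, ((J p.1 p.2 * kv (fun t => Real.sin (k * t))
        (fun t => k * Real.cos (k * t)) p.1 p.2 * ((f p.1 - f p.2) * (f p.1 - f p.2)) : ℝ) : ℂ)
        ∂cm2)) =
      ((1 / (2 * π) : ℝ) : ℂ) * ∫ p : ℝ × ℝ,
        ∑ a ∈ Finset.range (k + 1), (-Complex.I * ((a : ℂ) * ((k - a : ℕ) : ℂ))) *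
          (((f p.1 : ℂ) - f p.2) ^ 2 * (ee a p.1 * ee (k - a) p.2)) ∂cm2 := by
    have g1' : Integrable (fun p : ℝ × ℝ => ((J p.1 p.2 * kv (fun t => Real.cos (k * t))
        (fun t => -(k * Real.sin (k * t))) p.1 p.2 * ((f p.1 - f p.2) * (f p.1 - f p.2)) : ℝ) : ℂ))
        cm2 := g1.ofReal
    have g2' : Integrable (fun p : ℝ × ℝ => Complex.I *
        ((J p.1 p.2 * kv (fun t => Real.sin (k * t))
        (fun t => k * Real.cos (k * t)) p.1 p.2 * ((f p.1 - f p.2) * (f p.1 - f p.2)) : ℝ) : ℂ))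
        cm2 := g2.ofReal.const_mul Complex.I
    rw [mul_left_comm Complex.I, ← mul_add, ← integral_const_mul, ← integral_add g1' g2']
    refine congrArg _ (integral_congr_ae ?_)
    filter_upwards [ae_sin] with p hp
    have hb := bracket k p.1 p.2
    have hi := hI k p.1 p.2 hp
    have hsum : ∑ a ∈ Finset.range (k + 1), (-Complex.I * ((a : ℂ) * ((k - a : ℕ) : ℂ))) *
          (((f p.1 : ℂ) - f p.2) ^ 2 * (ee a p.1 * ee (k - a) p.2)) =
        (- Complex.I * ∑ a ∈ Finset.range (k + 1), (a : ℂ) * ((k - a : ℕ) : ℂ) *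
          (ee a p.1 * ee (k - a) p.2)) * ((f p.1 : ℂ) - f p.2) ^ 2 := by
      rw [Finset.mul_sum, Finset.sum_mul]
      refine Finset.sum_congr rfl fun a _ => ?_
      ring
    rw [hsum]
    have hi' : (J p.1 p.2 : ℂ) * (Complex.I * k * (ee k p.1 + ee k p.2) -
      (ee k p.1 - ee k p.2) * ((Real.cos ((p.1 - p.2) / 2) / Real.sin ((p.1 - p.2) / 2) : ℝ) : ℂ))
      = - Complex.I * ∑ a ∈ Finset.range (k + 1), (a : ℂ) * ((k - a : ℕ) : ℂ) *
          (ee a p.1 * ee (k - a) p.2) := hi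
    rw [← hi', ← hb]
    push_cast
    ring
  rw [hL, integral_finsetSum]
  · rw [Finset.mul_sum, Finset.mul_sum]
    refine Finset.sum_congr rfl fun a ha => ?_
    rw [integral_const_mul]
    rcases Nat.eq_zero_or_pos a with h0 | h0
    · subst h0; simp
    rcases Nat.eq_zero_or_pos (k - a) with h3 | h3
    · rw [h3]; simp
    rw [(term hf a (k - a) h0.ne' h3.ne').2]
    have hpi : (π : ℂ) ≠ 0 := Complex.ofReal_ne_zero.2 Real.pi_ne_zero
    unfold ee
    push_cast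
    field_simp
  · intro a ha
    rcases Nat.eq_zero_or_pos a with h0 | h0
    · subst h0; simp
    rcases Nat.eq_zero_or_pos (k - a) with h3 | h3
    · rw [h3]; simp
    exact (term hf a (k - a) h0.ne' h3.ne').1.const_mul _

end Pool.Agent.FBM
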