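import Pool.Agent.FBM.StmtC
import Pool.Agent.FBM.A4

/-!
# CHP: conformality from Fourier coefficients (doc-string of `Stmt_CHP`)
-/

open MeasureTheory Set Filter Topology
open scoped Real

namespace Pool.Agent.FBM

namespace CHP_

/-- the Fourier integral -/
noncomputable def Ef (f : ℝ → ℝ) (n : ℕ) : ℂ :=
  ∫ u, (f u : ℂ) * Complex.exp (n * u * Complex.I) ∂cm

theorem Ef_eq {f : ℝ → ℝ} (hf : FE f) (n : ℕ) :
    Ef f n = ((ac f n : ℝ) : ℂ) + Complex.I * ((bc f n : ℝ) : ℂ) := by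
  unfold Ef ac bc
  have h1 : ∀ u : ℝ, (f u : ℂ) * Complex.exp (n * u * Complex.I) =
      ((f u * Real.cos (n * u) : ℝ) : ℂ) + Complex.I * ((f u * Real.sin (n * u) : ℝ) : ℂ) := by
    intro u
    have h2 : (n : ℂ) * (u : ℂ) * Complex.I = ((n * u : ℝ) : ℂ) * Complex.I := by push_cast; ring
    rw [h2, Complex.exp_mul_I, ← Complex.ofReal_cos, ← Complex.ofReal_sin]
    push_cast
    ring
  simp only [h1]
  rw [integral_add (integrable_mul_cos hf.meas hf.bdd _).ofReal
    ((integrable_mul_sin hf.meas hf.bdd _).ofReal.const_mul _), integral_const_mul,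
    integral_complex_ofReal, integral_complex_ofReal]

theorem dd_eq {f : ℝ → ℝ} (hf : FE f) (n : ℕ) :
    dd f (n + 1) = (1 / π : ℂ) * (starRingEnd ℂ) (Ef f (n + 1)) := by
  rw [Ef_eq hf, dd, if_neg (Nat.succ_ne_zero n)]
  simp only [map_add, map_mul, Complex.conj_I, Complex.conj_ofReal]
  push_cast
  ring

/-- the quadratic relations between the Taylor coefficients -/
theorem rel (hF : Stmt_CFQ) {X : Fin 3 → ℝ → ℝ} (hX : ∀ i, FE (X i))
    (h : ∀ k : ℕ, QQv (fun t => Real.cos (k * t)) (fun t => -(k * Real.sin (k * t))) X = 0 ∧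
      QQv (fun t => Real.sin (k * t)) (fun t => k * Real.cos (k * t)) X = 0) (n : ℕ) :
    ∑ i, ∑ p ∈ Finset.range (n + 1), ((p : ℂ) + 1) * (((n - p : ℕ) : ℂ) + 1) *
      (dd (X i) (p + 1) * dd (X i) (n - p + 1)) = 0 := by
  obtain ⟨h1, h2⟩ := h (n + 2)
  have h3 : ∑ i, (((Qv (fun t => Real.cos ((n + 2 : ℕ) * t))
      (fun t => -((n + 2 : ℕ) * Real.sin ((n + 2 : ℕ) * t))) (X i) (X i) : ℝ) : ℂ) +
      Complex.I * ((Qv (fun t => Real.sin ((n + 2 : ℕ) * t))
        (fun t => (n + 2 : ℕ) * Real.cos ((n + 2 : ℕ) * t)) (X i) (X i) : ℝ) : ℂ)) = 0 := by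
    rw [Finset.sum_add_distrib, ← Finset.mul_sum, ← Complex.ofReal_sum, ← Complex.ofReal_sum]
    unfold QQv at h1 h2
    rw [h1, h2]
    simp
  have h4 : ∀ i, (((Qv (fun t => Real.cos ((n + 2 : ℕ) * t))
      (fun t => -((n + 2 : ℕ) * Real.sin ((n + 2 : ℕ) * t))) (X i) (X i) : ℝ) : ℂ) +
      Complex.I * ((Qv (fun t => Real.sin ((n + 2 : ℕ) * t))
        (fun t => (n + 2 : ℕ) * Real.cos ((n + 2 : ℕ) * t)) (X i) (X i) : ℝ) : ℂ)) =
      Complex.I / π * ∑ p ∈ Finset.range (n + 1), ((p : ℂ) + 1) * (((n - p : ℕ) : ℂ) + 1) *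
        (Ef (X i) (p + 1) * Ef (X i) (n - p + 1)) := by
    intro i
    rw [hF (X i) (hX i) (n + 2), Finset.sum_range_succ, Finset.sum_range_succ']
    simp only [Nat.sub_self, Nat.cast_zero, zero_mul, mul_zero, add_zero]
    congr 1
    refine Finset.sum_congr rfl fun p hp => ?_
    have hp' : p ≤ n := Nat.lt_succ_iff.1 (Finset.mem_range.1 hp)
    have e : n + 2 - (p + 1) = n - p + 1 := by omega
    rw [e]
    unfold Ef
    push_cast
    ring
  simp only [h4] at h3
  rw [← Finset.mul_sum] at h3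
  have hI : Complex.I / (π : ℂ) ≠ 0 :=
    div_ne_zero Complex.I_ne_zero (by exact_mod_cast Real.pi_ne_zero)
  have h5 := (mul_eq_zero.1 h3).resolve_left hI
  have h6 := congrArg (fun z => (1 / π : ℂ) ^ 2 * (starRingEnd ℂ) z) h5
  simp only [map_sum, map_mul, map_add, map_natCast, map_one, map_zero, mul_zero] at h6
  rw [← h6, Finset.mul_sum]
  refine Finset.sum_congr rfl fun i _ => ?_
  rw [Finset.mul_sum]
  refine Finset.sum_congr rfl fun p _ => ?_
  rw [dd_eq (hX i), dd_eq (hX i)]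
  ring

end CHP_

open CHP_ in
theorem t_CHP (_hH : Stmt_DHS) (hF : Stmt_CFQ) : Stmt_CHP := by
  intro X hX h z hz'
  have h1 : ∀ i, HasSum (fun n : ℕ => ∑ p ∈ Finset.range (n + 1),
      (((p : ℂ) + 1) * dd (X i) (p + 1) * z ^ p) *
        ((((n - p : ℕ) : ℂ) + 1) * dd (X i) (n - p + 1) * z ^ (n - p)))
      ((deriv (hz (X i)) z) ^ 2) := by
    intro i
    have h2 := deriv_hz_hasSum (hX i).meas (hX i).bdd hz'
    have h3 := summable_norm_iff.2 h2.summable
    have h4 := tsum_mul_tsum_eq_tsum_sum_range_of_summable_norm h3 h3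
    have h5 := (summable_norm_sum_mul_range_of_summable_norm h3 h3).of_norm
    rw [h2.tsum_eq, ← sq] at h4
    rw [h4]
    exact h5.hasSum
  have h2 := hasSum_sum (s := Finset.univ) fun i _ => h1 i
  have h3 : (fun n : ℕ => ∑ i, ∑ p ∈ Finset.range (n + 1),
      (((p : ℂ) + 1) * dd (X i) (p + 1) * z ^ p) *
        ((((n - p : ℕ) : ℂ) + 1) * dd (X i) (n - p + 1) * z ^ (n - p))) = fun _ => 0 := by
    funext n
    have h4 := congrArg (fun w => z ^ n * w) (rel hF hX h n)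
    simp only [mul_zero] at h4
    rw [← h4, Finset.mul_sum]
    refine Finset.sum_congr rfl fun i _ => ?_
    rw [Finset.mul_sum]
    refine Finset.sum_congr rfl fun p hp => ?_
    have hp' : p ≤ n := Nat.lt_succ_iff.1 (Finset.mem_range.1 hp)
    have e : z ^ n = z ^ p * z ^ (n - p) := by
      rw [← pow_add, Nat.add_sub_cancel' hp']
    rw [e]
    ring
  rw [h3] at h2
  exact h2.unique hasSum_zero

end Pool.Agent.FBM
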