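import Pool.Agent.FBM.StmtC

/-!
FBM, block C: the finite identity for the trigonometric fields.
-/

open MeasureTheory Set Filter Topology
open scoped Real

namespace Pool.Agent.FBM

namespace CID_

lemma sumR (x y : ℂ) (k : ℕ) :
    (x - y) ^ 2 * ∑ a ∈ Finset.range (k + 1), (a : ℂ) * (x ^ a * y ^ (k - a)) =
      x * (k * x ^ (k + 1) - (k + 1) * x ^ k * y + y ^ (k + 1)) := by
  induction k with
  | zero => simp
  | succ k ih =>
    rw [Finset.sum_range_succ]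
    have h1 : ∑ a ∈ Finset.range (k + 1), (a : ℂ) * (x ^ a * y ^ (k + 1 - a)) =
        y * ∑ a ∈ Finset.range (k + 1), (a : ℂ) * (x ^ a * y ^ (k - a)) := by
      rw [Finset.mul_sum]
      refine Finset.sum_congr rfl fun a ha => ?_
      rw [Finset.mem_range] at ha
      have e : k + 1 - a = (k - a) + 1 := by omega
      rw [e, pow_succ]
      ring
    rw [h1, Nat.sub_self, pow_zero, mul_one]
    have h2 : (x - y) ^ 2 * (y * ∑ a ∈ Finset.range (k + 1), (a : ℂ) * (x ^ a * y ^ (k - a)) +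
        ((k + 1 : ℕ) : ℂ) * x ^ (k + 1)) =
        y * ((x - y) ^ 2 * ∑ a ∈ Finset.range (k + 1), (a : ℂ) * (x ^ a * y ^ (k - a))) +
        (x - y) ^ 2 * (((k + 1 : ℕ) : ℂ) * x ^ (k + 1)) := by ring
    rw [h2, ih]
    push_cast
    ring

lemma sumS (x y : ℂ) (k : ℕ) :
    (x - y) ^ 3 * ∑ a ∈ Finset.range (k + 1), (a : ℂ) * ((k - a : ℕ) : ℂ) *
      (x ^ a * y ^ (k - a)) =
      x * y * (k * (x ^ k + y ^ k) * (x - y) - (x ^ k - y ^ k) * (x + y)) := by
  induction k with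
  | zero => simp
  | succ k ih =>
    rw [Finset.sum_range_succ]
    have h1 : ∑ a ∈ Finset.range (k + 1), (a : ℂ) * ((k + 1 - a : ℕ) : ℂ) *
        (x ^ a * y ^ (k + 1 - a)) =
        y * ∑ a ∈ Finset.range (k + 1), (a : ℂ) * ((k - a : ℕ) : ℂ) * (x ^ a * y ^ (k - a)) +
        y * ∑ a ∈ Finset.range (k + 1), (a : ℂ) * (x ^ a * y ^ (k - a)) := by
      rw [Finset.mul_sum, Finset.mul_sum, ← Finset.sum_add_distrib]
      refine Finset.sum_congr rfl fun a ha => ?_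
      rw [Finset.mem_range] at ha
      have e : k + 1 - a = (k - a) + 1 := by omega
      rw [e, pow_succ]
      push_cast
      ring
    rw [h1, Nat.sub_self, Nat.cast_zero, mul_zero, zero_mul, add_zero]
    have h2 : ∀ S R : ℂ, (x - y) ^ 3 * (y * S + y * R) =
        y * ((x - y) ^ 3 * S) + y * (x - y) * ((x - y) ^ 2 * R) := by
      intro S R
      ring
    rw [h2, ih, sumR]
    push_cast
    ring

end CID_

theorem t_CID : Stmt_CID := by
  intro k u w hs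
  obtain ⟨x, hx⟩ : ∃ x : ℂ, x = Complex.exp (u * Complex.I) := ⟨_, rfl⟩
  obtain ⟨y, hy⟩ : ∃ y : ℂ, y = Complex.exp (w * Complex.I) := ⟨_, rfl⟩
  obtain ⟨p, hp⟩ : ∃ p : ℂ, p = Complex.exp ((((u - w) / 2 : ℝ) : ℂ) * Complex.I) := ⟨_, rfl⟩
  have hp0 : p ≠ 0 := by rw [hp]; exact Complex.exp_ne_zero _
  have hy0 : y ≠ 0 := by rw [hy]; exact Complex.exp_ne_zero _
  have hxy : x = y * p ^ 2 := by
    rw [hx, hy, hp, ← Complex.exp_nat_mul, ← Complex.exp_add]
    congr 1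
    push_cast
    ring
  have hsin : ((Real.sin ((u - w) / 2) : ℝ) : ℂ) = (p⁻¹ - p) * Complex.I / 2 := by
    rw [Complex.ofReal_sin, Complex.sin, hp, ← Complex.exp_neg, neg_mul]
  have hcos : ((Real.cos ((u - w) / 2) : ℝ) : ℂ) = (p + p⁻¹) / 2 := by
    rw [Complex.ofReal_cos, Complex.cos, hp, ← Complex.exp_neg, neg_mul]
  have hs' : ((Real.sin ((u - w) / 2) : ℝ) : ℂ) ≠ 0 := Complex.ofReal_ne_zero.2 hs
  have hp2 : p ^ 2 - 1 ≠ 0 := by
    intro h
    apply hs'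
    rw [hsin]
    have : p⁻¹ = p := inv_eq_of_mul_eq_one_left (by linear_combination h)
    rw [this]
    simp
  have hd : x - y ≠ 0 := by
    rw [hxy]
    have : y * p ^ 2 - y = y * (p ^ 2 - 1) := by ring
    rw [this]
    exact mul_ne_zero hy0 hp2
  have hI : Complex.I ^ 2 = -1 := Complex.I_sq
  have hJ : (J u w : ℂ) * (x - y) ^ 2 = -(x * y) := by
    have e1 : (J u w : ℂ) = 1 / (4 * ((Real.sin ((u - w) / 2) : ℝ) : ℂ) ^ 2) := by
      unfold J
      push_cast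
      rfl
    rw [e1, one_div, inv_mul_eq_iff_eq_mul₀ (by
      exact mul_ne_zero (by norm_num) (pow_ne_zero _ hs')), hsin, hxy]
    field_simp
    linear_combination (4 * (1 - p ^ 2) ^ 2) * hI
  have hc : ((Real.cos ((u - w) / 2) / Real.sin ((u - w) / 2) : ℝ) : ℂ) * (x - y) =
      Complex.I * (x + y) := by
    rw [Complex.ofReal_div, div_mul_eq_mul_div, div_eq_iff hs', hsin, hcos, hxy]
    field_simp
    linear_combination (p ^ 4 - 1) * hI
  have he : ∀ n : ℕ, Complex.exp (n * u * Complex.I) = x ^ n := by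
    intro n
    rw [hx, ← Complex.exp_nat_mul, mul_assoc]
  have he' : ∀ n : ℕ, Complex.exp (n * w * Complex.I) = y ^ n := by
    intro n
    rw [hy, ← Complex.exp_nat_mul, mul_assoc]
  simp only [he, he']
  have hS := CID_.sumS x y k
  refine mul_right_cancel₀ (pow_ne_zero 3 hd) ?_
  obtain ⟨S, hSd⟩ : ∃ S : ℂ, S = ∑ a ∈ Finset.range (k + 1), (a : ℂ) * ((k - a : ℕ) : ℂ) *
      (x ^ a * y ^ (k - a)) := ⟨_, rfl⟩
  obtain ⟨c, hcd⟩ : ∃ c : ℂ, c = ((Real.cos ((u - w) / 2) / Real.sin ((u - w) / 2) : ℝ) : ℂ) :=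
    ⟨_, rfl⟩
  rw [← hSd] at hS ⊢
  rw [← hcd] at hc ⊢
  have e2 : (J u w : ℂ) * (Complex.I * k * (x ^ k + y ^ k) - (x ^ k - y ^ k) * c) *
      (x - y) ^ 3 = ((J u w : ℂ) * (x - y) ^ 2) * (Complex.I * k * (x ^ k + y ^ k) * (x - y) -
        (x ^ k - y ^ k) * (c * (x - y))) := by ring
  rw [e2, hJ, hc]
  linear_combination Complex.I * hS

end Pool.Agent.FBM
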