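import Pool.Agent.FBM.StmtC

/-!
# FBM, module CIV: inverse diffeomorphisms
-/

open MeasureTheory Set Filter Topology
open scoped Real

namespace Pool.Agent.FBM

namespace CIV_

/-- a continuous periodic function is bounded -/
lemma bdd {f : ℝ → ℝ} (hf : Continuous f) (hp : Function.Periodic f (2 * π)) :
    ∃ L, 0 ≤ L ∧ ∀ t, |f t| ≤ L := by
  have hc : IsCompact (f '' uIcc 0 (0 + 2 * π)) := isCompact_uIcc.image hf
  have hr : range f = f '' uIcc 0 (0 + 2 * π) :=
    (hp.image_uIcc Real.two_pi_pos.ne' 0).symm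
  obtain ⟨L, hL⟩ := hc.isBounded.exists_norm_le
  refine ⟨max L 0, le_max_right _ _, fun t => ?_⟩
  have := hL (f t) (by rw [← hr]; exact mem_range_self t)
  rw [Real.norm_eq_abs] at this
  exact this.trans (le_max_left _ _)

end CIV_

theorem t_CIV : Stmt_CIV := by
  intro v dv hv
  obtain ⟨L, hL0, hL⟩ := CIV_.bdd hv.cont hv.per'
  have hvc : Continuous v := by
    rw [continuous_iff_continuousAt]
    exact fun t => (hv.der t).continuousAt
  obtain ⟨M, hM0, hM⟩ := CIV_.bdd hvc hv.per
  refine ⟨1 / (2 * (L + 1)), by positivity, fun s hs => ?_⟩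
  have hbound : ∀ t, |s * dv t| ≤ 1 / 2 := by
    intro t
    rw [abs_mul]
    calc |s| * |dv t| ≤ 1 / (2 * (L + 1)) * (L + 1) :=
          mul_le_mul hs ((hL t).trans (by linarith)) (abs_nonneg _) (by positivity)
      _ = 1 / 2 := by field_simp
  have hpos : ∀ t, 0 < 1 + s * dv t := by
    intro t
    have := (abs_le.1 (hbound t)).1
    linarith
  refine ⟨?_, hpos⟩
  set ψ : ℝ → ℝ := fun t => t + s * v t with hψ
  have hder : ∀ t, HasDerivAt ψ (1 + s * dv t) t := fun t =>
    (hasDerivAt_id t).add ((hv.der t).const_mul s)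
  have hmono : StrictMono ψ := strictMono_of_deriv_pos fun t => by
    rw [(hder t).deriv]
    exact hpos t
  have hcont : Continuous ψ := continuous_id.add (continuous_const.mul hvc)
  have hsv : ∀ t, |s * v t| ≤ |s| * M := fun t => by
    rw [abs_mul]
    exact mul_le_mul_of_nonneg_left (hM t) (abs_nonneg _)
  have htop : Tendsto ψ atTop atTop := by
    refine tendsto_atTop_mono (fun t => ?_) (tendsto_atTop_add_const_right atTop (-(|s| * M))
      tendsto_id)
    have := (abs_le.1 (hsv t)).1
    simp only [hψ, id]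
    linarith
  have hbot : Tendsto ψ atBot atBot := by
    refine tendsto_atBot_mono (fun t => ?_) (tendsto_atBot_add_const_right atBot (|s| * M)
      tendsto_id)
    have := (abs_le.1 (hsv t)).2
    simp only [hψ, id]
    linarith
  have hsurj : Function.Surjective ψ := hcont.surjective htop hbot
  set e : ℝ ≃o ℝ := hmono.orderIsoOfSurjective ψ hsurj with he
  have hl : ∀ t, e.symm (ψ t) = t := fun t => e.symm_apply_apply t
  have hr : ∀ t, ψ (e.symm t) = t := fun t => e.apply_symm_apply t
  refine ⟨e.symm, hl, hr, e.symm.strictMono, e.symm.continuous, fun t => ?_⟩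
  apply hmono.injective
  have h1 := hr t
  simp only [hψ] at h1
  rw [hr]
  simp only [hψ]
  rw [hv.per]
  linarith

end Pool.Agent.FBM
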