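import Pool.Agent.FBM.StmtC

open MeasureTheory Set Filter Topology
open scoped Real

namespace Pool.Agent.FBM

namespace CKB_

/-- the numerical core of the estimate -/
theorem core {M L s c b p q : ℝ} (hM : 0 ≤ M) (hL : 0 ≤ L) (hs1 : |s| ≤ 1)
    (hsM : |s| * M ≤ 1 / 8) (hcb : |c * b| ≤ M) (hb : |b| ≤ M) (hp : |p| ≤ L) (hq : |q| ≤ L) :
    |((Real.cos (s * b) + c * Real.sin (s * b)) ^ 2)⁻¹ * ((1 + s * p) * (1 + s * q))
      - (1 + s * (p + q - 2 * (c * b)))| ≤ (4 * M * L + 2 * L ^ 2 + 30 * M ^ 2 * (1 + 2 * L)) * s ^ 2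
      := by
  set x := s * b with hx
  set y := s * (c * b) with hy
  have hs0 : 0 ≤ |s| := abs_nonneg s
  have hxa : |x| ≤ |s| * M := by
    rw [hx, abs_mul]; exact mul_le_mul_of_nonneg_left hb hs0
  have hya : |y| ≤ |s| * M := by
    rw [hy, abs_mul]; exact mul_le_mul_of_nonneg_left hcb hs0
  have hx8 : |x| ≤ 1 / 8 := hxa.trans hsM
  have hy8 : |y| ≤ 1 / 8 := hya.trans hsM
  have hcx : c * x = y := by rw [hx, hy]; ring
  have hx2 : x ^ 2 ≤ s ^ 2 * M ^ 2 := by
    rw [← sq_abs x, ← sq_abs s, ← mul_pow]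
    exact pow_le_pow_left₀ (abs_nonneg x) hxa 2
  -- cosine
  have hc1 : |Real.cos x - 1| ≤ x ^ 2 / 2 := by
    rw [abs_sub_comm, abs_of_nonneg (by linarith [Real.cos_le_one x])]
    linarith [Real.one_sub_sq_div_two_le_cos (x := x)]
  -- sine
  have hsn : |Real.sin x - x| ≤ |x| ^ 3 := by
    have h1 := Real.sin_bound (x := x) (by linarith)
    have h2 : Real.sin x - x = (Real.sin x - (x - x ^ 3 / 6)) + (- (x ^ 3 / 6)) := by ring
    rw [h2]
    refine (abs_add_le _ _).trans ?_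
    have h3 : |-(x ^ 3 / 6)| = |x| ^ 3 / 6 := by
      rw [abs_neg, abs_div, abs_pow]; norm_num
    rw [h3]
    have h4 : |x| ^ 5 ≤ |x| ^ 3 := 
      pow_le_pow_of_le_one (abs_nonneg x) (by linarith) (by norm_num)
    have h6 : 0 ≤ |x| ^ 3 := by positivity
    linarith
  set u := Real.cos x - 1 + c * Real.sin x with hu
  have huy : |u - y| ≤ x ^ 2 := by
    have h1 : u - y = (Real.cos x - 1) + c * (Real.sin x - x) := by
      linear_combination hu + hcx
    rw [h1]
    refine (abs_add_le _ _).trans ?_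
    have h2 : |c * (Real.sin x - x)| ≤ |y| * x ^ 2 := by
      rw [abs_mul]
      calc |c| * |Real.sin x - x| ≤ |c| * |x| ^ 3 := mul_le_mul_of_nonneg_left hsn (abs_nonneg c)
        _ = |c * x| * |x| ^ 2 := by rw [abs_mul c x]; generalize |c| = e; generalize |x| = f; ring
        _ = |y| * x ^ 2 := by rw [hcx, sq_abs]
    have h3 : |y| * x ^ 2 ≤ 1 / 8 * x ^ 2 := mul_le_mul_of_nonneg_right hy8 (sq_nonneg x)
    have h4 : 0 ≤ x ^ 2 := sq_nonneg x
    linarith
  have hsM2 : s ^ 2 * M ^ 2 ≤ |s| * M * (1 / 8) := by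
    have h1 : s ^ 2 * M ^ 2 = (|s| * M) * (|s| * M) := by
      rw [← sq_abs s]; ring
    rw [h1]
    exact mul_le_mul_of_nonneg_left hsM (by positivity)
  have hua : |u| ≤ 2 * (|s| * M) := by
    have h1 : u = y + (u - y) := by ring
    rw [h1]
    refine (abs_add_le _ _).trans ?_
    have : 0 ≤ |s| * M := by positivity
    linarith
  have hu4 : |u| ≤ 1 / 4 := by linarith
  have hu2 : u ^ 2 ≤ 4 * (s ^ 2 * M ^ 2) := by
    rw [← sq_abs u]
    have h1 : 4 * (s ^ 2 * M ^ 2) = (2 * (|s| * M)) ^ 2 := by rw [← sq_abs s]; ring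
    rw [h1]
    exact pow_le_pow_left₀ (abs_nonneg u) hua 2
  have hrho : Real.cos x + c * Real.sin x = 1 + u := by rw [hu]; ring
  rw [hrho]
  have hul := abs_le.mp hu4
  have h1u : 3 / 4 ≤ 1 + u := by linarith [hul.1]
  have h1u2 : 9 / 16 ≤ (1 + u) ^ 2 := by nlinarith
  have hpos : 0 < (1 + u) ^ 2 := by linarith
  set P := ((1 + u) ^ 2)⁻¹ with hP
  have hP0 : 0 ≤ P := by rw [hP]; positivity
  have hP2 : P ≤ 2 := by
    rw [hP]
    have : ((1 + u) ^ 2)⁻¹ ≤ (9 / 16 : ℝ)⁻¹ := inv_anti₀ (by norm_num) h1u2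
    exact this.trans (by norm_num)
  have hPu : P - (1 - 2 * u) = (3 * u ^ 2 + 2 * u ^ 3) * P := by
    rw [hP]; field_simp; ring
  have hE1 : |P - (1 - 2 * u)| ≤ 7 * u ^ 2 := by
    rw [hPu, abs_mul, abs_of_nonneg hP0]
    have h3 : |3 * u ^ 2 + 2 * u ^ 3| ≤ (7 / 2) * u ^ 2 := by
      have : 3 * u ^ 2 + 2 * u ^ 3 = (3 + 2 * u) * u ^ 2 := by ring
      rw [this, abs_mul, abs_of_nonneg (sq_nonneg u)]
      refine mul_le_mul_of_nonneg_right ?_ (sq_nonneg u)
      rw [abs_le]; constructor <;> linarith [hul.1, hul.2]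
    have h4 : 0 ≤ (7 / 2) * u ^ 2 := by positivity
    calc |3 * u ^ 2 + 2 * u ^ 3| * P ≤ (7 / 2) * u ^ 2 * P := mul_le_mul_of_nonneg_right h3 hP0
      _ ≤ (7 / 2) * u ^ 2 * 2 := mul_le_mul_of_nonneg_left hP2 h4
      _ = 7 * u ^ 2 := by ring
  set E := P - (1 - 2 * y) with hE
  have hEa : |E| ≤ 30 * (s ^ 2 * M ^ 2) := by
    have h1 : E = (P - (1 - 2 * u)) + (-2) * (u - y) := by rw [hE]; ring
    rw [h1]
    refine (abs_add_le _ _).trans ?_
    have h2 : |(-2) * (u - y)| = 2 * |u - y| := by rw [abs_mul]; norm_num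
    rw [h2]
    linarith
  have hkey : P * ((1 + s * p) * (1 + s * q)) - (1 + s * (p + q - 2 * (c * b)))
      = -(2 * y * (s * (p + q))) + s ^ 2 * (p * q) * P + E * (1 + s * (p + q)) := by
    have h1 : P = E + (1 - 2 * y) := by rw [hE]; ring
    have h2 : s * (p + q - 2 * (c * b)) = s * (p + q) - 2 * y := by rw [hy]; ring
    rw [h2]
    have h3 : P * ((1 + s * p) * (1 + s * q)) = P * (1 + s * (p + q)) + s ^ 2 * (p * q) * P := by
      ring
    rw [h3]
    have h4 : P * (1 + s * (p + q)) = (E + (1 - 2 * y)) * (1 + s * (p + q)) := by rw [← h1]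
    rw [h4]; ring
  rw [hkey]
  have hpq : |p + q| ≤ 2 * L := (abs_add_le p q).trans (by linarith)
  have hspq : |s * (p + q)| ≤ |s| * (2 * L) := by
    rw [abs_mul]; exact mul_le_mul_of_nonneg_left hpq hs0
  have hss : |s| * |s| = s ^ 2 := by rw [← sq, sq_abs]
  have t1 : |-(2 * y * (s * (p + q)))| ≤ 4 * M * L * s ^ 2 := by
    rw [abs_neg, abs_mul, abs_mul]
    have h2 : |(2 : ℝ)| = 2 := by norm_num
    rw [h2]
    calc 2 * |y| * |s * (p + q)| ≤ 2 * (|s| * M) * (|s| * (2 * L)) := by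
          apply mul_le_mul _ hspq (abs_nonneg _) (by positivity)
          exact mul_le_mul_of_nonneg_left hya (by norm_num)
      _ = 4 * M * L * (|s| * |s|) := by ring
      _ = 4 * M * L * s ^ 2 := by rw [hss]
  have t2 : |s ^ 2 * (p * q) * P| ≤ 2 * L ^ 2 * s ^ 2 := by
    rw [abs_mul, abs_mul, abs_mul, abs_of_nonneg (sq_nonneg s), abs_of_nonneg hP0]
    calc s ^ 2 * (|p| * |q|) * P ≤ s ^ 2 * (L * L) * 2 := by
          apply mul_le_mul _ hP2 hP0 (by positivity)
          apply mul_le_mul_of_nonneg_left _ (sq_nonneg s)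
          exact mul_le_mul hp hq (abs_nonneg q) hL
      _ = 2 * L ^ 2 * s ^ 2 := by ring
  have t3 : |E * (1 + s * (p + q))| ≤ 30 * M ^ 2 * (1 + 2 * L) * s ^ 2 := by
    rw [abs_mul]
    have h1 : |1 + s * (p + q)| ≤ 1 + 2 * L := by
      refine (abs_add_le _ _).trans ?_
      have h2 : |(1 : ℝ)| = 1 := abs_one
      have h3 : |s| * (2 * L) ≤ 1 * (2 * L) := mul_le_mul_of_nonneg_right hs1 (by positivity)
      rw [h2]; linarith
    calc |E| * |1 + s * (p + q)| ≤ 30 * (s ^ 2 * M ^ 2) * (1 + 2 * L) :=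
          mul_le_mul hEa h1 (abs_nonneg _) (by positivity)
      _ = 30 * M ^ 2 * (1 + 2 * L) * s ^ 2 := by ring
  calc |-(2 * y * (s * (p + q))) + s ^ 2 * (p * q) * P + E * (1 + s * (p + q))|
      ≤ |-(2 * y * (s * (p + q)))| + |s ^ 2 * (p * q) * P| + |E * (1 + s * (p + q))| :=
        abs_add_three _ _ _
    _ ≤ 4 * M * L * s ^ 2 + 2 * L ^ 2 * s ^ 2 + 30 * M ^ 2 * (1 + 2 * L) * s ^ 2 := by linarith
    _ = _ := by ring

/-- a periodic function with bounded derivative is Lipschitz for the chordal distance -/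
theorem lip {v dv : ℝ → ℝ} (h : VF0 v dv) {L : ℝ} (hL : ∀ t, |dv t| ≤ L) (a b : ℝ) :
    |v a - v b| ≤ L * π * |Real.sin ((a - b) / 2)| := by
  have hL0 : 0 ≤ L := (abs_nonneg _).trans (hL 0)
  have hlip : ∀ x y, |v x - v y| ≤ L * |x - y| := by
    intro x y
    have := Convex.norm_image_sub_le_of_norm_hasDerivWithin_le (f := v) (f' := dv) (C := L)
      (s := univ) (x := y) (y := x) (fun t _ => (h.der t).hasDerivWithinAt)
      (fun t _ => by rw [Real.norm_eq_abs]; exact hL t) convex_univ (mem_univ _) (mem_univ _)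
    simpa [Real.norm_eq_abs] using this
  -- choose the integer
  set n : ℤ := round ((a - b) / (2 * π)) with hn
  have hpi := Real.pi_pos
  have h1 : |(a - b) / (2 * π) - n| ≤ 1 / 2 := abs_sub_round _
  set d := a - b - n * (2 * π) with hd
  have hd1 : |d| ≤ π := by
    have h2 : d = ((a - b) / (2 * π) - n) * (2 * π) := by rw [hd]; field_simp
    rw [h2, abs_mul, abs_of_pos (show (0 : ℝ) < 2 * π by positivity)]
    calc |(a - b) / (2 * π) - n| * (2 * π) ≤ 1 / 2 * (2 * π) :=
          mul_le_mul_of_nonneg_right h1 (by positivity)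
      _ = π := by ring
  have hv : v a - v b = v (a - n * (2 * π)) - v b := by
    rw [h.per.sub_int_mul_eq]
  have hsin : |Real.sin (d / 2)| = |Real.sin ((a - b) / 2)| := by
    have h3 : d / 2 = (a - b) / 2 - n * π := by rw [hd]; ring
    rw [h3, Real.sin_sub_int_mul_pi, abs_mul]
    have : |((-1 : ℝ)) ^ n| = 1 := by
      rw [abs_zpow, abs_neg, abs_one, one_zpow]
    rw [this, one_mul]
  have hjor : 2 / π * |d / 2| ≤ |Real.sin (d / 2)| := by
    apply Real.mul_abs_le_abs_sin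
    rw [abs_div, abs_of_pos (show (0 : ℝ) < 2 by norm_num)]
    linarith
  have hd2 : |d| ≤ π * |Real.sin ((a - b) / 2)| := by
    rw [← hsin]
    have h4 : 2 / π * |d / 2| = |d| / π := by
      rw [abs_div, abs_of_pos (show (0 : ℝ) < 2 by norm_num)]; field_simp
    rw [h4, div_le_iff₀ hpi] at hjor
    linarith
  rw [hv]
  refine (hlip _ _).trans ?_
  have h5 : a - n * (2 * π) - b = d := by rw [hd]; ring
  rw [h5]
  calc L * |d| ≤ L * (π * |Real.sin ((a - b) / 2)|) := mul_le_mul_of_nonneg_left hd2 hL0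
    _ = _ := by ring

end CKB_

open CKB_ in
theorem t_CKB : Stmt_CKB := by
  intro v dv h
  obtain ⟨L, hL⟩ : ∃ L : ℝ, ∀ t, |dv t| ≤ L := by
    have hc : IsCompact (Icc (0 : ℝ) (2 * π)) := isCompact_Icc
    obtain ⟨L, hL⟩ := hc.exists_bound_of_continuousOn h.cont.continuousOn
    refine ⟨L, fun t => ?_⟩
    obtain ⟨y, hy, hyt⟩ := h.per'.exists_mem_Ico₀ (show (0 : ℝ) < 2 * π by positivity) t
    rw [hyt]
    exact hL y ⟨hy.1, hy.2.le⟩
  have hL0 : 0 ≤ L := (abs_nonneg _).trans (hL 0)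
  have hpi := Real.pi_pos
  set M := L * π with hM
  have hM0 : 0 ≤ M := by positivity
  have hcot : ∀ a b : ℝ, |(v a - v b) * (Real.cos ((a - b) / 2) / Real.sin ((a - b) / 2))| ≤ M := by
    intro a b
    by_cases h0 : Real.sin ((a - b) / 2) = 0
    · rw [h0]; simpa using hM0
    · rw [abs_mul, abs_div]
      have h1 := lip h hL a b
      have h2 : 0 < |Real.sin ((a - b) / 2)| := abs_pos.mpr h0
      have h3 := Real.abs_cos_le_one ((a - b) / 2)
      rw [← mul_div_assoc, div_le_iff₀ h2]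
      calc |v a - v b| * |Real.cos ((a - b) / 2)| ≤ |v a - v b| * 1 :=
            mul_le_mul_of_nonneg_left h3 (abs_nonneg _)
        _ ≤ _ := by rw [mul_one]; exact h1
  have hvv : ∀ a b : ℝ, |v a - v b| ≤ M := by
    intro a b
    refine (lip h hL a b).trans ?_
    have := Real.abs_sin_le_one ((a - b) / 2)
    calc L * π * |Real.sin ((a - b) / 2)| ≤ L * π * 1 :=
          mul_le_mul_of_nonneg_left this (by positivity)
      _ = M := by rw [mul_one]
  set C0 := 4 * M * L + 2 * L ^ 2 + 30 * M ^ 2 * (1 + 2 * L) with hC0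
  have hC00 : 0 ≤ C0 := by positivity
  refine ⟨C0 + (2 * L + M), 1 / (8 * (M + 1)), by positivity, by positivity, ?_, ?_⟩
  · intro a b
    unfold kv
    refine (abs_sub _ _).trans ?_
    have h1 := abs_add_le (dv a) (dv b)
    have h2 := hL a
    have h3 := hL b
    have h4 := hcot a b
    linarith
  · intro s hs a b hsin
    have hs1 : |s| ≤ 1 := by
      refine hs.trans ?_
      rw [div_le_one (by positivity)]
      linarith
    have hsM : |s| * M ≤ 1 / 8 := by
      calc |s| * M ≤ 1 / (8 * (M + 1)) * M := mul_le_mul_of_nonneg_right hs hM0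
        _ ≤ 1 / (8 * (M + 1)) * (M + 1) :=
            mul_le_mul_of_nonneg_left (by linarith) (by positivity)
        _ = 1 / 8 := by field_simp
    set α := (a - b) / 2 with hα
    set β := (v a - v b) / 2 with hβ
    have hβa : |β| ≤ M := by
      rw [hβ, abs_div, abs_of_pos (show (0 : ℝ) < 2 by norm_num)]
      have := hvv a b
      linarith [abs_nonneg (v a - v b)]
    set c := Real.cos α / Real.sin α with hc
    have h2cb : (v a - v b) * c = 2 * (c * β) := by rw [hβ]; ring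
    have hcβ : |c * β| ≤ M := by
      have h1 := hcot a b
      rw [← hα, ← hc, h2cb, abs_mul, abs_of_pos (show (0 : ℝ) < 2 by norm_num)] at h1
      linarith [abs_nonneg (c * β)]
    have hcore := core (M := M) (L := L) (s := s) (c := c) (b := β) (p := dv a) (q := dv b)
      hM0 hL0 hs1 hsM hcβ hβa (hL a) (hL b)
    have hkv : kv v dv a b = dv a + dv b - 2 * (c * β) := by
      unfold kv
      rw [← hα, ← hc, h2cb]
    have hJ : J (a + s * v a) (b + s * v b)
        = J a b * ((Real.cos (s * β) + c * Real.sin (s * β)) ^ 2)⁻¹ := by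
      unfold J
      have h1 : (a + s * v a - (b + s * v b)) / 2 = α + s * β := by rw [hα, hβ]; ring
      rw [h1, ← hα]
      have h2 : Real.sin (α + s * β)
          = Real.sin α * (Real.cos (s * β) + c * Real.sin (s * β)) := by
        rw [Real.sin_add, hc]; field_simp
      rw [h2, mul_pow, ← mul_assoc, one_div, mul_inv, one_div]
    have hJ0 : 0 ≤ J a b := by unfold J; positivity
    rw [hJ, hkv]
    have h5 : J a b * ((Real.cos (s * β) + c * Real.sin (s * β)) ^ 2)⁻¹
        * ((1 + s * dv a) * (1 + s * dv b)) - J a b * (1 + s * (dv a + dv b - 2 * (c * β)))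
        = J a b * (((Real.cos (s * β) + c * Real.sin (s * β)) ^ 2)⁻¹
        * ((1 + s * dv a) * (1 + s * dv b)) - (1 + s * (dv a + dv b - 2 * (c * β)))) := by ring
    rw [h5, abs_mul, abs_of_nonneg hJ0]
    calc J a b * |((Real.cos (s * β) + c * Real.sin (s * β)) ^ 2)⁻¹
        * ((1 + s * dv a) * (1 + s * dv b)) - (1 + s * (dv a + dv b - 2 * (c * β)))|
        ≤ J a b * (C0 * s ^ 2) := mul_le_mul_of_nonneg_left hcore hJ0
      _ ≤ J a b * ((C0 + (2 * L + M)) * s ^ 2) := by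
          apply mul_le_mul_of_nonneg_left _ hJ0
          apply mul_le_mul_of_nonneg_right _ (sq_nonneg s)
          have : 0 ≤ 2 * L + M := by positivity
          linarith
      _ = _ := by ring

end Pool.Agent.FBM
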