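import Pool.Agent.FBM.StmtC1

/-!
# FBM, CLA: limits of maps on finer and finer configurations (helper95)
-/

open MeasureTheory Set Filter Topology
open scoped Real

namespace Pool.Agent.FBM

namespace CLA

/-- From almost everywhere on a set to its periodic extension. -/
theorem ae_pe {S : Set ℝ} {P : ℝ → Prop} (h : ∀ᵐ t, t ∈ S → P t)
    (hP : ∀ (t : ℝ) (n : ℤ), P (t + n * (2 * π)) → P t) : ∀ᵐ t, t ∈ pe S → P t := by
  have h1 : ∀ᵐ t, ∀ n : ℤ, t + n * (2 * π) ∈ S → P (t + n * (2 * π)) := by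
    rw [ae_all_iff]
    intro n
    exact (measurePreserving_add_right volume ((n : ℝ) * (2 * π))).quasiMeasurePreserving.ae h
  filter_upwards [h1] with t ht hS
  obtain ⟨n, hn⟩ := hS
  exact hP t n (ht n hn)

theorem per_int {f : ℝ → ℝ} (hf : Function.Periodic f (2 * π)) (t : ℝ) (n : ℤ) :
    f (t + n * (2 * π)) = f t := by
  have h := hf.int_mul n t
  exact h

/-- The passage to the limit in Poincaré's inequality. -/
theorem stepA (hCPO : Stmt_CPO) {f : ℕ → ℝ → ℝ} {g : ℝ → ℝ} {a b K : ℝ} {δ : ℕ → ℝ}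
    (hf : ∀ k, FE (f k)) (hg : FE g) (hb : ∀ k t, |f k t| ≤ 1) (hK : ∀ k, en (f k) (f k) ≤ K)
    (ha : -(2 * π / 3) ≤ a) (hbb : b ≤ 2 * π / 3) (hδ : ∀ k, 0 < δ k)
    (hδ0 : Tendsto δ atTop (𝓝 0))
    (hc : ∀ k, ∀ s ∈ Ioo a b, ∃ c, (∀ t, c < t → t < c + δ k / 2 → |t - s| ≤ δ k) ∧
      ∀ᵐ t, c < t → t < c + δ k / 2 → f k t = 0)
    (hT : ∀ᵐ t ∂cm, Tendsto (fun k => f k t) atTop (𝓝 (g t))) : ∀ᵐ t, t ∈ Ioo a b → g t = 0 := by
  have hpi := Real.pi_pos
  have hsub : Ioo a b ⊆ Ioc (-π) π := fun t ht => ⟨by linarith [ht.1], by linarith [ht.2]⟩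
  have hle : volume.restrict (Ioo a b) ≤ cm := Measure.restrict_mono hsub le_rfl
  have hT' : ∀ᵐ t ∂(volume.restrict (Ioo a b)), Tendsto (fun k => f k t) atTop (𝓝 (g t)) :=
    hT.filter_mono (ae_mono hle)
  have h1 : Tendsto (fun k => ∫ t in Ioo a b, f k t ^ 2) atTop (𝓝 (∫ t in Ioo a b, g t ^ 2)) := by
    refine tendsto_integral_of_dominated_convergence (fun _ => (1 : ℝ))
      (fun k => ((hf k).meas.pow_const 2).aestronglyMeasurable) (integrable_const _)
      (fun k => Eventually.of_forall fun t => ?_) (hT'.mono fun t ht => ht.pow 2)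
    rw [Real.norm_eq_abs, abs_pow]
    have := hb k t
    nlinarith [abs_nonneg (f k t)]
  have h2 : ∀ᶠ k in atTop, ∫ t in Ioo a b, f k t ^ 2 ≤ 4 * π * δ k * K := by
    filter_upwards [hδ0.eventually (ge_mem_nhds one_pos)] with k hk
    refine (hCPO (f k) a b (δ k) (hf k) (hδ k) hk ha hbb (hc k)).trans ?_
    refine mul_le_mul_of_nonneg_left (hK k) ?_
    have := hδ k
    positivity
  have h3 : Tendsto (fun k => 4 * π * δ k * K) atTop (𝓝 0) := by
    simpa using (hδ0.const_mul (4 * π)).mul_const K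
  have h4 : ∫ t in Ioo a b, g t ^ 2 = 0 :=
    le_antisymm (le_of_tendsto_of_tendsto h1 h3 h2) (integral_nonneg fun t => sq_nonneg _)
  obtain ⟨C, hC⟩ := hg.bdd
  have hint : Integrable (fun t => g t ^ 2) (volume.restrict (Ioo a b)) := by
    refine Integrable.of_bound (hg.meas.pow_const 2).aestronglyMeasurable (C ^ 2)
      (Eventually.of_forall fun t => ?_)
    rw [Real.norm_eq_abs, abs_pow]
    exact pow_le_pow_left₀ (abs_nonneg _) (hC t) 2
  have h5 := (integral_eq_zero_iff_of_nonneg (fun t => sq_nonneg (g t)) hint).1 h4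
  have h6 : ∀ᵐ t ∂(volume.restrict (Ioo a b)), g t = 0 := by
    filter_upwards [h5] with t ht
    exact pow_eq_zero_iff (two_ne_zero) |>.1 ht
  exact (ae_restrict_iff' measurableSet_Ioo).1 h6

/-- The norm of a triple. -/
noncomputable def nm (X : Fin 3 → ℝ → ℝ) (t : ℝ) : ℝ :=
  Real.sqrt (Real.sqrt (X 0 t ^ 2 + X 1 t ^ 2) ^ 2 + X 2 t ^ 2)

theorem nm_sq (X : Fin 3 → ℝ → ℝ) (t : ℝ) : nm X t ^ 2 = ∑ i, X i t ^ 2 := by
  unfold nm
  rw [Real.sq_sqrt (by positivity), Real.sq_sqrt (by positivity), Fin.sum_univ_three]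

theorem nm_nonneg (X : Fin 3 → ℝ → ℝ) (t : ℝ) : 0 ≤ nm X t := Real.sqrt_nonneg _

theorem nm_fe (hS : Stmt_A_sqrt) {X : Fin 3 → ℝ → ℝ} (hX : ∀ i, FE (X i)) :
    FE (nm X) ∧ en (nm X) (nm X) ≤ ven X X := by
  obtain ⟨h1, h2⟩ := hS (X 0) (X 1) (hX 0) (hX 1)
  obtain ⟨h3, h4⟩ := hS _ (X 2) h1 (hX 2)
  refine ⟨h3, ?_⟩
  rw [ven_eq]
  refine h4.trans ?_
  linarith

theorem nm_of_one {X : Fin 3 → ℝ → ℝ} {t : ℝ} (h : ∑ i, X i t ^ 2 = 1) : nm X t = 1 := by
  have h1 := nm_sq X t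
  rw [h] at h1
  have h2 := nm_nonneg X t
  nlinarith

theorem one_of_nm {X : Fin 3 → ℝ → ℝ} {t : ℝ} (h : nm X t = 1) : ∑ i, X i t ^ 2 = 1 := by
  rw [← nm_sq, h, one_pow]

theorem nm_tendsto {X : ℕ → Fin 3 → ℝ → ℝ} {Y : Fin 3 → ℝ → ℝ} {t : ℝ}
    (h : ∀ i, Tendsto (fun k => X k i t) atTop (𝓝 (Y i t))) :
    Tendsto (fun k => nm (X k) t) atTop (𝓝 (nm Y t)) := by
  unfold nm
  exact ((((h 0).pow 2).add ((h 1).pow 2)).sqrt.pow 2 |>.add ((h 2).pow 2)).sqrt

end CLA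

open CLA in
theorem t_CLA : Stmt_CPO → Stmt_A_sqrt → Stmt_CLA := by
  intro hCPO hS X Y m p δ K hpar hF hδ0 hO hK hY hT
  have hpi := Real.pi_pos
  have hfe : ∀ k i, FE (X k i) := fun k i => (hO k).fe i
  have hab : ∀ k i t, |X k i t| ≤ 1 := fun k i t => (hO k).abs_le i t
  have henK : ∀ k i, en (X k i) (X k i) ≤ K := by
    intro k i
    refine le_trans ?_ (hK k)
    rw [ven_eq]
    have h0 := en_self_nonneg (X k 0)
    have h1 := en_self_nonneg (X k 1)
    have h2 := en_self_nonneg (X k 2)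
    fin_cases i
    · change en (X k 0) (X k 0) ≤ _
      linarith
    · change en (X k 1) (X k 1) ≤ _
      linarith
    · change en (X k 2) (X k 2) ≤ _
      linarith
  have hz0 : ∀ᵐ t, t ∈ Ioo 0 (2 * π / 3) → Y 0 t = 0 := by
    refine stepA hCPO (f := fun k => X k 0) (fun k => hfe k 0) (hY 0) (fun k t => hab k 0 t)
      (fun k => henK k 0) (by linarith) le_rfl (fun k => (hF k).1) hδ0 (fun k s hs => ?_) (hT 0)
    obtain ⟨c, hc⟩ := (hF k).2.1 s hs
    exact ⟨c, fun t h1 h2 => (hc t h1 h2).1, Eventually.of_forall fun t h1 h2 =>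
      (hO k).zeroE 0 t (hc t h1 h2).2⟩
  have hz1 : ∀ᵐ t, t ∈ Ioo (-(2 * π / 3)) 0 → Y 1 t = 0 := by
    refine stepA hCPO (f := fun k => X k 1) (fun k => hfe k 1) (hY 1) (fun k t => hab k 1 t)
      (fun k => henK k 1) le_rfl (by linarith) (fun k => (hF k).1) hδ0 (fun k s hs => ?_) (hT 1)
    obtain ⟨c, hc⟩ := (hF k).2.2.1 s hs
    exact ⟨c, fun t h1 h2 => (hc t h1 h2).1, Eventually.of_forall fun t h1 h2 =>
      (hO k).zeroE 1 t (hc t h1 h2).2⟩
  have hone : ∀ᵐ t, t ∈ Ioo (-(2 * π / 3)) (2 * π / 3) → 1 - nm Y t = 0 := by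
    refine stepA hCPO (K := K) (f := fun k t => 1 - nm (X k) t) (g := fun t => 1 - nm Y t)
      (fun k => (FE.const 1).sub (nm_fe hS (hfe k)).1) ((FE.const 1).sub (nm_fe hS hY).1)
      (fun k t => ?_) (fun k => ?_) le_rfl le_rfl (fun k => (hF k).1) hδ0 (fun k s hs => ?_) ?_
    · have h1 := nm_nonneg (X k) t
      have h2 := nm_sq (X k) t
      have h3 := (hO k).le_one t
      rw [abs_le]
      constructor
      · nlinarith
      · linarith
    · refine le_trans (en_mono (nm_fe hS (hfe k)).1 fun s t => ?_)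
        ((nm_fe hS (hfe k)).2.trans (hK k))
      apply le_of_eq
      ring
    · obtain ⟨c, hc⟩ := (hF k).2.2.2 s hs
      refine ⟨c, fun t h1 h2 => (hc t h1 h2).1, ?_⟩
      have h3 : ∀ᵐ t, t ∈ (Dcfg (m k) (p k).1 (p k).2).H → ∑ i, X k i t ^ 2 = 1 := by
        refine ae_of_cm (fun t => ?_) (hO k).adm.one
        have h4 : t + 2 * π ∈ (Dcfg (m k) (p k).1 (p k).2).H ↔
            t ∈ (Dcfg (m k) (p k).1 (p k).2).H := by
          constructor
          · rintro ⟨n, hn⟩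
            refine ⟨n + 1, ?_⟩
            have e : t + ((n + 1 : ℤ) : ℝ) * (2 * π) = t + 2 * π + n * (2 * π) := by
              push_cast
              ring
            rw [e]
            exact hn
          · rintro ⟨n, hn⟩
            refine ⟨n - 1, ?_⟩
            have e : t + 2 * π + ((n - 1 : ℤ) : ℝ) * (2 * π) = t + n * (2 * π) := by
              push_cast
              ring
            rw [e]
            exact hn
        have h5 : ∀ i, X k i (t + 2 * π) = X k i t := fun i => (hfe k i).per t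
        simp only [h4, h5]
      filter_upwards [h3] with t ht h1 h2
      rw [nm_of_one (ht (hc t h1 h2).2)]
      ring
    · have h1 : ∀ᵐ t ∂cm, ∀ i, Tendsto (fun k => X k i t) atTop (𝓝 (Y i t)) := ae_all_iff.2 hT
      filter_upwards [h1] with t ht
      exact (nm_tendsto ht).const_sub 1
  refine ⟨hY, fun i => ?_, ?_⟩
  · fin_cases i
    · have h1 : ∀ᵐ t, t ∈ pe (Ioo 0 (2 * π / 3)) → Y 0 t = 0 :=
        ae_pe hz0 fun t n h => by rw [← per_int (hY 0).per t n]; exact h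
      exact cm_of_ae h1
    · have h1 : ∀ᵐ t, t ∈ pe (Ioo (-(2 * π / 3)) 0) → Y 1 t = 0 :=
        ae_pe hz1 fun t n h => by rw [← per_int (hY 1).per t n]; exact h
      exact cm_of_ae h1
    · filter_upwards [hT 2] with t ht h2
      have h3 : ∀ k, X k 2 t = 0 := fun k => (hO k).zeroE 2 t h2
      change Y 2 t = 0
      change Tendsto (fun k => X k 2 t) atTop (𝓝 (Y 2 t)) at ht
      simp only [h3] at ht
      exact tendsto_nhds_unique ht tendsto_const_nhds
  · have h1 : ∀ᵐ t, t ∈ Ioo (-(2 * π / 3)) (2 * π / 3) → ∑ i, Y i t ^ 2 = 1 := by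
      filter_upwards [hone] with t ht h
      exact one_of_nm (by linarith [ht h])
    have h2 : ∀ᵐ t, t ∈ pe (Ioo (-(2 * π / 3)) (2 * π / 3)) → ∑ i, Y i t ^ 2 = 1 := by
      refine ae_pe h1 fun t n h => ?_
      have h5 : ∀ i, Y i (t + n * (2 * π)) = Y i t := fun i => per_int (hY i).per t n
      simpa only [h5] using h
    refine cm_of_ae ?_
    filter_upwards [h2] with t ht h3
    apply ht
    rcases h3 with ⟨n, hn⟩ | ⟨n, hn⟩
    · exact ⟨n, ⟨by linarith [hn.1], hn.2⟩⟩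
    · exact ⟨n, ⟨hn.1, by linarith [hn.2]⟩⟩

end Pool.Agent.FBM
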