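import Pool.Agent.FBM.StmtC

/-!
# FBM, module CLI: Lipschitz functions have finite energy
-/

open MeasureTheory Set Filter Topology
open scoped Real

namespace Pool.Agent.FBM

namespace CLI_

theorem key {f : ℝ → ℝ} {L : ℝ} (hp : Function.Periodic f (2 * π))
    (hl : ∀ s t, |f s - f t| ≤ L * |s - t|) (s t : ℝ) :
    |f s - f t| ≤ L * (π * |Real.sin ((s - t) / 2)|) := by
  have hpi : (0 : ℝ) < π := Real.pi_pos
  have hL : 0 ≤ L := by
    have := hl 1 0
    simp at this
    exact (abs_nonneg _).trans this
  set n : ℤ := round ((s - t) / (2 * π)) with hn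
  have h1 : |(s - t) / (2 * π) - n| ≤ 1 / 2 := abs_sub_round _
  have h2 : |(s - t) - n * (2 * π)| ≤ π := by
    have e : (s - t) - n * (2 * π) = ((s - t) / (2 * π) - n) * (2 * π) := by
      field_simp
    rw [e, abs_mul, abs_of_pos (by positivity : (0 : ℝ) < 2 * π)]
    nlinarith
  set x : ℝ := (s - t) / 2 - n * π with hx
  have h3 : |x| ≤ π / 2 := by
    have e : x = ((s - t) - n * (2 * π)) / 2 := by rw [hx]; ring
    rw [e, abs_div, abs_of_pos (by norm_num : (0 : ℝ) < 2)]
    linarith
  have h4 : 2 / π * |x| ≤ |Real.sin x| := Real.mul_abs_le_abs_sin h3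
  have h5 : |Real.sin ((s - t) / 2)| = |Real.sin x| := by
    rw [hx, Real.sin_sub_int_mul_pi, abs_mul, abs_zpow, abs_neg, abs_one, one_zpow, one_mul]
  have h6 : f (s - n * (2 * π)) = f s := hp.sub_int_mul_eq n
  have h7 : |f s - f t| ≤ L * |(s - t) - n * (2 * π)| := by
    have := hl (s - n * (2 * π)) t
    rw [h6] at this
    have e : s - n * (2 * π) - t = (s - t) - n * (2 * π) := by ring
    rwa [e] at this
  have h8 : |(s - t) - n * (2 * π)| ≤ π * |Real.sin x| := by
    have e : (s - t) - n * (2 * π) = 2 * x := by rw [hx]; ring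
    rw [e, abs_mul, abs_of_pos (by norm_num : (0 : ℝ) < 2)]
    have := mul_le_mul_of_nonneg_left h4 hpi.le
    have e2 : π * (2 / π * |x|) = 2 * |x| := by field_simp
    linarith
  rw [h5]
  exact h7.trans (mul_le_mul_of_nonneg_left h8 hL)

end CLI_

theorem t_CLI : Stmt_CLI := by
  intro f L hp hl
  have hpi : (0 : ℝ) < π := Real.pi_pos
  have hL : 0 ≤ L := by
    have := hl 1 0
    simp at this
    exact (abs_nonneg _).trans this
  have hc : Continuous f := by
    have : LipschitzWith ⟨L, hL⟩ f := by
      refine LipschitzWith.of_dist_le_mul fun x y => ?_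
      rw [Real.dist_eq, Real.dist_eq]
      exact hl x y
    exact this.continuous
  have hm : Measurable f := hc.measurable
  have hk := CLI_.key hp hl
  refine ⟨hm, hp, ⟨|f 0| + L * π, fun t => ?_⟩, ?_⟩
  · have h1 := hk t 0
    have h2 : |Real.sin ((t - 0) / 2)| ≤ 1 := Real.abs_sin_le_one _
    have h3 : |f t| ≤ |f 0| + |f t - f 0| := by
      have := abs_add_le (f 0) (f t - f 0)
      simpa using this
    have h4 : L * (π * |Real.sin ((t - 0) / 2)|) ≤ L * π := by
      have := mul_le_mul_of_nonneg_left h2 hpi.le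
      exact mul_le_mul_of_nonneg_left (by linarith) hL
    linarith
  · refine Integrable.mono' (g := fun _ => L ^ 2 * π ^ 2 / 4) (integrable_const _) ?_ ?_
    · have hJ : Measurable (fun p : ℝ × ℝ => J p.1 p.2) := by
        unfold J
        fun_prop
      exact (hJ.mul (((hm.comp measurable_fst).sub
        (hm.comp measurable_snd)).pow_const 2)).aestronglyMeasurable
    · refine Eventually.of_forall fun p => ?_
      have h0 : 0 ≤ J p.1 p.2 := by
        unfold J
        positivity
      rw [Real.norm_eq_abs, abs_of_nonneg (mul_nonneg h0 (sq_nonneg _))]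
      have h1 : (f p.1 - f p.2) ^ 2 ≤ L ^ 2 * π ^ 2 * Real.sin ((p.1 - p.2) / 2) ^ 2 := by
        have := pow_le_pow_left₀ (abs_nonneg _) (hk p.1 p.2) 2
        rw [sq_abs, mul_pow, mul_pow, sq_abs] at this
        linarith
      have h2 := mul_le_mul_of_nonneg_left h1 h0
      refine h2.trans ?_
      unfold J
      rcases eq_or_ne (Real.sin ((p.1 - p.2) / 2)) 0 with hs | hs
      · rw [hs]
        have : 0 ≤ L ^ 2 * π ^ 2 / 4 := by positivity
        simpa using this
      · rw [div_mul_eq_mul_div, div_le_iff₀ (by positivity)]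
        linarith

end Pool.Agent.FBM
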