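import Pool.Agent.FBM.StmtC

/-!
# Conclusion for the limit data
-/

open MeasureTheory Set Filter Topology
open scoped Real

namespace Pool.Agent.FBM

/-- CLM: a minimiser for the limit data is critical. -/
theorem t_CLM (hadm : Stmt_C_adm) (hex : Stmt_B_ex) (hem : Stmt_B_emin) (hB2 : Stmt_B2)
    (hpos : Stmt_B_pos) (hLS : Stmt_CLS) (hCF : Stmt_CCF) (hLN : Stmt_CLN) : Stmt_C_lim := by
  obtain ⟨hY, hT, -⟩ := hadm
  obtain ⟨X, hX⟩ := hex Dlim hT hY
  have hEL := hB2 Dlim hT X hX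
  have hconf := hCF X hX.oct.adm.fe (hLS X hX)
  have hnz := (hLN X hX.oct.adm).2
  refine ⟨X, lamX Dlim X, TX Dlim X, ⟨hEL, fun i => ?_, hconf⟩, hX, hem Dlim X hX, hT⟩
  exact hpos Dlim X _ _ hT hEL i (hnz i)

end Pool.Agent.FBM
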