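import Pool.Agent.FBM.StmtC

/-!
# FBM, block C: nonvanishing for the limit data
-/

open MeasureTheory Set Filter Topology
open scoped Real

namespace Pool.Agent.FBM

namespace CLN_

lemma ae_vol {P : ℝ → Prop} (h : ∀ᵐ t ∂cm, P t) : ∀ᵐ t : ℝ, t ∈ Ioo (-π) π → P t := by
  unfold cm at h
  rw [ae_restrict_iff' measurableSet_Ioc] at h
  filter_upwards [h] with t ht h2
  exact ht (Ioo_subset_Ioc_self h2)

lemma side0 {t : ℝ} (h1 : 0 < t) (h2 : t < 2 * π / 3) : t ∈ side 0 :=
  ⟨0, by constructor <;> push_cast <;> linarith⟩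

lemma side1 {t : ℝ} (h1 : -(2 * π / 3) < t) (h2 : t < 0) : t ∈ side 1 :=
  ⟨0, by constructor <;> push_cast <;> linarith⟩

lemma side2 {t : ℝ} (h1 : 2 * π / 3 < t) (h2 : t < 4 * π / 3) : t ∈ side 2 :=
  ⟨0, by constructor <;> push_cast <;> linarith⟩

lemma side2' {t : ℝ} (h1 : -(4 * π / 3) < t) (h2 : t < -(2 * π / 3)) : t ∈ side 2 :=
  ⟨1, by constructor <;> push_cast <;> linarith⟩

lemma nz (hJ : Stmt_A_jump) (X : Fin 3 → ℝ → ℝ) (hX : Adm Dlim X) :
    ∀ i, ¬ ∀ᵐ t ∂cm, X i t = 0 := by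
  have hpi := Real.pi_pos
  have hone := ae_vol hX.one
  have hz0 := ae_vol (hX.zero 0)
  have hz1 := ae_vol (hX.zero 1)
  have hz2 := ae_vol (hX.zero 2)
  have hfe : ∀ i, FE (fun t => X i t * X i t) := fun i => (hX.fe i).mul (hX.fe i)
  intro i hi
  have hi' := ae_vol hi
  fin_cases i
  · -- jump of the square of component 2 at `-2π/3`
    have key := hJ (fun t => X 2 t * X 2 t) (-(2 * π / 3)) (π / 3) 0 1 (hfe 2) (by positivity) ?_ ?_
    · norm_num at key
    · filter_upwards [hz2] with t h2 ht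
      have h3 := h2 ⟨by linarith [ht.1], by linarith [ht.2]⟩
        (side2' (by linarith [ht.1]) (by linarith [ht.2]))
      simp [h3]
    · filter_upwards [hz1, hone, hi'] with t h1 ho h0 ht
      have hm : t ∈ Ioo (-π) π := ⟨by linarith [ht.1], by linarith [ht.2]⟩
      have hs : t ∈ side 1 := side1 (by linarith [ht.1]) (by linarith [ht.2])
      have e1 : X 1 t = 0 := h1 hm hs
      have e0 : X 0 t = 0 := h0 hm
      have e := ho hm (Or.inr hs)
      rw [Fin.sum_univ_three, e0, e1] at e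
      nlinarith
  · -- jump of the square of component 2 at `2π/3`
    have key := hJ (fun t => X 2 t * X 2 t) (2 * π / 3) (π / 3) 1 0 (hfe 2) (by positivity) ?_ ?_
    · norm_num at key
    · filter_upwards [hz0, hone, hi'] with t h0 ho h1 ht
      have hm : t ∈ Ioo (-π) π := ⟨by linarith [ht.1], by linarith [ht.2]⟩
      have hs : t ∈ side 0 := side0 (by linarith [ht.1]) (by linarith [ht.2])
      have e0 : X 0 t = 0 := h0 hm hs
      have e1 : X 1 t = 0 := h1 hm
      have e := ho hm (Or.inl hs)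
      rw [Fin.sum_univ_three, e0, e1] at e
      nlinarith
    · filter_upwards [hz2] with t h2 ht
      have h3 := h2 ⟨by linarith [ht.1], by linarith [ht.2]⟩
        (side2 (by linarith [ht.1]) (by linarith [ht.2]))
      simp [h3]
  · -- jump of the square of component 1 at `0`
    have key := hJ (fun t => X 1 t * X 1 t) 0 (π / 3) 0 1 (hfe 1) (by positivity) ?_ ?_
    · norm_num at key
    · filter_upwards [hz1] with t h1 ht
      have h3 := h1 ⟨by linarith [ht.1], by linarith [ht.2]⟩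
        (side1 (by linarith [ht.1]) (by linarith [ht.2]))
      simp [h3]
    · filter_upwards [hz0, hone, hi'] with t h0 ho h2 ht
      have hm : t ∈ Ioo (-π) π := ⟨by linarith [ht.1], by linarith [ht.2]⟩
      have hs : t ∈ side 0 := side0 (by linarith [ht.1]) (by linarith [ht.2])
      have e0 : X 0 t = 0 := h0 hm hs
      have e2 : X 2 t = 0 := h2 hm
      have e := ho hm (Or.inl hs)
      rw [Fin.sum_univ_three, e0, e2] at e
      nlinarith

end CLN_

theorem t_CLN (hJ : Stmt_A_jump) (hC : Stmt_A_const) : Stmt_CLN := by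
  intro X hX
  have hpi := Real.pi_pos
  have hnz := CLN_.nz hJ X hX
  refine ⟨?_, hnz⟩
  by_contra hcon
  have hv : ven X X = 0 := le_antisymm (not_lt.mp hcon) (ven_self_nonneg X)
  have h0 : en (X 0) (X 0) = 0 := by
    unfold ven at hv
    exact (Finset.sum_eq_zero_iff_of_nonneg (fun i _ => en_self_nonneg (X i))).mp hv 0
      (Finset.mem_univ _)
  obtain ⟨c, hc⟩ := hC (X 0) (hX.fe 0) h0
  have h1 := CLN_.ae_vol hc
  have h2 := CLN_.ae_vol (hX.zero 0)
  have hd : Dense {t : ℝ | (t ∈ Ioo (-π) π → X 0 t = c) ∧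
      (t ∈ Ioo (-π) π → t ∈ Dlim.Z 0 → X 0 t = 0)} :=
    Measure.dense_of_ae (μ := (volume : Measure ℝ)) (h1.and h2)
  obtain ⟨t, ht, hp⟩ := hd.exists_mem_open (isOpen_Ioo (a := (0 : ℝ)) (b := 2 * π / 3))
    ⟨π / 3, by constructor <;> linarith⟩
  have hm : t ∈ Ioo (-π) π := ⟨by linarith [hp.1], by linarith [hp.2]⟩
  have e1 := ht.1 hm
  have e2 := ht.2 hm (CLN_.side0 hp.1 hp.2)
  refine hnz 0 ?_
  filter_upwards [hc] with s hs
  rw [hs, ← e1, e2]

end Pool.Agent.FBM
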