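import Pool.Agent.FBM.StmtC

/-!
# Module CLS: stationarity for the limit data
-/

open MeasureTheory Set Filter Topology
open scoped Real

namespace Pool.Agent.FBM

namespace CLS_

/-- A number `Q` with `0 ≤ s Q + K s²` for all small `s` vanishes. -/
lemma eq_zero {Q K s₀ : ℝ} (hs : 0 < s₀) (hK : 0 ≤ K)
    (h : ∀ s : ℝ, |s| ≤ s₀ → 0 ≤ s * Q + K * s ^ 2) : Q = 0 := by
  by_contra hQ
  have hQ' : 0 < |Q| := abs_pos.2 hQ
  set c := min (s₀ / |Q|) (1 / (2 * (K + 1))) with hc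
  have hc0 : 0 < c := lt_min (by positivity) (by positivity)
  have h1 : |-(Q * c)| ≤ s₀ := by
    rw [abs_neg, abs_mul, abs_of_pos hc0]
    have : c ≤ s₀ / |Q| := min_le_left _ _
    calc |Q| * c ≤ |Q| * (s₀ / |Q|) := mul_le_mul_of_nonneg_left this hQ'.le
      _ = s₀ := by field_simp
  have h2 := h _ h1
  have h3 : K * c < 1 := by
    have h4 : c ≤ 1 / (2 * (K + 1)) := min_le_right _ _
    have h5 : K * c ≤ K * (1 / (2 * (K + 1))) := mul_le_mul_of_nonneg_left h4 hK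
    have h6 : K * (1 / (2 * (K + 1))) < 1 := by
      rw [mul_one_div, div_lt_one (by positivity)]
      linarith
    linarith
  have h7 : -(Q * c) * Q + K * (-(Q * c)) ^ 2 = (Q ^ 2 * c) * (K * c - 1) := by ring
  rw [h7] at h2
  have h8 : 0 < Q ^ 2 * c := by positivity
  nlinarith

end CLS_

open CLS_ in
theorem t_CLS (hI : Stmt_CIV) (hP : Stmt_CPU) (hT : Stmt_CTR) : Stmt_CLS := by
  intro X hX v dv hv
  obtain ⟨s₁, hs₁, h1⟩ := hI v dv hv.base
  obtain ⟨C, s₂, hs₂, hC, h2⟩ := hP v dv hv.base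
  obtain ⟨s₃, hs₃, h3⟩ := hT v dv hv
  have hfe := hX.oct.adm.fe
  refine eq_zero (K := C * ven X X) (s₀ := min s₁ (min s₂ s₃)) (lt_min hs₁ (lt_min hs₂ hs₃))
    (mul_nonneg hC (ven_self_nonneg X)) fun s hs => ?_
  have hs1 : |s| ≤ s₁ := hs.trans (min_le_left _ _)
  have hs2 : |s| ≤ s₂ := hs.trans ((min_le_right _ _).trans (min_le_left _ _))
  have hs3 : |s| ≤ s₃ := hs.trans ((min_le_right _ _).trans (min_le_right _ _))
  obtain ⟨⟨τ, hτ⟩, _⟩ := h1 s hs1
  have h4 := hX.min _ ((h3 s τ hs3 hτ).1 X hX.oct.adm)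
  have h5 : ∀ i, en (fun t => X i (τ t)) (fun t => X i (τ t)) ≤
      en (X i) (X i) + s * Qv v dv (X i) (X i) + C * s ^ 2 * en (X i) (X i) := by
    intro i
    have := (abs_le.1 ((h2 s τ hs2 hτ (X i) (hfe i)).2)).2
    linarith
  have h6 : ven (fun i t => X i (τ t)) (fun i t => X i (τ t)) ≤
      ∑ i, (en (X i) (X i) + s * Qv v dv (X i) (X i) + C * s ^ 2 * en (X i) (X i)) :=
    Finset.sum_le_sum fun i _ => h5 i
  rw [Finset.sum_add_distrib, Finset.sum_add_distrib, ← Finset.mul_sum, ← Finset.mul_sum] at h6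
  have h7 : ven X X ≤ ven X X + s * QQv v dv X + C * s ^ 2 * ven X X := h4.trans h6
  linarith

end Pool.Agent.FBM
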