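import Pool.Agent.FBM.StmtC1

/-!
# FBM, block C, module CLV: convergence of the levels
-/

open MeasureTheory Set Filter Topology
open scoped Real

namespace Pool.Agent.FBM

namespace CLV

/-- three subsequences -/
theorem sub3 (hR : Stmt_A_rellich) (X : ℕ → Fin 3 → ℝ → ℝ) (K : ℝ) (hf : ∀ k i, FE (X k i))
    (hb : ∀ k i t, |X k i t| ≤ 1) (hK : ∀ k i, en (X k i) (X k i) ≤ K) :
    ∃ (φ : ℕ → ℕ) (Y : Fin 3 → ℝ → ℝ), StrictMono φ ∧ (∀ i, FE (Y i)) ∧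
      ∀ i, ∀ᵐ t ∂cm, Tendsto (fun k => X (φ k) i t) atTop (𝓝 (Y i t)) := by
  obtain ⟨φ₀, g₀, hφ₀, hg₀, -, -, ha₀⟩ := hR (fun k => X k 0) 1 K (fun k => hf k 0)
    (fun k t => hb k 0 t) (fun k => hK k 0)
  obtain ⟨φ₁, g₁, hφ₁, hg₁, -, -, ha₁⟩ := hR (fun k => X (φ₀ k) 1) 1 K (fun k => hf _ 1)
    (fun k t => hb _ 1 t) (fun k => hK _ 1)
  obtain ⟨φ₂, g₂, hφ₂, hg₂, -, -, ha₂⟩ := hR (fun k => X (φ₀ (φ₁ k)) 2) 1 K (fun k => hf _ 2)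
    (fun k t => hb _ 2 t) (fun k => hK _ 2)
  refine ⟨fun k => φ₀ (φ₁ (φ₂ k)), ![g₀, g₁, g₂], hφ₀.comp (hφ₁.comp hφ₂), ?_, ?_⟩
  · intro i
    fin_cases i
    · exact hg₀
    · exact hg₁
    · exact hg₂
  · intro i
    fin_cases i
    · filter_upwards [ha₀] with t ht
      exact ht.comp (hφ₁.tendsto_atTop.comp hφ₂.tendsto_atTop)
    · filter_upwards [ha₁] with t ht
      exact ht.comp hφ₂.tendsto_atTop
    · exact ha₂

theorem oct_abs_le {D : Dat} {X : Fin 3 → ℝ → ℝ} (h : Oct D X) (i : Fin 3) (t : ℝ) :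
    |X i t| ≤ 1 := by
  have h1 : X i t ^ 2 ≤ ∑ j, X j t ^ 2 :=
    Finset.single_le_sum (f := fun j => X j t ^ 2) (fun j _ => sq_nonneg _) (Finset.mem_univ i)
  have h2 := h.le_one t
  rw [abs_le]
  constructor <;> nlinarith

theorem en_le_ven (X : Fin 3 → ℝ → ℝ) (i : Fin 3) : en (X i) (X i) ≤ ven X X :=
  Finset.single_le_sum (f := fun j => en (X j) (X j)) (fun _ _ => en_self_nonneg _)
    (Finset.mem_univ i)

end CLV

open CLV in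
theorem t_CLV : Stmt_CAI → Stmt_CAD → Stmt_CFI → Stmt_CLA → Stmt_CVF → Stmt_A_rellich →
    Stmt_B_ex → Stmt_CTM → Stmt_CLV := by
  intro hAI hAD hFI hLA hVF hR hex hTM
  have hEle : ∀ m : ℕ, ∀ p ∈ Par m, Emin (Dcfg m p.1 p.2) ≤ Emin Dlim := by
    intro m p hp
    obtain ⟨Y, hY⟩ := hAD
    refine le_csInf ⟨_, Y, hY, rfl⟩ ?_
    rintro r ⟨Z, hZ, rfl⟩
    exact C0.Emin_le (hAI m p hp Z hZ)
  have hlev : ∀ m, lev m ≤ Emin Dlim := by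
    intro m
    refine Real.sSup_le ?_ (C0.Emin_nonneg _)
    rintro r ⟨p, hp, rfl⟩
    exact hEle m p hp
  refine ⟨hlev, ?_⟩
  rw [tendsto_order]
  refine ⟨fun a ha => ?_, fun a ha => Eventually.of_forall fun m => lt_of_le_of_lt (hlev m) ha⟩
  by_contra hne
  have hfr : ∀ N : ℕ, ∃ m ≥ N, lev m ≤ a := by
    intro N
    by_contra h
    push Not at h
    exact hne (eventually_atTop.2 ⟨N, h⟩)
  have hch : ∀ k : ℕ, ∃ (m : ℕ) (p : (Fin m → ℝ) × (Fin m → ℝ)) (δ : ℝ) (X : Fin 3 → ℝ → ℝ),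
      p ∈ Par m ∧ 0 < δ ∧ δ ≤ 1 / ((k : ℝ) + 1) ∧ Fine m p δ ∧ IsMin (Dcfg m p.1 p.2) X ∧
        ven X X ≤ a := by
    intro k
    obtain ⟨M, hM⟩ := hFI (1 / ((k : ℝ) + 1)) (by positivity)
    obtain ⟨m, hmM, hma⟩ := hfr M
    obtain ⟨p, hp, δ, h0, h1, h2⟩ := hM m hmM
    obtain ⟨Y, hY⟩ := hAD
    obtain ⟨X, hX⟩ := hex _ (hTM.1 m p hp) ⟨Y, hAI m p hp Y hY⟩
    refine ⟨m, p, δ, X, hp, h0, h1, h2, hX, ?_⟩
    rw [C0.ven_eq hX]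
    have hbd : BddAbove {r : ℝ | ∃ p ∈ Par m, Emin (Dcfg m p.1 p.2) = r} := by
      refine ⟨Emin Dlim, ?_⟩
      rintro r ⟨q, hq, rfl⟩
      exact hEle m q hq
    exact le_trans (le_csSup hbd ⟨p, hp, rfl⟩) hma
  choose m p δ X hp h0 h1 h2 hX hXa using hch
  obtain ⟨φ, Y, hφ, hYF, hYt⟩ := sub3 hR X a (fun k i => (hX k).oct.adm.fe i)
    (fun k i t => oct_abs_le (hX k).oct i t) (fun k i => (en_le_ven _ i).trans (hXa k))
  have hδ : Tendsto δ atTop (𝓝 0) :=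
    squeeze_zero (fun k => (h0 k).le) h1 tendsto_one_div_add_atTop_nhds_zero_nat
  have hadm : Adm Dlim Y := hLA (fun k => X (φ k)) Y (fun k => m (φ k)) (fun k => p (φ k))
    (fun k => δ (φ k)) a (fun k => hp _) (fun k => ⟨h0 _, h2 _⟩) (hδ.comp hφ.tendsto_atTop)
    (fun k => (hX _).oct) (fun k => hXa _) hYF hYt
  have hven : ven Y Y ≤ a := (hVF (fun k => X (φ k)) Y a (fun k i => (hX _).oct.adm.fe i)
    (fun k => hXa _) (fun i => (hYF i).meas) (fun i => (hYF i).per) (fun i => (hYF i).bdd)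
    hYt).2
  exact absurd (lt_of_lt_of_le ha (C0.Emin_le hadm)) (not_lt.2 hven)

end Pool.Agent.FBM
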