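import Pool.Agent.FBM.StmtC1

/-!
# FBM, block C part 1, module CMA: a maximal configuration
-/

open MeasureTheory Set Filter Topology
open scoped Real

namespace Pool.Agent.FBM

namespace CMA

theorem isCompact_Par (m : ℕ) : IsCompact (Par m) := by
  have h1 : IsCompact ((Icc (fun _ => -(2 * π / 3)) (fun _ => 2 * π / 3) : Set (Fin m → ℝ)) ×ˢ
      (Icc (fun _ => -(2 * π / 3)) (fun _ => 2 * π / 3) : Set (Fin m → ℝ))) :=
    isCompact_Icc.prod isCompact_Icc
  refine h1.of_isClosed_subset ?_ ?_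
  · have h2 : Par m = ⋂ k : Fin m, {p : (Fin m → ℝ) × (Fin m → ℝ) | -(2 * π / 3) ≤ p.1 k ∧
        p.1 k ≤ p.2 k ∧ p.2 k ≤ 2 * π / 3} := by
      ext p
      simp only [Par, mem_setOf_eq, mem_iInter]
    rw [h2]
    refine isClosed_iInter fun k => ?_
    have c1 : Continuous fun p : (Fin m → ℝ) × (Fin m → ℝ) => p.1 k :=
      (continuous_apply k).comp continuous_fst
    have c2 : Continuous fun p : (Fin m → ℝ) × (Fin m → ℝ) => p.2 k :=
      (continuous_apply k).comp continuous_snd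
    exact (isClosed_le continuous_const c1).inter
      ((isClosed_le c1 c2).inter (isClosed_le c2 continuous_const))
  · intro p hp
    refine ⟨⟨fun k => (hp k).1, fun k => (hp k).2.1.trans (hp k).2.2⟩,
      ⟨fun k => (hp k).1.trans (hp k).2.1, fun k => (hp k).2.2⟩⟩

theorem nonempty_Par (m : ℕ) : (Par m).Nonempty := by
  have hπ := Real.pi_pos
  refine ⟨(fun _ => 0, fun _ => 0), fun k => ⟨?_, le_rfl, ?_⟩⟩
  · change -(2 * π / 3) ≤ 0
    rw [neg_nonpos]; positivity
  · change (0 : ℝ) ≤ 2 * π / 3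
    positivity

end CMA

/-- CMA: a maximal configuration. -/
theorem t_CMA : Stmt_CUS → Stmt_CMA := by
  intro hU m
  have husc : UpperSemicontinuousOn
      (fun p : (Fin m → ℝ) × (Fin m → ℝ) => Emin (Dcfg m p.1 p.2)) (Par m) := by
    intro p hp y hy
    obtain ⟨δ, hδ, h⟩ := hU m p hp ((y - Emin (Dcfg m p.1 p.2)) / 2)
      (half_pos (sub_pos.2 hy))
    rw [eventually_nhdsWithin_iff]
    filter_upwards [Metric.ball_mem_nhds p hδ] with p' hp' hpar
    have h1 := h p' hpar hp'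
    have h2 : Emin (Dcfg m p.1 p.2) < y := hy
    change Emin (Dcfg m p'.1 p'.2) < y
    linarith
  obtain ⟨p, hp, hmax⟩ := husc.exists_isMaxOn (CMA.nonempty_Par m) (CMA.isCompact_Par m)
  have hle : ∀ q ∈ Par m, Emin (Dcfg m q.1 q.2) ≤ Emin (Dcfg m p.1 p.2) := fun q hq => hmax hq
  have hlev : lev m = Emin (Dcfg m p.1 p.2) := by
    refine IsGreatest.csSup_eq ⟨⟨p, hp, rfl⟩, ?_⟩
    rintro r ⟨q, hq, rfl⟩
    exact hle q hq
  exact ⟨p, hp, hlev.symm, fun q hq => by rw [hlev]; exact hle q hq⟩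

end Pool.Agent.FBM
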