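import Pool.Agent.FBM.StmtC

/-! # FBM, module CMB: correction by a Moebius field -/

open MeasureTheory Set Filter Topology
open scoped Real

namespace Pool.Agent.FBM

namespace CMB_

lemma lin {v dv w dw : ℝ → ℝ} (hv : VF0 v dv) (hw : VF0 w dw) (a b : ℝ) :
    VF0 (fun t => a * v t + b * w t) (fun t => a * dv t + b * dw t) where
  der t := ((hv.der t).const_mul a).add ((hw.der t).const_mul b)
  cont := (continuous_const.mul hv.cont).add (continuous_const.mul hw.cont)
  per t := by simp only [hv.per t, hw.per t]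
  per' t := by simp only [hv.per' t, hw.per' t]

lemma vf_one : VF0 (fun _ => 1) (fun _ => 0) where
  der t := hasDerivAt_const t 1
  cont := continuous_const
  per _ := rfl
  per' _ := rfl

lemma vf_cos : VF0 Real.cos (fun t => - Real.sin t) where
  der t := Real.hasDerivAt_cos t
  cont := Real.continuous_sin.neg
  per := Real.cos_periodic
  per' t := by simp only [Real.sin_periodic t]

lemma vf_sin : VF0 Real.sin Real.cos where
  der t := Real.hasDerivAt_sin t
  cont := Real.continuous_cos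
  per := Real.sin_periodic
  per' := Real.cos_periodic

lemma cos23 : Real.cos (2 * π / 3) = -1 / 2 := by
  have h : 2 * π / 3 = 2 * (π / 3) := by ring
  rw [h, Real.cos_two_mul, Real.cos_pi_div_three]
  norm_num

lemma sin23 : Real.sin (2 * π / 3) = Real.sqrt 3 / 2 := by
  have h : 2 * π / 3 = 2 * (π / 3) := by ring
  rw [h, Real.sin_two_mul, Real.cos_pi_div_three, Real.sin_pi_div_three]
  ring

end CMB_

open CMB_

theorem t_CMB (hL : Stmt_CQL) : Stmt_CMB := by
  intro w dw hw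
  obtain ⟨al, hal⟩ : ∃ al : ℝ, al = -(w 0 + w (2 * π / 3) + w (-(2 * π / 3))) / 3 := ⟨_, rfl⟩
  obtain ⟨be, hbe⟩ : ∃ be : ℝ,
    be = -(2 / 3) * w 0 + (1 / 3) * (w (2 * π / 3) + w (-(2 * π / 3))) := ⟨_, rfl⟩
  obtain ⟨ga, hga⟩ : ∃ ga : ℝ,
    ga = -(Real.sqrt 3 / 3) * (w (2 * π / 3) - w (-(2 * π / 3))) := ⟨_, rfl⟩
  have h1 := lin hw vf_one 1 al
  have h2 := lin vf_cos vf_sin be ga
  have h3 := lin h1 h2 1 1
  have hs : Real.sqrt 3 * Real.sqrt 3 = 3 := Real.mul_self_sqrt (by norm_num)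
  refine ⟨_, _, ⟨h3, ?_, ?_, ?_⟩, fun f hf => ?_⟩
  · simp only [Real.cos_zero, Real.sin_zero]
    rw [hal, hbe]
    ring
  · simp only [cos23, sin23]
    rw [hal, hbe, hga]
    linear_combination (-(1 / 6) * (w (2 * π / 3) - w (-(2 * π / 3)))) * hs
  · simp only [Real.cos_neg, Real.sin_neg, cos23, sin23]
    rw [hal, hbe, hga]
    linear_combination ((1 / 6) * (w (2 * π / 3) - w (-(2 * π / 3)))) * hs
  · obtain ⟨hl, h1', hc', hs'⟩ := hL f hf
    rw [hl _ _ _ _ h1 h2 1 1, hl _ _ _ _ hw vf_one 1 al, hl _ _ _ _ vf_cos vf_sin be ga,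
      h1', hc', hs']
    ring

end Pool.Agent.FBM
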