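import Pool.Agent.FBM.StmtC

/-!
# FBM, CMM: one minimiser which is stationary for all domain variations
-/

open MeasureTheory Set Filter Topology
open scoped Real

namespace Pool.Agent.FBM

namespace CMM_

theorem vf0_lin {v dv w dw : ℝ → ℝ} (hv : VF0 v dv) (hw : VF0 w dw) (a b : ℝ) :
    VF0 (fun t => a * v t + b * w t) (fun t => a * dv t + b * dw t) := by
  refine ⟨fun t => ?_, ?_, fun t => ?_, fun t => ?_⟩
  · exact ((hv.der t).const_mul a).add ((hw.der t).const_mul b)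
  · exact (hv.cont.const_mul a).add (hw.cont.const_mul b)
  · simp only [hv.per t, hw.per t]
  · simp only [hv.per' t, hw.per' t]

theorem vf_lin {v dv w dw : ℝ → ℝ} (hv : VF v dv) (hw : VF w dw) (a b : ℝ) :
    VF (fun t => a * v t + b * w t) (fun t => a * dv t + b * dw t) :=
  ⟨vf0_lin hv.base hw.base a b, by simp only [hv.c0, hw.c0]; ring,
    by simp only [hv.c1, hw.c1]; ring, by simp only [hv.c2, hw.c2]; ring⟩

theorem vf_zero : VF (fun _ => 0) (fun _ => 0) :=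
  ⟨⟨fun t => hasDerivAt_const t 0, continuous_const, fun _ => rfl, fun _ => rfl⟩, rfl, rfl, rfl⟩

theorem qv_zero (f g : ℝ → ℝ) : Qv (fun _ => 0) (fun _ => 0) f g = 0 := by
  unfold Qv kv
  simp

/-- the vectors of the derivatives form a subspace -/
def sub (hQL : Stmt_CQL) (X : Fin 3 → ℝ → ℝ) (hX : ∀ i, FE (X i)) :
    Submodule ℝ (Fin 3 → ℝ) where
  carrier := {l | ∃ v dv, VF v dv ∧ ∀ i, l i = Qv v dv (X i) (X i)}
  add_mem' := by
    rintro l l' ⟨v, dv, hv, h⟩ ⟨w, dw, hw, h'⟩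
    refine ⟨_, _, vf_lin hv hw 1 1, fun i => ?_⟩
    rw [(hQL (X i) (hX i)).1 v dv w dw hv.base hw.base 1 1, Pi.add_apply, h i, h' i]
    ring
  zero_mem' := ⟨_, _, vf_zero, fun i => by rw [qv_zero]; rfl⟩
  smul_mem' := by
    rintro c l ⟨v, dv, hv, h⟩
    refine ⟨_, _, vf_lin hv vf_zero c 0, fun i => ?_⟩
    rw [(hQL (X i) (hX i)).1 v dv _ _ hv.base vf_zero.base c 0, Pi.smul_apply, h i, qv_zero,
      smul_eq_mul]
    ring

/-- the derivative of a map with components `√c X` -/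
theorem qq_eq {X Y : Fin 3 → ℝ → ℝ} {c : Fin 3 → ℝ} (hc : ∀ i, 0 ≤ c i)
    (h : ∀ i, ∀ᵐ t ∂cm, Y i t = Real.sqrt (c i) * X i t) (v dv : ℝ → ℝ) :
    QQv v dv Y = ∑ i, Qv v dv (X i) (X i) * c i := by
  unfold QQv
  refine Finset.sum_congr rfl fun i _ => ?_
  unfold Qv
  have e : ∫ p, J p.1 p.2 * kv v dv p.1 p.2 * ((Y i p.1 - Y i p.2) * (Y i p.1 - Y i p.2)) ∂cm2
      = ∫ p, J p.1 p.2 * kv v dv p.1 p.2 * ((X i p.1 - X i p.2) * (X i p.1 - X i p.2)) * c i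
          ∂cm2 := by
    refine integral_congr_ae ?_
    filter_upwards [ae_cm2_of_ae (h i)] with p hp
    rw [hp.1, hp.2]
    have := Real.mul_self_sqrt (hc i)
    linear_combination (J p.1 p.2 * kv v dv p.1 p.2 * ((X i p.1 - X i p.2) *
      (X i p.1 - X i p.2))) * this
  rw [e, integral_mul_const, mul_assoc]

end CMM_

open CMM_ in
theorem t_CMM (hB6 : Stmt_B6) (hQB : Stmt_CQB) (hQL : Stmt_CQL) (hS : Stmt_CSE)
    (hC : Stmt_CSQ) : Stmt_CMM := by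
  intro D hD hex hpos
  obtain ⟨X, hX, hmax⟩ := hB6 D hD hex
  obtain ⟨C, hCc, hCv, hC0, hC1, hC2⟩ := hC D hD X hX hmax
  have hfe : ∀ i, FE (X i) := fun i => hX.oct.adm.fe i
  obtain ⟨c0, hc0, -⟩ := hC2 X hX
  obtain ⟨c, hc, hz⟩ := hS C hCc hCv ⟨c0, hc0⟩ (sub hQL X hfe) (by
    rintro l ⟨v, dv, hv, hl⟩
    obtain ⟨Y, hY, hYp⟩ := hpos v dv hv
    obtain ⟨c, hc, h⟩ := hC2 Y hY
    refine ⟨c, hc, ?_⟩
    rw [qq_eq (hC0 c hc) h v dv] at hYp
    simpa only [hl] using hYp)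
  obtain ⟨Y, hY, h⟩ := hC1 c hc
  refine ⟨Y, hY, fun v dv hv => ?_⟩
  rw [qq_eq (hC0 c hc) h v dv]
  exact hz (fun i => Qv v dv (X i) (X i)) ⟨v, dv, hv, fun _ => rfl⟩

end Pool.Agent.FBM
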