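import Pool.Agent.FBM.StmtC

/-!
# FBM, module CMX: the conclusion of block C for configurations
-/

open MeasureTheory Set Filter Topology
open scoped Real

namespace Pool.Agent.FBM

theorem t_CMX (hatt : Stmt_C_att) (hadm : Stmt_C_adm) (hex : Stmt_B_ex) (hem : Stmt_B_emin)
    (hB2 : Stmt_B2) (hpos : Stmt_B_pos) (hON : Stmt_CON) (hMM : Stmt_CMM) (hCF : Stmt_CCF)
    (hNZ : Stmt_CNZ) : Stmt_C_max := by
  intro m hlev
  obtain ⟨q, hq, hqE, hle⟩ := hatt m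
  have hTm : (Dcfg m q.1 q.2).Tm := (hadm.2.2 m q hq).1
  have hadmq := (hadm.2.2 m q hq).2
  have hst : ∀ v dv, VF v dv → ∃ X, IsMin (Dcfg m q.1 q.2) X ∧ 0 ≤ QQv v dv X :=
    hON m q hq (fun p hp => (hadm.2.2 m p hp).2) (fun p hp => by rw [hqE]; exact hle p hp)
  obtain ⟨X, hX, hXs⟩ := hMM _ hTm (hex _ hTm hadmq) hst
  have hconf := hCF X hX.oct.adm.fe hXs
  have hEL := hB2 _ hTm X hX
  have hven : ven X X = lev m := by rw [hem _ _ hX, hqE]
  have hNZ' := hNZ m q hq X _ _ hX hEL (by rw [hven]; exact hlev) hconf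
  exact ⟨q, hq, X, _, _,
    ⟨hEL, fun i t ht => hpos _ X _ _ hTm hEL i (hNZ' i) t ht, hconf⟩, hven⟩

end Pool.Agent.FBM
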