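import Pool.Agent.FBM.StmtC
import Pool.Agent.FBM.B0

/-!
# FBM, block C: the components are not almost everywhere zero (CNZ)
-/

open MeasureTheory Set Filter Topology
open scoped Real

namespace Pool.Agent.FBM

namespace CNZ_

lemma int_eq_zero {n : ℤ} (h1 : (n : ℝ) < 1) (h2 : -1 < (n : ℝ)) : n = 0 := by
  have h3 : n < 1 := by exact_mod_cast h1
  have h4 : -1 < n := by exact_mod_cast h2
  omega

/-- periodic extensions of sets in the middle of the period -/
lemma pe_iff {S : Set ℝ} (hS : S ⊆ Icc (-(2 * π / 3)) (2 * π / 3)) {t : ℝ}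
    (ht : t ∈ Ioo (-π) π) : t ∈ pe S ↔ t ∈ S := by
  have hpi := Real.pi_pos
  constructor
  · rintro ⟨n, hn⟩
    obtain ⟨h1, h2⟩ := hS hn
    have e : n = 0 := by
      apply int_eq_zero
      · by_contra h
        push Not at h
        nlinarith [ht.1, mul_le_mul_of_nonneg_right h (show (0 : ℝ) ≤ 2 * π by positivity)]
      · by_contra h
        push Not at h
        nlinarith [ht.2, mul_le_mul_of_nonneg_right h (show (0 : ℝ) ≤ 2 * π by positivity)]
    rw [e] at hn
    simpa using hn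
  · intro h
    exact ⟨0, by simpa using h⟩

lemma notMem_side2 {t : ℝ} (ht : t ∈ Ioo (-(2 * π / 3)) (2 * π / 3)) : t ∉ side 2 := by
  have hpi := Real.pi_pos
  rintro ⟨n, h1, h2⟩
  have e : n = 0 := by
    apply int_eq_zero
    · by_contra h
      push Not at h
      nlinarith [ht.1, mul_le_mul_of_nonneg_right h (show (0 : ℝ) ≤ 2 * π by positivity)]
    · by_contra h
      push Not at h
      nlinarith [ht.2, mul_le_mul_of_nonneg_right h (show (0 : ℝ) ≤ 2 * π by positivity)]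
  rw [e] at h1
  simp only [Int.cast_zero, zero_mul, add_zero] at h1
  exact lt_asymm h1 ht.2

lemma sub0 : Ioo 0 (2 * π / 3) ⊆ Icc (-(2 * π / 3)) (2 * π / 3) := by
  intro t ht
  have := Real.pi_pos
  exact ⟨by linarith [ht.1], ht.2.le⟩

lemma sub1 : Ioo (-(2 * π / 3)) 0 ⊆ Icc (-(2 * π / 3)) (2 * π / 3) := by
  intro t ht
  have := Real.pi_pos
  exact ⟨ht.1.le, by linarith [ht.2]⟩

lemma subH {m : ℕ} {q : (Fin m → ℝ) × (Fin m → ℝ)} (hq : q ∈ Par m) :
    (⋃ k, Icc (q.1 k) (q.2 k)) ⊆ Icc (-(2 * π / 3)) (2 * π / 3) := by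
  refine iUnion_subset fun k t ht => ?_
  obtain ⟨h1, -, h3⟩ := hq k
  exact ⟨h1.trans ht.1, ht.2.trans h3⟩

/-- the general argument -/
lemma key (hA : Stmt_CAR) (hZ : Stmt_CTZ) {D : Dat} {X : Fin 3 → ℝ → ℝ} {lam : ℝ → ℝ}
    {T : Fin 3 → ℝ → ℝ} (hE : EL D X lam T)
    (hc : ∀ z : ℂ, ‖z‖ < 1 → ∑ i, (deriv (hz (X i)) z) ^ 2 = 0) {i : Fin 3}
    (hi : ∀ᵐ t ∂cm, X i t = 0) {c d : ℝ} (hcd : c < d) (hsub : Ioo c d ⊆ Ioo (-π) π)
    (hH : ∀ t ∈ Ioo c d, t ∉ D.H) (hj : ∀ j, j ≠ i → ∀ t ∈ Ioo c d, t ∉ D.Z j) :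
    ven X X = 0 := by
  refine hA hE hc c d hcd fun j => ?_
  by_cases h : j = i
  · subst h
    have h1 : ∀ᵐ t ∂cm, T j t = 0 := by
      refine hZ (T j) (hE.T_int j) fun g hg => ?_
      rw [← hE.weak j g hg]
      have h2 : X j =ᵐ[cm] fun _ => (0 : ℝ) := hi
      rw [en_congr h2 (EventuallyEq.refl _ g), en_const_left]
    unfold cm at h1
    rw [ae_restrict_iff' measurableSet_Ioc] at h1
    filter_upwards [h1] with t h2 h3
    exact h2 ⟨(hsub h3).1, (hsub h3).2.le⟩
  · refine Eventually.of_forall fun t ht => ?_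
    rw [hE.T_off j t (hj j h t ht), hE.lam_off t (hH t ht), zero_mul]

/-- constant maps have no energy -/
lemma ven_const (c : Fin 3 → ℝ) : ven (fun i _ => c i) (fun i _ => c i) = 0 := by
  unfold ven
  exact Finset.sum_eq_zero fun i _ => en_const_left _ _

/-- a minimiser for data for which a constant map is admissible has no energy -/
lemma ven_zero {D : Dat} {X : Fin 3 → ℝ → ℝ} (hX : IsMin D X) (i : Fin 3) (h : D.Z i = ∅) :
    ven X X = 0 := by
  have h1 : Adm D (fun j _ => if j = i then 1 else 0) := by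
    refine ⟨fun j => FE.const _, fun j => Eventually.of_forall fun t ht => ?_,
      Eventually.of_forall fun t _ => ?_⟩
    · by_cases hj : j = i
      · subst hj
        rw [h] at ht
        exact absurd ht (notMem_empty t)
      · simp [hj]
    · simp
  have h2 := hX.min _ h1
  rw [ven_const] at h2
  exact le_antisymm h2 (ven_self_nonneg X)

end CNZ_

open CNZ_ in
/-- CNZ: the components are not almost everywhere zero. -/
theorem t_CNZ (hA : Stmt_CAR) (hZ : Stmt_CTZ) : Stmt_CNZ := by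
  intro m q hq X lam T hX hE hv hc i hi
  have hpi := Real.pi_pos
  refine hv.ne' ?_
  have hHc : IsClosed (⋃ k, Icc (q.1 k) (q.2 k)) := isClosed_iUnion_of_finite fun k => isClosed_Icc
  have hH : ∀ t ∈ Ioo (-π) π, t ∈ HH m q.1 q.2 ↔ t ∈ ⋃ k, Icc (q.1 k) (q.2 k) := fun t ht =>
    pe_iff (subH hq) ht
  fin_cases i
  · -- component 0
    by_cases hU : (Ioo 0 (2 * π / 3) \ ⋃ k, Icc (q.1 k) (q.2 k)).Nonempty
    · obtain ⟨t, ht⟩ := hU
      have ho : IsOpen (Ioo 0 (2 * π / 3) \ ⋃ k, Icc (q.1 k) (q.2 k)) := isOpen_Ioo.sdiff hHc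
      obtain ⟨c, d, hcd, hsub⟩ := mem_nhds_iff_exists_Ioo_subset.1 (ho.mem_nhds ht)
      have hs : ∀ s ∈ Ioo c d, s ∈ Ioo (-π) π := fun s h =>
        ⟨by linarith [(hsub h).1.1], by linarith [(hsub h).1.2]⟩
      refine key hA hZ hE hc hi (hcd.1.trans hcd.2) hs (fun s h h' => ?_) (fun j hj s h => ?_)
      · exact (hsub h).2 ((hH s (hs s h)).1 h')
      · fin_cases j
        · exact absurd rfl hj
        · intro h'
          have h2 := (pe_iff sub1 (hs s h)).1 h'.1
          exact lt_asymm h2.2 (hsub h).1.1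
        · exact notMem_side2 ⟨by linarith [(hsub h).1.1], (hsub h).1.2⟩
    · refine ven_zero hX 0 ?_
      rw [not_nonempty_iff_eq_empty] at hU
      refine eq_empty_iff_forall_notMem.2 fun t ht => ?_
      obtain ⟨⟨n, hn⟩, h2⟩ := ht
      have h3 : t + n * (2 * π) ∈ ⋃ k, Icc (q.1 k) (q.2 k) := by
        by_contra h
        have h5 : t + n * (2 * π) ∈ Ioo 0 (2 * π / 3) \ ⋃ k, Icc (q.1 k) (q.2 k) :=
          mem_sdiff_of_mem hn h
        rw [hU] at h5
        exact notMem_empty _ h5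
      exact h2 ⟨n, h3⟩
  · -- component 1
    by_cases hU : (Ioo (-(2 * π / 3)) 0 \ ⋃ k, Icc (q.1 k) (q.2 k)).Nonempty
    · obtain ⟨t, ht⟩ := hU
      have ho : IsOpen (Ioo (-(2 * π / 3)) 0 \ ⋃ k, Icc (q.1 k) (q.2 k)) := isOpen_Ioo.sdiff hHc
      obtain ⟨c, d, hcd, hsub⟩ := mem_nhds_iff_exists_Ioo_subset.1 (ho.mem_nhds ht)
      have hs : ∀ s ∈ Ioo c d, s ∈ Ioo (-π) π := fun s h =>
        ⟨by linarith [(hsub h).1.1], by linarith [(hsub h).1.2]⟩
      refine key hA hZ hE hc hi (hcd.1.trans hcd.2) hs (fun s h h' => ?_) (fun j hj s h => ?_)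
      · exact (hsub h).2 ((hH s (hs s h)).1 h')
      · fin_cases j
        · intro h'
          have h2 := (pe_iff sub0 (hs s h)).1 h'.1
          exact lt_asymm h2.1 (hsub h).1.2
        · exact absurd rfl hj
        · exact notMem_side2 ⟨(hsub h).1.1, by linarith [(hsub h).1.2]⟩
    · refine ven_zero hX 1 ?_
      rw [not_nonempty_iff_eq_empty] at hU
      refine eq_empty_iff_forall_notMem.2 fun t ht => ?_
      obtain ⟨⟨n, hn⟩, h2⟩ := ht
      have h3 : t + n * (2 * π) ∈ ⋃ k, Icc (q.1 k) (q.2 k) := by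
        by_contra h
        have h5 : t + n * (2 * π) ∈ Ioo (-(2 * π / 3)) 0 \ ⋃ k, Icc (q.1 k) (q.2 k) :=
          mem_sdiff_of_mem hn h
        rw [hU] at h5
        exact notMem_empty _ h5
      exact h2 ⟨n, h3⟩
  · -- component 2
    have hs : ∀ s ∈ Ioo (2 * π / 3) π, s ∈ Ioo (-π) π := fun s h => ⟨by linarith [h.1], h.2⟩
    refine key hA hZ hE hc hi (show 2 * π / 3 < π by linarith) hs (fun s h h' => ?_)
      (fun j hj s h => ?_)
    · have h2 := subH hq ((hH s (hs s h)).1 h')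
      exact not_lt.2 h2.2 h.1
    · fin_cases j
      · intro h'
        have h2 := (pe_iff sub0 (hs s h)).1 h'.1
        exact lt_asymm h2.2 h.1
      · intro h'
        have h2 := (pe_iff sub1 (hs s h)).1 h'.1
        linarith [h2.2, h.1]
      · exact absurd rfl hj

end Pool.Agent.FBM
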