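import Pool.Agent.FBM.StmtC

/-!
# FBM, block C: from almost everywhere to everywhere
-/

open MeasureTheory Set Filter Topology
open scoped Real

namespace Pool.Agent.FBM

namespace COC_

/-- the good set -/
def EE (X : Fin 3 → ℝ → ℝ) : Set ℝ := {t | (∀ i, 0 ≤ X i t) ∧ ∑ i, X i t ^ 2 ≤ 1}

lemma meas_EE {X : Fin 3 → ℝ → ℝ} (h : ∀ i, Measurable (X i)) : MeasurableSet (EE X) := by
  have h1 : MeasurableSet {t | ∀ i, 0 ≤ X i t} := by
    have : {t | ∀ i, 0 ≤ X i t} = ⋂ i, {t | 0 ≤ X i t} := by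
      ext t
      simp
    rw [this]
    exact MeasurableSet.iInter fun i => measurableSet_le measurable_const (h i)
  have h2 : MeasurableSet {t | ∑ i, X i t ^ 2 ≤ 1} :=
    measurableSet_le (Finset.measurable_sum _ fun i _ => (h i).pow_const 2) measurable_const
  exact h1.inter h2

lemma per_EE {X : Fin 3 → ℝ → ℝ} (h : ∀ i, Function.Periodic (X i) (2 * π)) (t : ℝ) :
    t + 2 * π ∈ EE X ↔ t ∈ EE X := by
  have h1 : ∀ i, X i (t + 2 * π) = X i t := fun i => h i t
  unfold EE
  simp only [mem_ofPred_eq, h1]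

end COC_

theorem t_COC : Stmt_COC := by
  intro D hD X hX hnn hle
  have hmeas : ∀ i, Measurable (X i) := fun i => (hX.fe i).meas
  have hper : ∀ i, Function.Periodic (X i) (2 * π) := fun i => (hX.fe i).per
  have hE : ∀ᵐ t ∂cm, t ∈ COC_.EE X := by
    have h1 : ∀ᵐ t ∂cm, ∀ i, 0 ≤ X i t := ae_all_iff.2 hnn
    filter_upwards [h1, hle] with t h2 h3 using ⟨h2, h3⟩
  set Y : Fin 3 → ℝ → ℝ := fun i => (COC_.EE X \ D.Z i).indicator (X i) with hY
  have hYm : ∀ i, Measurable (Y i) := fun i =>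
    (hmeas i).indicator ((COC_.meas_EE hmeas).diff (hD.tZ i).meas)
  have hYp : ∀ i, Function.Periodic (Y i) (2 * π) := by
    intro i t
    have h1 : t + 2 * π ∈ COC_.EE X \ D.Z i ↔ t ∈ COC_.EE X \ D.Z i := by
      rw [Set.mem_sdiff, Set.mem_sdiff, COC_.per_EE hper, (hD.tZ i).per]
    rw [hY]
    by_cases h2 : t ∈ COC_.EE X \ D.Z i
    · simp only [indicator_of_mem h2, indicator_of_mem (h1.2 h2)]
      exact hper i t
    · simp only [indicator_of_notMem h2, indicator_of_notMem (fun h3 => h2 (h1.1 h3))]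
  have hYnn : ∀ i t, 0 ≤ Y i t := by
    intro i t
    exact indicator_apply_nonneg fun h => h.1.1 i
  have hYsq : ∀ t, ∑ i, Y i t ^ 2 ≤ 1 := by
    intro t
    by_cases ht : t ∈ COC_.EE X
    · refine le_trans (Finset.sum_le_sum fun i _ => ?_) ht.2
      by_cases h2 : t ∈ D.Z i
      · have : Y i t = 0 := by
          rw [hY]
          exact indicator_of_notMem (fun h3 => h3.2 h2) _
        rw [this, zero_pow two_ne_zero]
        exact sq_nonneg _
      · have : Y i t = X i t := by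
          have h5 : t ∈ COC_.EE X \ D.Z i := ⟨ht, h2⟩
          exact indicator_of_mem h5 _
        rw [this]
    · have : ∀ i, Y i t = 0 := by
        intro i
        rw [hY]
        exact indicator_of_notMem (fun h3 => ht h3.1) _
      simp [this]
  have hYX : ∀ i, ∀ᵐ t ∂cm, Y i t = X i t := by
    intro i
    filter_upwards [hE, hX.zero i] with t h1 h2
    by_cases h3 : t ∈ D.Z i
    · rw [h2 h3, hY]
      exact indicator_of_notMem (fun h4 => h4.2 h3) _
    · have h5 : t ∈ COC_.EE X \ D.Z i := ⟨h1, h3⟩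
      exact indicator_of_mem h5 _
  have hZ : ∀ i, ∀ t ∈ D.Z i, Y i t = 0 := by
    intro i t ht
    rw [hY]
    exact indicator_of_notMem (fun h4 => h4.2 ht) _
  refine ⟨Y, ?_, hYX⟩
  refine ⟨⟨?_, ?_, ?_⟩, hYnn, hYsq, hZ⟩
  · intro i
    refine FE.congr (hX.fe i) (hYm i) (hYp i) ⟨1, fun t => ?_⟩ ?_
    · have h1 : Y i t ^ 2 ≤ 1 :=
        (Finset.single_le_sum (f := fun j => Y j t ^ 2) (fun j _ => sq_nonneg _)
          (Finset.mem_univ i)).trans (hYsq t)
      rw [abs_le]
      constructor <;> nlinarith [hYnn i t]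
    · filter_upwards [hYX i] with t ht using ht.symm
  · intro i
    exact ae_of_all _ fun t ht => hZ i t ht
  · filter_upwards [ae_all_iff.2 hYX, hX.one] with t h1 h2 h3
    rw [← h2 h3]
    exact Finset.sum_congr rfl fun i _ => by rw [h1 i]

end Pool.Agent.FBM
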