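import Pool.Agent.FBM.StmtC
import Pool.Agent.FBM.A5
import Pool.Agent.FBM.B.BEX

/-!
# Module CON: one-sided limits of minimisers
-/

open MeasureTheory Set Filter Topology
open scoped Real

namespace Pool.Agent.FBM

namespace CON_

lemma bdd {f : ℝ → ℝ} (hf : Continuous f) (hp : Function.Periodic f (2 * π)) :
    ∃ C, 0 ≤ C ∧ ∀ t, |f t| ≤ C := by
  obtain ⟨C, hC⟩ := (hp.isBounded_of_continuous (by positivity) hf).exists_norm_le
  exact ⟨C, (norm_nonneg _).trans (hC (f 0) ⟨0, rfl⟩), fun t => hC (f t) ⟨t, rfl⟩⟩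

lemma fix {v τ : ℝ → ℝ} {s a : ℝ} (h : Inv v s τ) (ha : v a = 0) : τ a = a := by
  have := h.left a
  rwa [ha, mul_zero, add_zero] at this

lemma Qv_congr {v dv f f' : ℝ → ℝ} (h : ∀ᵐ t ∂cm, f t = f' t) :
    Qv v dv f f = Qv v dv f' f' := by
  unfold Qv
  congr 1
  refine integral_congr_ae ?_
  filter_upwards [ae_cm2_of_ae h] with p hp
  simp only [hp.1, hp.2]

/-- sign of the derivative from the comparison of energies -/
lemma sign {E e e' Q C s : ℝ} (hs : 0 < s) (hC : 0 ≤ C) (h1 : E ≤ e')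
    (h2 : e' ≤ e + s * Q + C * s ^ 2 * e) (h3 : e ≤ E) : 0 ≤ Q + C * s * E := by
  have h4 : C * s ^ 2 * e ≤ C * s ^ 2 * E := mul_le_mul_of_nonneg_left h3 (by positivity)
  have h5 : 0 ≤ s * (Q + C * s * E) := by nlinarith
  exact nonneg_of_mul_nonneg_right h5 hs

end CON_

open CON_ in
theorem t_CON (hR : Stmt_A_rellich) (hT : ∀ (m : ℕ), ∀ p ∈ Par m, (Dcfg m p.1 p.2).Tm)
    (hB : Stmt_B_ex) (hE : Stmt_B_emin) (hI : Stmt_CIV) (hP : Stmt_CPU) (hTR : Stmt_CTR)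
    (hCL : Stmt_CCL) (hST : Stmt_CST) (hOC : Stmt_COC) : Stmt_CON := by
  have hF : Stmt_A_fatou := fun _ _ _ hf hK hm hp hb hlim => fatou hf hm hp hb hK hlim
  intro m q hq hne hmax v dv hv
  obtain ⟨s₁, hs₁, h1⟩ := hI v dv hv.base
  obtain ⟨C, s₂, hs₂, hC, h2⟩ := hP v dv hv.base
  obtain ⟨s₃, hs₃, h3⟩ := hTR v dv hv
  obtain ⟨B, hB0, hBv⟩ := bdd (f := v)
    (continuous_iff_continuousAt.2 fun t => (hv.base.der t).continuousAt) hv.base.per
  obtain ⟨c, hc, hc1, hc2, hc3⟩ : ∃ c : ℝ, 0 < c ∧ c ≤ s₁ ∧ c ≤ s₂ ∧ c ≤ s₃ :=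
    ⟨min s₁ (min s₂ s₃), lt_min hs₁ (lt_min hs₂ hs₃), min_le_left _ _,
      (min_le_right _ _).trans (min_le_left _ _), (min_le_right _ _).trans (min_le_right _ _)⟩
  -- the parameters
  obtain ⟨s, hsdef⟩ : ∃ s : ℕ → ℝ, s = fun j : ℕ => c * (1 / ((j : ℝ) + 1)) := ⟨_, rfl⟩
  have hs0 : ∀ j, 0 < s j := fun j => by rw [hsdef]; positivity
  have hsc : ∀ j, |s j| ≤ c := fun j => by
    rw [abs_of_pos (hs0 j), hsdef]
    have h4 : 1 / ((j : ℝ) + 1) ≤ 1 := by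
      rw [div_le_one (by positivity)]
      have : (0 : ℝ) ≤ j := Nat.cast_nonneg j
      linarith
    calc c * (1 / ((j : ℝ) + 1)) ≤ c * 1 := mul_le_mul_of_nonneg_left h4 hc.le
      _ = c := mul_one c
  have hst : Tendsto s atTop (𝓝 0) := by
    rw [hsdef]
    have := (tendsto_one_div_add_atTop_nhds_zero_nat (𝕜 := ℝ)).const_mul c
    rwa [mul_zero] at this
  have h4 : ∀ j, ∃ τ, Inv v (s j) τ := fun j => (h1 (s j) ((hsc j).trans hc1)).1
  choose τ hτ using h4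
  have hτt : ∀ t, Tendsto (fun j => τ j t) atTop (𝓝 t) := by
    intro t
    have h5 : ∀ j, |τ j t - t| ≤ s j * B := by
      intro j
      have h6 := (hτ j).right t
      have h7 : τ j t - t = -(s j * v (τ j t)) := by linarith
      rw [h7, abs_neg, abs_mul, abs_of_pos (hs0 j)]
      exact mul_le_mul_of_nonneg_left (hBv _) (hs0 j).le
    have h8 : Tendsto (fun j => s j * B) atTop (𝓝 0) := by
      have := hst.mul_const B
      rwa [zero_mul] at this
    rw [tendsto_iff_norm_sub_tendsto_zero]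
    exact squeeze_zero (fun j => norm_nonneg _) h5 h8
  obtain ⟨p, hpdef⟩ : ∃ p : ℕ → (Fin m → ℝ) × (Fin m → ℝ),
      p = fun j => (fun k => τ j (q.1 k), fun k => τ j (q.2 k)) := ⟨_, rfl⟩
  have hp1 : ∀ j k, (p j).1 k = τ j (q.1 k) := fun j k => by rw [hpdef]
  have hp2 : ∀ j k, (p j).2 k = τ j (q.2 k) := fun j k => by rw [hpdef]
  have hpP : ∀ j, p j ∈ Par m := by
    intro j k
    rw [hp1, hp2]
    have e1 : τ j (2 * π / 3) = 2 * π / 3 := fix (hτ j) hv.c1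
    have e2 : τ j (-(2 * π / 3)) = -(2 * π / 3) := fix (hτ j) hv.c2
    obtain ⟨h5, h6, h7⟩ := hq k
    refine ⟨?_, (hτ j).mono.monotone h6, ?_⟩
    · rw [← e2]
      exact (hτ j).mono.monotone h5
    · rw [← e1]
      exact (hτ j).mono.monotone h7
  have hpt : Tendsto p atTop (𝓝 q) := by
    rw [hpdef, nhds_prod_eq]
    refine Tendsto.prodMk ?_ ?_
    · exact tendsto_pi_nhds.2 fun k => hτt _
    · exact tendsto_pi_nhds.2 fun k => hτt _
  have hpq : ∀ j, (fun k => (p j).1 k + s j * v ((p j).1 k),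
      fun k => (p j).2 k + s j * v ((p j).2 k)) = q := by
    intro j
    refine Prod.ext ?_ ?_
    · funext k
      change (p j).1 k + s j * v ((p j).1 k) = q.1 k
      rw [hp1]
      exact (hτ j).right _
    · funext k
      change (p j).2 k + s j * v ((p j).2 k) = q.2 k
      rw [hp2]
      exact (hτ j).right _
  -- the minimisers
  have h5 : ∀ j, ∃ Y, IsMin (Dcfg m (p j).1 (p j).2) Y := fun j =>
    hB _ (hT m _ (hpP j)) (hne _ (hpP j))
  choose Y hY using h5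
  obtain ⟨E, hEdef⟩ : ∃ E : ℝ, E = Emin (Dcfg m q.1 q.2) := ⟨_, rfl⟩
  have hYE : ∀ j, ven (Y j) (Y j) ≤ E := fun j => by
    rw [hE _ _ (hY j), hEdef]
    exact hmax _ (hpP j)
  have hadm : ∀ j, Adm (Dcfg m q.1 q.2) (fun i t => Y j i (τ j t)) := by
    intro j
    have h6 := ((h3 (s j) (τ j) ((hsc j).trans hc3) (hτ j)).2 m (p j) (hpP j) (Y j)
      (hY j).oct.adm).2
    have h7 := hpq j
    rw [← h7]
    exact h6
  have hQ : ∀ j, 0 ≤ QQv v dv (Y j) + C * s j * E := by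
    intro j
    refine sign (E := E) (e := ven (Y j) (Y j))
      (e' := ven (fun i t => Y j i (τ j t)) (fun i t => Y j i (τ j t))) (hs0 j) hC ?_ ?_ (hYE j)
    · rw [hEdef]
      exact BEX.emin_le (hadm j)
    · have h6 : ∀ i, en (fun t => Y j i (τ j t)) (fun t => Y j i (τ j t)) ≤
          en (Y j i) (Y j i) + s j * Qv v dv (Y j i) (Y j i)
            + C * s j ^ 2 * en (Y j i) (Y j i) := by
        intro i
        have := (abs_le.1 ((h2 (s j) (τ j) ((hsc j).trans hc2) (hτ j) (Y j i)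
          ((hY j).oct.fe i)).2)).2
        linarith
      have h7 : ven (fun i t => Y j i (τ j t)) (fun i t => Y j i (τ j t)) ≤
          ∑ i, (en (Y j i) (Y j i) + s j * Qv v dv (Y j i) (Y j i)
            + C * s j ^ 2 * en (Y j i) (Y j i)) := Finset.sum_le_sum fun i _ => h6 i
      rw [Finset.sum_add_distrib, Finset.sum_add_distrib, ← Finset.mul_sum,
        ← Finset.mul_sum] at h7
      exact h7
  -- compactness
  have hcomp : ∀ k i, en (Y k i) (Y k i) ≤ E := fun k i =>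
    (Finset.single_le_sum (f := fun j => en (Y k j) (Y k j)) (fun j _ => en_self_nonneg _)
      (Finset.mem_univ i)).trans (hYE k)
  obtain ⟨φ₀, g₀, e₀, hφ₀, hg₀, ha₀, he₀, hle₀⟩ := BEX.step hF hR (fun k => Y k 0) E
    (fun k => (hY k).oct.fe 0) (fun k t => (hY k).oct.abs_le 0 t) (fun k => hcomp k 0)
  obtain ⟨φ₁, g₁, e₁, hφ₁, hg₁, ha₁, he₁, hle₁⟩ := BEX.step hF hR (fun k => Y (φ₀ k) 1) E
    (fun k => (hY _).oct.fe 1) (fun k t => (hY _).oct.abs_le 1 t) (fun k => hcomp _ 1)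
  obtain ⟨φ₂, g₂, e₂, hφ₂, hg₂, ha₂, he₂, hle₂⟩ := BEX.step hF hR (fun k => Y (φ₀ (φ₁ k)) 2)
    E (fun k => (hY _).oct.fe 2) (fun k t => (hY _).oct.abs_le 2 t) (fun k => hcomp _ 2)
  obtain ⟨ψ, hψ⟩ : ∃ ψ : ℕ → ℕ, ψ = fun k => φ₀ (φ₁ (φ₂ k)) := ⟨_, rfl⟩
  have hψm : StrictMono ψ := by rw [hψ]; exact hφ₀.comp (hφ₁.comp hφ₂)
  have hψt : Tendsto ψ atTop atTop := hψm.tendsto_atTop
  obtain ⟨g, hgdef⟩ : ∃ g : Fin 3 → ℝ → ℝ, g = ![g₀, g₁, g₂] := ⟨_, rfl⟩
  have hgfe : ∀ i, FE (g i) := by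
    intro i
    rw [hgdef]
    fin_cases i
    · exact hg₀
    · exact hg₁
    · exact hg₂
  have hae : ∀ i, ∀ᵐ t ∂cm, Tendsto (fun k => Y (ψ k) i t) atTop (𝓝 (g i t)) := by
    intro i
    rw [hgdef, hψ]
    fin_cases i
    · filter_upwards [ha₀] with t ht
      exact ht.comp (hφ₁.tendsto_atTop.comp hφ₂.tendsto_atTop)
    · filter_upwards [ha₁] with t ht
      exact ht.comp hφ₂.tendsto_atTop
    · exact ha₂
  have hven : Tendsto (fun k => ven (Y (ψ k)) (Y (ψ k))) atTop (𝓝 (e₀ + e₁ + e₂)) := by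
    have hd : ∀ k, ven (Y (ψ k)) (Y (ψ k)) = en (Y (ψ k) 0) (Y (ψ k) 0)
        + en (Y (ψ k) 1) (Y (ψ k) 1) + en (Y (ψ k) 2) (Y (ψ k) 2) := fun k => ven_eq _ _
    simp only [hd]
    rw [hψ]
    exact ((he₀.comp (hφ₁.tendsto_atTop.comp hφ₂.tendsto_atTop)).add
      (he₁.comp hφ₂.tendsto_atTop)).add he₂
  have hlim : e₀ + e₁ + e₂ ≤ E := le_of_tendsto' hven fun k => hYE (ψ k)
  have hgv : ven g g ≤ E := by
    rw [ven_eq, hgdef]
    exact (add_le_add (add_le_add hle₀ hle₁) hle₂).trans hlim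
  -- the limit
  have hgA : Adm (Dcfg m q.1 q.2) g :=
    hCL m (fun j => p (ψ j)) q (hpt.comp hψt) (fun j => Y (ψ j)) g
      (fun j => (hY (ψ j)).oct.adm) hgfe hae
  have hEg : E ≤ ven g g := by
    rw [hEdef]
    exact BEX.emin_le hgA
  have hQlim : Tendsto (fun j => QQv v dv (Y (ψ j))) atTop (𝓝 (QQv v dv g)) :=
    hST (fun j => Y (ψ j)) g (fun j i => (hY (ψ j)).oct.fe i) hgfe
      (fun j i t => (hY (ψ j)).oct.abs_le i t) hae (fun j => (hYE (ψ j)).trans hEg) v dv hv.base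
  have hQg : 0 ≤ QQv v dv g := by
    have h6 : Tendsto (fun j => QQv v dv (Y (ψ j)) + C * s (ψ j) * E) atTop
        (𝓝 (QQv v dv g + C * 0 * E)) :=
      hQlim.add (((hst.comp hψt).const_mul C).mul_const E)
    rw [mul_zero, zero_mul, add_zero] at h6
    exact ge_of_tendsto' h6 fun j => hQ (ψ j)
  -- from almost everywhere to everywhere
  have hg0 : ∀ i, ∀ᵐ t ∂cm, 0 ≤ g i t := fun i => by
    filter_upwards [hae i] with t ht
    exact ge_of_tendsto' ht fun k => (hY (ψ k)).oct.nonneg i t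
  have hg1 : ∀ᵐ t ∂cm, ∑ i, g i t ^ 2 ≤ 1 := by
    filter_upwards [ae_all_iff.2 hae] with t ht
    exact le_of_tendsto' (tendsto_finsetSum _ fun i _ => (ht i).pow 2)
      fun k => (hY (ψ k)).oct.le_one t
  obtain ⟨X, hX, hXg⟩ := hOC _ (hT m q hq) g hgA hg0 hg1
  refine ⟨X, ⟨hX, fun Z hZ => ?_⟩, ?_⟩
  · have h6 : ven X X = ven g g :=
      Finset.sum_congr rfl fun i _ => en_congr (hXg i) (hXg i)
    rw [h6]
    refine hgv.trans ?_
    rw [hEdef]
    exact BEX.emin_le hZ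
  · have h6 : QQv v dv X = QQv v dv g :=
      Finset.sum_congr rfl fun i _ => Qv_congr (hXg i)
    rw [h6]
    exact hQg

end Pool.Agent.FBM
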