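import Pool.Agent.FBM.StmtC
import Pool.Agent.FBM.D.DCB
import Pool.Agent.FBM.D.DPK

/-!
# CPB: the bound of the derivative for stationary minimisers
-/

open MeasureTheory Set Filter Topology
open scoped Real

namespace Pool.Agent.FBM

namespace CPB_

theorem bound (hR : Stmt_DHR) (hT : Stmt_DDT) {D : Dat} {X : Fin 3 → ℝ → ℝ} {lam : ℝ → ℝ}
    {T : Fin 3 → ℝ → ℝ} (hX : EL D X lam T)
    (hconf : ∀ z : ℂ, ‖z‖ < 1 → ∑ i, (deriv (hz (X i)) z) ^ 2 = 0) (z : ℂ) (hz1 : ‖z‖ < 1)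
    (i : Fin 3) :
    ‖z * deriv (hz (X i)) z‖ ≤ Real.sqrt 2 * (hz (fun t => ∑ j, |T j t|) z).re := by
  have hint := hX.T_int
  have hh : ∀ j, z * deriv (hz (X j)) z = hz (T j) z := fun j =>
    hT (X j) (T j) (hX.oct.adm.fe j) (hint j) (fun g hg => hX.weak j g hg) z hz1
  have hsum : ∑ j, (hz (T j) z) ^ 2 = 0 := by
    have h := hconf z hz1
    calc ∑ j, (hz (T j) z) ^ 2 = ∑ j, z ^ 2 * (deriv (hz (X j)) z) ^ 2 := by
          refine Finset.sum_congr rfl fun j _ => ?_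
          rw [← hh j, mul_pow]
      _ = 0 := by rw [← Finset.mul_sum, h, mul_zero]
  have hre : ∑ j, ((hz (T j) z).re ^ 2 - (hz (T j) z).im ^ 2) = 0 := by
    have h := congrArg Complex.re hsum
    rw [Complex.re_sum, Complex.zero_re] at h
    rw [← h]
    refine Finset.sum_congr rfl fun j _ => ?_
    rw [sq (hz (T j) z), Complex.mul_re]
    ring
  rw [hh i, DCB.sum_re t_DPK hR hint hz1]
  have hle : ∀ j, |(hz (T j) z).re| ≤ (hz (fun t => |T j t|) z).re := fun j =>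
    DCB.abs_re t_DPK hR (hint j) hz1
  set S := ∑ j, |(hz (T j) z).re| with hS
  have hS0 : 0 ≤ S := Finset.sum_nonneg fun j _ => abs_nonneg _
  have hS1 : S ≤ ∑ j, (hz (fun t => |T j t|) z).re := Finset.sum_le_sum fun j _ => hle j
  have h1 : ‖hz (T i) z‖ ^ 2 ≤ ∑ j, ‖hz (T j) z‖ ^ 2 :=
    Finset.single_le_sum (f := fun j => ‖hz (T j) z‖ ^ 2) (fun j _ => sq_nonneg _)
      (Finset.mem_univ i)
  have h2 : ∑ j, ‖hz (T j) z‖ ^ 2 = 2 * ∑ j, (hz (T j) z).re ^ 2 := by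
    have h3 : ∀ j, ‖hz (T j) z‖ ^ 2 = (hz (T j) z).re ^ 2 + (hz (T j) z).im ^ 2 := by
      intro j
      rw [← Complex.normSq_eq_norm_sq, Complex.normSq_apply]
      ring
    simp_rw [h3]
    rw [Finset.sum_add_distrib]
    rw [Finset.sum_sub_distrib] at hre
    linarith
  have h3 : ∑ j, (hz (T j) z).re ^ 2 ≤ S ^ 2 := by
    have h4 : ∀ j ∈ Finset.univ, (hz (T j) z).re ^ 2 ≤ |(hz (T j) z).re| * S := by
      intro j _
      rw [← sq_abs, sq]
      refine mul_le_mul_of_nonneg_left ?_ (abs_nonneg _)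
      exact Finset.single_le_sum (f := fun j => |(hz (T j) z).re|) (fun j _ => abs_nonneg _)
        (Finset.mem_univ j)
    refine (Finset.sum_le_sum h4).trans (le_of_eq ?_)
    rw [← Finset.sum_mul, sq]
  have h5 : ‖hz (T i) z‖ ≤ Real.sqrt 2 * S := by
    refine abs_le_of_sq_le_sq' ?_ (by positivity) |>.2
    rw [mul_pow, Real.sq_sqrt (by norm_num : (0 : ℝ) ≤ 2)]
    linarith
  exact h5.trans (mul_le_mul_of_nonneg_left hS1 (Real.sqrt_nonneg 2))

end CPB_

theorem t_CPB (hR : Stmt_DHR) (hT : Stmt_DDT) : Stmt_CPB := by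
  intro D X lam T hE hconf i
  refine
    { meas := (hE.oct.adm.fe i).meas
      per := (hE.oct.adm.fe i).per
      bdd := (hE.oct.adm.fe i).bdd
      per' := ?_
      int := integrable_finsetSum _ fun j _ => (hE.T_int j).abs
      nonneg := fun t => Finset.sum_nonneg fun j _ => abs_nonneg _
      pos := Real.sqrt_nonneg 2
      le := fun z hz1 => CPB_.bound hR hT hE hconf z hz1 i }
  intro t
  refine Finset.sum_congr rfl fun j _ => ?_
  rw [hE.T_per j t]

end Pool.Agent.FBM
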