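import Pool.Agent.FBM.StmtC1

/-!
# Module FBM_CPO: Poincaré inequality on fine configurations
-/

open MeasureTheory Set Filter Topology
open scoped Real

namespace Pool.Agent.FBM.CPO

/-- lower bound of the kernel near the diagonal -/
theorem J_lower {s t δ : ℝ} (hδ1 : δ ≤ 1) (hst : |t - s| ≤ δ) (hne : t ≠ s) :
    1 / δ ^ 2 ≤ J s t := by
  unfold J
  have hπ3 := Real.pi_gt_three
  have h1 : |Real.sin ((s - t) / 2)| ≤ |(s - t) / 2| := Real.abs_sin_le_abs
  have h2 : |s - t| ≤ δ := by rw [abs_sub_comm]; exact hst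
  have h3 : Real.sin ((s - t) / 2) ≠ 0 := by
    intro h0
    have habs := abs_le.1 h2
    have h4 := (Real.sin_eq_zero_iff_of_lt_of_lt (by linarith) (by linarith)).1 h0
    apply hne
    linarith
  have h4 : 4 * Real.sin ((s - t) / 2) ^ 2 ≤ δ ^ 2 := by
    have h5 : Real.sin ((s - t) / 2) ^ 2 ≤ ((s - t) / 2) ^ 2 := sq_le_sq.2 h1
    have h6 : (s - t) ^ 2 ≤ δ ^ 2 := by
      rw [← sq_abs (s - t)]
      exact pow_le_pow_left₀ (abs_nonneg _) h2 2
    nlinarith
  have h5 : 0 < 4 * Real.sin ((s - t) / 2) ^ 2 := by positivity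
  exact one_div_le_one_div_of_le h5 h4

end Pool.Agent.FBM.CPO

namespace Pool.Agent.FBM

open CPO in
theorem t_CPO : Stmt_CPO := by
  intro f a b δ hf hδ hδ1 ha hb hc
  have hπ3 := Real.pi_gt_three
  have hint : Integrable (fun p : ℝ × ℝ => J p.1 p.2 * (f p.1 - f p.2) ^ 2) (cm.prod cm) := hf.fin
  have h1 : ∀ᵐ s ∂cm, Integrable (fun t => J s t * (f s - f t) ^ 2) cm := hint.prod_right_ae
  have h2 : Integrable (fun s => ∫ t, J s t * (f s - f t) ^ 2 ∂cm) cm := hint.integral_prod_left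
  have hG0 : ∀ s, 0 ≤ ∫ t, J s t * (f s - f t) ^ 2 ∂cm := fun s =>
    integral_nonneg fun t => mul_nonneg (J_nonneg _ _) (sq_nonneg _)
  have h3 : ∀ᵐ s ∂cm, s ∈ Ioo a b → f s ^ 2 ≤ 2 * δ * ∫ t, J s t * (f s - f t) ^ 2 ∂cm := by
    filter_upwards [h1] with s hs hsab
    obtain ⟨c, hc1, hc2⟩ := hc s hsab
    have hsub : Ioo c (c + δ / 2) ⊆ Ioc (-π) π := by
      intro t ht
      have h4 := abs_le.1 (hc1 t ht.1 ht.2)
      constructor
      · linarith [hsab.1]
      · linarith [hsab.2]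
    have hs' : IntegrableOn (fun t => J s t * (f s - f t) ^ 2) (Ioc (-π) π) := hs
    have e1 : ∫ t in Ioo c (c + δ / 2), (1 / δ ^ 2) * f s ^ 2 = f s ^ 2 / (2 * δ) := by
      rw [setIntegral_const, Real.volume_real_Ioo_of_le (by linarith), smul_eq_mul]
      field_simp
      ring
    have e2 : ∫ t in Ioo c (c + δ / 2), (1 / δ ^ 2) * f s ^ 2 ≤
        ∫ t in Ioo c (c + δ / 2), J s t * (f s - f t) ^ 2 := by
      refine setIntegral_mono_ae_restrict ?_ (hs'.mono_set hsub) ?_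
      · exact integrableOn_const (by simp)
      · have hne : ∀ᵐ t : ℝ, t ≠ s := by
          rw [ae_iff]
          simp
        filter_upwards [ae_restrict_mem measurableSet_Ioo, ae_restrict_of_ae hc2,
          ae_restrict_of_ae hne] with t ht htz hts
        rw [htz ht.1 ht.2, sub_zero]
        exact mul_le_mul_of_nonneg_right (J_lower hδ1 (hc1 t ht.1 ht.2) hts) (sq_nonneg _)
    have e3 : ∫ t in Ioo c (c + δ / 2), J s t * (f s - f t) ^ 2 ≤
        ∫ t, J s t * (f s - f t) ^ 2 ∂cm := by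
      refine setIntegral_mono_set hs' ?_ (LE.le.eventuallyLE hsub)
      exact Eventually.of_forall fun t => mul_nonneg (J_nonneg _ _) (sq_nonneg _)
    have e4 : f s ^ 2 / (2 * δ) ≤ ∫ t, J s t * (f s - f t) ^ 2 ∂cm := e1 ▸ (e2.trans e3)
    rw [div_le_iff₀ (by positivity)] at e4
    linarith
  have hsub : Ioo a b ⊆ Ioc (-π) π := by
    intro t ht
    exact ⟨by linarith [ht.1], by linarith [ht.2]⟩
  have h3' : ∀ᵐ s ∂(volume.restrict (Ioo a b)),
      f s ^ 2 ≤ 2 * δ * ∫ t, J s t * (f s - f t) ^ 2 ∂cm := by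
    have h5 : ∀ᵐ s ∂(volume.restrict (Ioo a b)),
        s ∈ Ioo a b → f s ^ 2 ≤ 2 * δ * ∫ t, J s t * (f s - f t) ^ 2 ∂cm :=
      ae_restrict_of_ae_restrict_of_subset hsub h3
    filter_upwards [h5, ae_restrict_mem measurableSet_Ioo] with s hs hm using hs hm
  have h2' : IntegrableOn (fun s => 2 * δ * ∫ t, J s t * (f s - f t) ^ 2 ∂cm) (Ioc (-π) π) :=
    h2.const_mul _
  have hfi : IntegrableOn (fun s => f s ^ 2) (Ioo a b) := by
    obtain ⟨C, hC⟩ := hf.bdd
    refine Integrable.of_bound (hf.meas.pow_const 2).aestronglyMeasurable (C ^ 2)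
      (Eventually.of_forall fun t => ?_)
    rw [Real.norm_eq_abs, abs_of_nonneg (sq_nonneg _), ← sq_abs]
    exact pow_le_pow_left₀ (abs_nonneg _) (hC t) 2
  have h4 : ∫ s in Ioo a b, f s ^ 2 ≤
      ∫ s in Ioo a b, 2 * δ * ∫ t, J s t * (f s - f t) ^ 2 ∂cm :=
    setIntegral_mono_ae_restrict hfi (h2'.mono_set hsub) h3'
  have h5 : ∫ s in Ioo a b, 2 * δ * ∫ t, J s t * (f s - f t) ^ 2 ∂cm ≤
      ∫ s, 2 * δ * ∫ t, J s t * (f s - f t) ^ 2 ∂cm ∂cm := by
    refine setIntegral_mono_set h2' ?_ (LE.le.eventuallyLE hsub)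
    exact Eventually.of_forall fun s => mul_nonneg (by linarith) (hG0 s)
  have h6 : ∫ s, 2 * δ * ∫ t, J s t * (f s - f t) ^ 2 ∂cm ∂cm = 4 * π * δ * en f f := by
    rw [integral_const_mul]
    unfold en cm2
    rw [integral_prod _ (by simpa [pow_two] using hint)]
    have e : ∀ s t : ℝ, J s t * (f s - f t) ^ 2 = J s t * ((f s - f t) * (f s - f t)) := by
      intro s t
      ring
    simp only [e]
    field_simp
    ring
  linarith

end Pool.Agent.FBM
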