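import Pool.Agent.FBM.StmtC
import Pool.Agent.FBM.B0

/-!
# FBM, module CPU: the energy of the transported function
-/

open MeasureTheory Set Filter Topology
open scoped Real

namespace Pool.Agent.FBM

namespace CPU_

theorem dv_bdd {v dv : ℝ → ℝ} (h : VF0 v dv) : ∃ M : ℝ, 0 ≤ M ∧ ∀ t, |dv t| ≤ M := by
  obtain ⟨M, hM⟩ := (isCompact_Icc (a := (0 : ℝ)) (b := 2 * π)).exists_bound_of_continuousOn
    h.cont.continuousOn
  refine ⟨|M|, abs_nonneg _, fun t => ?_⟩
  obtain ⟨s, hs, hst⟩ := h.per'.exists_mem_Ico₀ (by positivity) t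
  rw [hst]
  exact (hM s ⟨hs.1, hs.2.le⟩).trans (le_abs_self M)

/-- the density of the transported energy -/
noncomputable def GG (v dv : ℝ → ℝ) (s : ℝ) (f : ℝ → ℝ) (p : ℝ × ℝ) : ℝ :=
  J (p.1 + s * v p.1) (p.2 + s * v p.2) * ((1 + s * dv p.1) * (1 + s * dv p.2))
    * (f p.1 - f p.2) ^ 2

theorem v_cont {v dv : ℝ → ℝ} (h : VF0 v dv) : Continuous v :=
  continuous_iff_continuousAt.2 fun t => (h.der t).continuousAt

theorem JJ_meas {g : ℝ → ℝ} (hg : Measurable g) :
    Measurable fun p : ℝ × ℝ => J (g p.1) (g p.2) := by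
  have h2 : Measurable fun p : ℝ × ℝ => (g p.1, g p.2) :=
    (hg.comp measurable_fst).prodMk (hg.comp measurable_snd)
  have h3 := Measurable.comp (g := fun p : ℝ × ℝ => J p.1 p.2) (f := fun p : ℝ × ℝ => (g p.1, g p.2))
    measurable_J h2
  exact h3

theorem psi_meas {v dv : ℝ → ℝ} (h : VF0 v dv) (s : ℝ) : Measurable fun t => t + s * v t :=
  measurable_id.add ((v_cont h).measurable.const_mul s)

theorem w_meas {v dv : ℝ → ℝ} (h : VF0 v dv) (s : ℝ) :
    Measurable fun p : ℝ × ℝ => (1 + s * dv p.1) * (1 + s * dv p.2) := by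
  have h1 : Measurable fun t => 1 + s * dv t := (h.cont.measurable.const_mul s).const_add 1
  exact (h1.comp measurable_fst).mul (h1.comp measurable_snd)

theorem GG_meas {v dv : ℝ → ℝ} (h : VF0 v dv) (s : ℝ) {f : ℝ → ℝ} (hf : FE f) :
    Measurable (GG v dv s f) := by
  have h1 : Measurable fun p : ℝ × ℝ => J (p.1 + s * v p.1) (p.2 + s * v p.2) :=
    JJ_meas (g := fun t => t + s * v t) (psi_meas h s)
  have h2 := (h1.mul (w_meas h s)).mul (hf.ddmeas.pow_const 2)
  exact h2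

theorem main {v dv : ℝ → ℝ} (h : VF0 v dv) {C s : ℝ} {τ : ℝ → ℝ} (hC : Stmt_CCV)
    (hkey : ∀ a b, Real.sin ((a - b) / 2) ≠ 0 →
    |J (a + s * v a) (b + s * v b) * ((1 + s * dv a) * (1 + s * dv b))
      - J a b * (1 + s * kv v dv a b)| ≤ C * s ^ 2 * J a b)
    (hpos : ∀ t, 0 < 1 + s * dv t) (hτ : Inv v s τ) {f : ℝ → ℝ} (hf : FE f)
    (hKi : Integrable (fun p : ℝ × ℝ => J p.1 p.2 * kv v dv p.1 p.2 *
      ((f p.1 - f p.2) * (f p.1 - f p.2))) cm2) :
    FE (fun t => f (τ t)) ∧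
    |en (fun t => f (τ t)) (fun t => f (τ t)) - en f f - s * Qv v dv f f| ≤ C * s ^ 2 * en f f := by
  set K : ℝ × ℝ → ℝ := fun p => J p.1 p.2 * kv v dv p.1 p.2 *
      ((f p.1 - f p.2) * (f p.1 - f p.2)) with hK
  set E : ℝ × ℝ → ℝ := fun p => J p.1 p.2 * (f p.1 - f p.2) ^ 2 with hE
  have hEi : Integrable E cm2 := hf.fin
  have hae : ∀ᵐ p ∂cm2, |GG v dv s f p - (E p + s * K p)| ≤ C * s ^ 2 * E p := by
    filter_upwards [cm2_offdiag] with p hp
    have h1 := hkey p.1 p.2 hp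
    have h2 : GG v dv s f p - (E p + s * K p) =
        (J (p.1 + s * v p.1) (p.2 + s * v p.2) * ((1 + s * dv p.1) * (1 + s * dv p.2))
          - J p.1 p.2 * (1 + s * kv v dv p.1 p.2)) * (f p.1 - f p.2) ^ 2 := by
      simp only [GG, hE, hK]
      ring
    rw [h2, abs_mul, abs_of_nonneg (sq_nonneg (f p.1 - f p.2))]
    have h3 := mul_le_mul_of_nonneg_right h1 (sq_nonneg (f p.1 - f p.2))
    calc _ ≤ C * s ^ 2 * J p.1 p.2 * (f p.1 - f p.2) ^ 2 := h3
      _ = C * s ^ 2 * E p := by simp only [hE]; ring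
  have hGi : Integrable (GG v dv s f) cm2 := by
    have h1 : Integrable (fun p => |E p + s * K p| + C * s ^ 2 * E p) cm2 :=
      ((hEi.add (hKi.const_mul s)).abs).add (hEi.const_mul _)
    refine h1.mono' (GG_meas h s hf).aestronglyMeasurable ?_
    filter_upwards [hae] with p hp
    rw [Real.norm_eq_abs]
    have h2 : |GG v dv s f p| ≤ |E p + s * K p| + |GG v dv s f p - (E p + s * K p)| := by
      have := abs_add_le (E p + s * K p) (GG v dv s f p - (E p + s * K p))
      have e : E p + s * K p + (GG v dv s f p - (E p + s * K p)) = GG v dv s f p := by ring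
      rwa [e] at this
    linarith
  have hG0 : ∀ p, 0 ≤ GG v dv s f p := fun p => by
    unfold GG
    have h1 := hpos p.1
    have h2 := hpos p.2
    have h3 := J_nonneg (p.1 + s * v p.1) (p.2 + s * v p.2)
    positivity
  -- the transported density
  set H : ℝ × ℝ → ℝ := fun p => J p.1 p.2 * (f (τ p.1) - f (τ p.2)) ^ 2 with hH
  have hHm : Measurable H := by
    have h1 : Measurable fun p : ℝ × ℝ => f (τ p.1) - f (τ p.2) := by
      have h2 : Measurable fun t => f (τ t) := hf.meas.comp hτ.cont.measurable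
      have h3 : Measurable fun p : ℝ × ℝ => f (τ p.1) := h2.comp measurable_fst
      have h4 : Measurable fun p : ℝ × ℝ => f (τ p.2) := h2.comp measurable_snd
      exact h3.sub h4
    exact measurable_J.mul (h1.pow_const 2)
  have hH0 : ∀ p, 0 ≤ H p := fun p => mul_nonneg (J_nonneg _ _) (sq_nonneg _)
  have hlint : ∫⁻ p, ENNReal.ofReal (H p) ∂cm2 = ∫⁻ p, ENNReal.ofReal (GG v dv s f p) ∂cm2 := by
    let F : ℝ × ℝ → ENNReal := fun p => ENNReal.ofReal
      (J (p.1 + s * v p.1) (p.2 + s * v p.2) * (f p.1 - f p.2) ^ 2)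
    have hFm : Measurable F := by
      have h1 : Measurable fun p : ℝ × ℝ => J (p.1 + s * v p.1) (p.2 + s * v p.2) :=
        JJ_meas (g := fun t => t + s * v t) (psi_meas h s)
      exact (h1.mul (hf.ddmeas.pow_const 2)).ennreal_ofReal
    have hF1 : ∀ a b, F (a + 2 * π, b) = F (a, b) := by
      intro a b
      simp only [F]
      have e : a + 2 * π + s * v (a + 2 * π) = (a + s * v a) + 2 * π := by
        rw [h.per a]; ring
      rw [e, J_add_left, hf.per a]
    have hF2 : ∀ a b, F (a, b + 2 * π) = F (a, b) := by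
      intro a b
      simp only [F]
      have e : b + 2 * π + s * v (b + 2 * π) = (b + s * v b) + 2 * π := by
        rw [h.per b]; ring
      rw [e, J_add_right, hf.per b]
    have h1 := hC v dv s τ h hτ hpos F hFm hF1 hF2
    have h2 : ∀ p : ℝ × ℝ, F (τ p.1, τ p.2) = ENNReal.ofReal (H p) := by
      intro p
      simp only [F, hH, hτ.right]
    have h3 : ∀ p : ℝ × ℝ, F p * ENNReal.ofReal ((1 + s * dv p.1) * (1 + s * dv p.2)) =
        ENNReal.ofReal (GG v dv s f p) := by
      intro p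
      simp only [F]
      rw [← ENNReal.ofReal_mul (mul_nonneg (J_nonneg _ _) (sq_nonneg _))]
      congr 1
      unfold GG
      ring
    simp only [h2, h3] at h1
    exact h1
  have hGl : ∫⁻ p, ENNReal.ofReal (GG v dv s f p) ∂cm2 ≠ ⊤ := by
    have h1 := hGi.2
    rw [hasFiniteIntegral_iff_ofReal (Eventually.of_forall hG0)] at h1
    exact h1.ne
  have hHi : Integrable H cm2 := by
    refine ⟨hHm.aestronglyMeasurable, ?_⟩
    rw [hasFiniteIntegral_iff_ofReal (Eventually.of_forall hH0), hlint]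
    exact lt_top_iff_ne_top.2 hGl
  have hHG : ∫ p, H p ∂cm2 = ∫ p, GG v dv s f p ∂cm2 := by
    rw [integral_eq_lintegral_of_nonneg_ae (Eventually.of_forall hH0) hHm.aestronglyMeasurable,
      integral_eq_lintegral_of_nonneg_ae (Eventually.of_forall hG0)
        (GG_meas h s hf).aestronglyMeasurable, hlint]
  have hFE : FE (fun t => f (τ t)) := by
    refine ⟨hf.meas.comp hτ.cont.measurable, ?_, ?_, hHi⟩
    · intro t
      simp only
      rw [hτ.per, hf.per]
    · obtain ⟨B, hB⟩ := hf.bdd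
      exact ⟨B, fun t => hB _⟩
  refine ⟨hFE, ?_⟩
  have he1 : en (fun t => f (τ t)) (fun t => f (τ t)) = (1 / (2 * π)) * ∫ p, GG v dv s f p ∂cm2 := by
    rw [← hHG]
    unfold en
    congr 1
    refine integral_congr_ae (Eventually.of_forall fun p => ?_)
    simp only [hH]
    ring
  have he2 : en f f = (1 / (2 * π)) * ∫ p, E p ∂cm2 := by
    unfold en
    congr 1
    refine integral_congr_ae (Eventually.of_forall fun p => ?_)
    simp only [hE]
    ring
  have he3 : Qv v dv f f = (1 / (2 * π)) * ∫ p, K p ∂cm2 := rfl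
  have hsum : ∫ p, (GG v dv s f p - (E p + s * K p)) ∂cm2 =
      ∫ p, GG v dv s f p ∂cm2 - (∫ p, E p ∂cm2 + s * ∫ p, K p ∂cm2) := by
    have hs1 : Integrable (fun p => E p + s * K p) cm2 := hEi.add (hKi.const_mul s)
    rw [integral_sub hGi hs1, integral_add hEi (hKi.const_mul s), integral_const_mul]
  have hb : |∫ p, (GG v dv s f p - (E p + s * K p)) ∂cm2| ≤ C * s ^ 2 * ∫ p, E p ∂cm2 := by
    rw [← integral_const_mul, ← Real.norm_eq_abs]
    refine norm_integral_le_of_norm_le (hEi.const_mul _) ?_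
    filter_upwards [hae] with p hp
    exact hp
  rw [he1, he2, he3]
  have hpi : 0 < 1 / (2 * π) := by positivity
  have e : 1 / (2 * π) * ∫ p, GG v dv s f p ∂cm2 - 1 / (2 * π) * ∫ p, E p ∂cm2
      - s * (1 / (2 * π) * ∫ p, K p ∂cm2) =
      (1 / (2 * π)) * ∫ p, (GG v dv s f p - (E p + s * K p)) ∂cm2 := by
    rw [hsum]
    ring
  rw [e, abs_mul, abs_of_pos hpi]
  calc 1 / (2 * π) * |∫ p, (GG v dv s f p - (E p + s * K p)) ∂cm2|
      ≤ 1 / (2 * π) * (C * s ^ 2 * ∫ p, E p ∂cm2) := mul_le_mul_of_nonneg_left hb hpi.le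
    _ = C * s ^ 2 * (1 / (2 * π) * ∫ p, E p ∂cm2) := by ring

end CPU_

theorem t_CPU (hK : Stmt_CKB) (hC : Stmt_CCV) (hQ : Stmt_CQB) : Stmt_CPU := by
  intro v dv h
  obtain ⟨C, s₁, hs₁, hC0, -, hkey⟩ := hK v dv h
  obtain ⟨M, hM0, hM⟩ := CPU_.dv_bdd h
  obtain ⟨C', -, hQ'⟩ := hQ v dv h
  refine ⟨C, min s₁ (1 / (2 * (M + 1))), by positivity, hC0, ?_⟩
  intro s τ hs hτ f hf
  have hpos : ∀ t, 0 < 1 + s * dv t := by
    intro t
    have h1 : |s| ≤ 1 / (2 * (M + 1)) := hs.trans (min_le_right _ _)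
    have h2 : |s * dv t| ≤ 1 / 2 := by
      rw [abs_mul]
      calc |s| * |dv t| ≤ (1 / (2 * (M + 1))) * M :=
            mul_le_mul h1 (hM t) (abs_nonneg _) (by positivity)
        _ ≤ 1 / 2 := by
            rw [div_mul_eq_mul_div, div_le_div_iff₀ (by positivity) (by norm_num)]
            linarith
    have h3 := (abs_le.1 h2).1
    linarith
  exact CPU_.main h hC (hkey s (hs.trans (min_le_left _ _))) hpos hτ hf (hQ' f f hf hf).1

end Pool.Agent.FBM
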