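import Pool.Agent.FBM.StmtC

/-!
# FBM, block C, module CQB: the derivative of the Douglas form is bounded and bilinear
-/

open MeasureTheory Set Filter Topology
open scoped Real

namespace Pool.Agent.FBM

namespace CQB_

lemma meas_kv {v dv : ℝ → ℝ} (hv : VF0 v dv) :
    Measurable (fun p : ℝ × ℝ => kv v dv p.1 p.2) := by
  have h1 : Continuous v := continuous_iff_continuousAt.2 fun t => (hv.der t).continuousAt
  have h2 : Measurable v := h1.measurable
  have h3 : Measurable dv := hv.cont.measurable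
  unfold kv
  refine ((h3.comp measurable_fst).add (h3.comp measurable_snd)).sub
    (((h2.comp measurable_fst).sub (h2.comp measurable_snd)).mul (Measurable.div ?_ ?_))
  · exact Real.measurable_cos.comp ((measurable_fst.sub measurable_snd).div_const 2)
  · exact Real.measurable_sin.comp ((measurable_fst.sub measurable_snd).div_const 2)

lemma pt_bound {k C j x y e : ℝ} (hC : |k| ≤ C) (hj : 0 ≤ j) (he : 0 ≤ e) :
    2 * e * |j * k * (x * y)| ≤ C * (e ^ 2 * (j * (x * x)) + j * (y * y)) := by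
  have h0 : 0 ≤ C := (abs_nonneg k).trans hC
  have h1 : |j * k * (x * y)| = j * (|k| * (|x| * |y|)) := by
    rw [abs_mul, abs_mul, abs_mul, abs_of_nonneg hj, mul_assoc]
  rw [h1]
  have h2 : 2 * e * (|x| * |y|) ≤ e ^ 2 * (x * x) + y * y := by
    rw [← abs_mul_abs_self x, ← abs_mul_abs_self y]
    nlinarith [sq_nonneg (e * |x| - |y|)]
  have h3 : 0 ≤ 2 * e * (|x| * |y|) := by positivity
  calc 2 * e * (j * (|k| * (|x| * |y|))) = j * (|k| * (2 * e * (|x| * |y|))) := by ring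
    _ ≤ j * (C * (e ^ 2 * (x * x) + y * y)) :=
      mul_le_mul_of_nonneg_left (mul_le_mul hC h2 h3 h0) hj
    _ = C * (e ^ 2 * (j * (x * x)) + j * (y * y)) := by ring

lemma int_kv {v dv : ℝ → ℝ} (hv : VF0 v dv) {C : ℝ} (hC : ∀ a b, |kv v dv a b| ≤ C)
    {f g : ℝ → ℝ} (hf : FE f) (hg : FE g) :
    Integrable (fun p : ℝ × ℝ => J p.1 p.2 * kv v dv p.1 p.2 *
      ((f p.1 - f p.2) * (g p.1 - g p.2))) cm2 := by
  refine (((hf.int hf).add (hg.int hg)).const_mul C).mono' ?_ ?_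
  · exact ((measurable_J.mul (meas_kv hv)).mul (hf.ddmeas.mul hg.ddmeas)).aestronglyMeasurable
  · refine Eventually.of_forall fun p => ?_
    rw [Real.norm_eq_abs]
    have h := pt_bound (x := f p.1 - f p.2) (y := g p.1 - g p.2) (hC p.1 p.2)
      (J_nonneg p.1 p.2) zero_le_one
    have h2 := abs_nonneg (J p.1 p.2 * kv v dv p.1 p.2 * ((f p.1 - f p.2) * (g p.1 - g p.2)))
    simp only [Pi.add_apply]
    nlinarith

lemma bound {v dv : ℝ → ℝ} (hv : VF0 v dv) {C : ℝ} (hC : ∀ a b, |kv v dv a b| ≤ C)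
    {f g : ℝ → ℝ} (hf : FE f) (hg : FE g) {e : ℝ} (he : 0 ≤ e) :
    2 * e * |Qv v dv f g| ≤ C * (e ^ 2 * en f f + en g g) := by
  have h1 := int_kv hv hC hf hg
  have h2 : |∫ p, J p.1 p.2 * kv v dv p.1 p.2 * ((f p.1 - f p.2) * (g p.1 - g p.2)) ∂cm2| ≤
      ∫ p, |J p.1 p.2 * kv v dv p.1 p.2 * ((f p.1 - f p.2) * (g p.1 - g p.2))| ∂cm2 :=
    abs_integral_le_integral_abs
  have h3 : 2 * e * ∫ p, |J p.1 p.2 * kv v dv p.1 p.2 *
      ((f p.1 - f p.2) * (g p.1 - g p.2))| ∂cm2 ≤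
      C * (e ^ 2 * (∫ p, J p.1 p.2 * ((f p.1 - f p.2) * (f p.1 - f p.2)) ∂cm2) +
        ∫ p, J p.1 p.2 * ((g p.1 - g p.2) * (g p.1 - g p.2)) ∂cm2) := by
    rw [← integral_const_mul, ← integral_const_mul,
      ← integral_add ((hf.int hf).const_mul _) (hg.int hg), ← integral_const_mul]
    refine integral_mono (h1.abs.const_mul _)
      ((((hf.int hf).const_mul _).add (hg.int hg)).const_mul _) fun p => ?_
    exact pt_bound (hC p.1 p.2) (J_nonneg p.1 p.2) he
  have hp : 0 ≤ 1 / (2 * π) := by positivity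
  have h4 : |Qv v dv f g| = 1 / (2 * π) *
      |∫ p, J p.1 p.2 * kv v dv p.1 p.2 * ((f p.1 - f p.2) * (g p.1 - g p.2)) ∂cm2| := by
    rw [Qv, abs_mul, abs_of_nonneg hp]
  rw [h4]
  unfold en
  have h5 := mul_le_mul_of_nonneg_left ((mul_le_mul_of_nonneg_left h2
    (by positivity : 0 ≤ 2 * e)).trans h3) hp
  refine le_trans (le_of_eq ?_) (h5.trans (le_of_eq ?_)) <;> ring

lemma le_sqrt {C a b q : ℝ} (hC : 0 ≤ C) (ha : 0 ≤ a) (hb : 0 ≤ b)
    (h : ∀ e, 0 ≤ e → 2 * e * |q| ≤ C * (e ^ 2 * a + b)) :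
    |q| ≤ C * (Real.sqrt a * Real.sqrt b) := by
  have key : ∀ x : ℝ, 0 ≤ (C * a) * (x * x) + (-(2 * |q|)) * x + C * b := by
    intro x
    rcases le_total 0 x with hx | hx
    · nlinarith [h x hx]
    · have h1 : 0 ≤ (C * a) * (x * x) := mul_nonneg (mul_nonneg hC ha) (mul_self_nonneg x)
      have h2 : 0 ≤ C * b := mul_nonneg hC hb
      have h3 : 0 ≤ |q| * (-x) := mul_nonneg (abs_nonneg q) (by linarith)
      nlinarith
  have h1 := discrim_le_zero key
  unfold discrim at h1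
  have h2 : |q| ^ 2 ≤ (C * (Real.sqrt a * Real.sqrt b)) ^ 2 := by
    rw [mul_pow, mul_pow, Real.sq_sqrt ha, Real.sq_sqrt hb]
    nlinarith
  exact le_of_sq_le_sq h2 (by positivity)

end CQB_

/-- CQB: `Qv` is well defined, bilinear and bounded by the energies. -/
theorem t_CQB (hK : Stmt_CKB) : Stmt_CQB := by
  intro v dv hv
  obtain ⟨C, s₀, -, hC, hk, -⟩ := hK v dv hv
  refine ⟨C, hC, fun f g hf hg => ⟨CQB_.int_kv hv hk hf hg, ?_, ?_, ?_⟩⟩
  · exact CQB_.le_sqrt hC (en_self_nonneg f) (en_self_nonneg g)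
      fun e he => CQB_.bound hv hk hf hg he
  · unfold Qv
    congr 1
    refine integral_congr_ae (Eventually.of_forall fun p => ?_)
    simp only
    ring
  · intro f' hf'
    unfold Qv
    rw [← mul_add, ← integral_add (CQB_.int_kv hv hk hf hg) (CQB_.int_kv hv hk hf' hg)]
    congr 1
    refine integral_congr_ae (Eventually.of_forall fun p => ?_)
    simp only
    ring

end Pool.Agent.FBM
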