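import Pool.Agent.FBM.StmtC

/-!
# FBM, CQL: the derivative of the Douglas form is linear in the vector field (helper58)
-/

open MeasureTheory Set Filter Topology
open scoped Real

namespace Pool.Agent.FBM

namespace CQL_

lemma kv_lin (v dv w dw : ℝ → ℝ) (a b s t : ℝ) :
    kv (fun t => a * v t + b * w t) (fun t => a * dv t + b * dw t) s t =
      a * kv v dv s t + b * kv w dw s t := by
  unfold kv; ring

lemma J_mul_eq_zero {s t x : ℝ} (h : Real.sin ((s - t) / 2) ≠ 0 → x = 0) : J s t * x = 0 := by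
  by_cases h0 : Real.sin ((s - t) / 2) = 0
  · unfold J; rw [h0]; simp
  · rw [h h0, mul_zero]

lemma kv_cos {s t : ℝ} (h : Real.sin ((s - t) / 2) ≠ 0) :
    kv Real.cos (fun t => - Real.sin t) s t = 0 := by
  unfold kv
  have e1 : Real.cos s - Real.cos t = -2 * Real.sin ((s + t) / 2) * Real.sin ((s - t) / 2) :=
    Real.cos_sub_cos s t
  have e2 : Real.sin s + Real.sin t = 2 * Real.sin ((s + t) / 2) * Real.cos ((s - t) / 2) := by
    have hs : s = (s + t) / 2 + (s - t) / 2 := by ring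
    have ht : t = (s + t) / 2 - (s - t) / 2 := by ring
    conv_lhs => rw [hs, ht]
    rw [Real.sin_add, Real.sin_sub]
    ring_nf
  rw [e1]
  have e3 : -2 * Real.sin ((s + t) / 2) * Real.sin ((s - t) / 2) *
      (Real.cos ((s - t) / 2) / Real.sin ((s - t) / 2)) =
      -(2 * Real.sin ((s + t) / 2) * Real.cos ((s - t) / 2)) := by
    field_simp
  rw [e3, ← e2]; ring

lemma kv_sin {s t : ℝ} (h : Real.sin ((s - t) / 2) ≠ 0) :
    kv Real.sin Real.cos s t = 0 := by
  unfold kv
  have e1 : Real.sin s - Real.sin t = 2 * Real.sin ((s - t) / 2) * Real.cos ((s + t) / 2) :=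
    Real.sin_sub_sin s t
  have e2 : Real.cos s + Real.cos t = 2 * Real.cos ((s + t) / 2) * Real.cos ((s - t) / 2) :=
    Real.cos_add_cos s t
  rw [e1, e2]
  field_simp
  ring

lemma Qv_zero {v dv : ℝ → ℝ} (f : ℝ → ℝ)
    (h : ∀ s t, Real.sin ((s - t) / 2) ≠ 0 → kv v dv s t = 0) : Qv v dv f f = 0 := by
  unfold Qv
  have : ∀ p : ℝ × ℝ, J p.1 p.2 * kv v dv p.1 p.2 * ((f p.1 - f p.2) * (f p.1 - f p.2)) = 0 :=
    fun p => by rw [J_mul_eq_zero (h p.1 p.2), zero_mul]
  simp only [this, integral_zero, mul_zero]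

end CQL_

open CQL_

theorem t_CQL (hQ : Stmt_CQB) : Stmt_CQL := by
  intro f hf
  refine ⟨?_, ?_, Qv_zero f fun s t h => kv_cos h, Qv_zero f fun s t h => kv_sin h⟩
  · intro v dv w dw hv hw a b
    obtain ⟨_, _, h1⟩ := hQ v dv hv
    obtain ⟨_, _, h2⟩ := hQ w dw hw
    have i1 := (h1 f f hf hf).1
    have i2 := (h2 f f hf hf).1
    unfold Qv
    have e : ∀ p : ℝ × ℝ, J p.1 p.2 *
        kv (fun t => a * v t + b * w t) (fun t => a * dv t + b * dw t) p.1 p.2 *
          ((f p.1 - f p.2) * (f p.1 - f p.2)) =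
        a * (J p.1 p.2 * kv v dv p.1 p.2 * ((f p.1 - f p.2) * (f p.1 - f p.2))) +
        b * (J p.1 p.2 * kv w dw p.1 p.2 * ((f p.1 - f p.2) * (f p.1 - f p.2))) := by
      intro p; rw [kv_lin]; ring
    simp only [e]
    rw [integral_add (i1.const_mul a) (i2.const_mul b), integral_const_mul, integral_const_mul]
    ring
  · exact Qv_zero f fun s t _ => by simp [kv]

end Pool.Agent.FBM
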