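import Pool.Agent.FBM.StmtC

/-! CSE: separation in three dimensions. The image of `C` under the linear map
`x ↦ (∑ i, b j i * x i)_j`, `b` a basis of `V`, is compact and convex; if it does not contain `0`,
Hahn-Banach gives a functional which is strictly positive on it, i.e. an element of `V` which is
strictly negative on `C`. No other `Stmt_*` is assumed. -/

namespace Pool.Agent.FBM

namespace CSE_

/-- the linear map `x ↦ (∑ i, b j i * x i)_j` -/
noncomputable def T {k : ℕ} (b : Fin k → Fin 3 → ℝ) : (Fin 3 → ℝ) →ₗ[ℝ] (Fin k → ℝ) where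
  toFun x := fun j => ∑ i, b j i * x i
  map_add' x y := by
    funext j
    simp [mul_add, Finset.sum_add_distrib]
  map_smul' r x := by
    funext j
    simp [Finset.mul_sum, mul_left_comm]

end CSE_

theorem t_CSE : Stmt_CSE := by
  intro C hC hconv hne V hV
  classical
  set b := Module.finBasis ℝ V with hb
  set bb : Fin (Module.finrank ℝ V) → Fin 3 → ℝ := fun j => ((b j : V) : Fin 3 → ℝ) with hbb
  have hcont : Continuous (CSE_.T bb) := LinearMap.continuous_of_finiteDimensional _
  have hK : IsCompact (CSE_.T bb '' C) := hC.image hcont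
  have hKc : Convex ℝ (CSE_.T bb '' C) := hconv.linear_image _
  by_cases h0 : (0 : Fin (Module.finrank ℝ V) → ℝ) ∈ CSE_.T bb '' C
  · obtain ⟨c, hc, hTc⟩ := h0
    refine ⟨c, hc, fun ℓ hℓ => ?_⟩
    have hj : ∀ j, ∑ i, bb j i * c i = 0 := fun j => congrFun hTc j
    have hrep : ℓ = ∑ j, (b.repr ⟨ℓ, hℓ⟩ j) • bb j := by
      have h1 : ((∑ j, (b.repr ⟨ℓ, hℓ⟩ j) • b j : V) : Fin 3 → ℝ) = ℓ :=
        congrArg (Subtype.val) (b.sum_repr ⟨ℓ, hℓ⟩)
      rw [Submodule.coe_sum] at h1
      exact h1.symm
    rw [hrep]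
    have : ∀ i, (∑ j, (b.repr ⟨ℓ, hℓ⟩ j) • bb j) i * c i
        = ∑ j, (b.repr ⟨ℓ, hℓ⟩ j) * (bb j i * c i) := by
      intro i
      rw [Finset.sum_apply, Finset.sum_mul]
      refine Finset.sum_congr rfl fun j _ => ?_
      simp [mul_assoc]
    rw [Finset.sum_congr rfl fun i _ => this i, Finset.sum_comm]
    refine Finset.sum_eq_zero fun j _ => ?_
    rw [← Finset.mul_sum, hj j, mul_zero]
  · exfalso
    obtain ⟨f, u, hu, hf⟩ := geometric_hahn_banach_point_closed hKc hK.isClosed h0
    rw [map_zero] at hu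
    set g : Fin (Module.finrank ℝ V) → ℝ := fun j => f (Pi.single j 1) with hg
    have hfy : ∀ y : Fin (Module.finrank ℝ V) → ℝ, f y = ∑ j, y j * g j := by
      intro y
      have h1 : y = ∑ j, y j • (Pi.single j (1 : ℝ) : Fin (Module.finrank ℝ V) → ℝ) := by
        funext i
        simp [Finset.sum_apply, Pi.single_apply]
      conv_lhs => rw [h1]
      rw [map_sum]
      refine Finset.sum_congr rfl fun j _ => ?_
      rw [map_smul, smul_eq_mul]
    set ℓ : Fin 3 → ℝ := -∑ j, g j • bb j with hℓ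
    have hmem : ℓ ∈ V := by
      refine V.neg_mem (V.sum_mem fun j _ => V.smul_mem _ ?_)
      exact (b j).2
    obtain ⟨c, hc, hpos⟩ := hV ℓ hmem
    have h2 : ∑ i, ℓ i * c i = -f (CSE_.T bb c) := by
      rw [hfy]
      have : ∀ i, ℓ i * c i = -∑ j, g j * (bb j i * c i) := by
        intro i
        rw [hℓ, Pi.neg_apply, Finset.sum_apply, neg_mul, Finset.sum_mul]
        refine congrArg Neg.neg (Finset.sum_congr rfl fun j _ => ?_)
        simp [mul_assoc]
      rw [Finset.sum_congr rfl fun i _ => this i, Finset.sum_neg_distrib, Finset.sum_comm]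
      refine congrArg Neg.neg (Finset.sum_congr rfl fun j _ => ?_)
      rw [← Finset.mul_sum, mul_comm]
      rfl
    have h3 := hf _ (Set.mem_image_of_mem _ hc)
    linarith

end Pool.Agent.FBM
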