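import Pool.Agent.FBM.StmtC

/-!
# FBM_CSQ: the squares of the minimisers
-/

open MeasureTheory Set Filter Topology
open scoped Real

namespace Pool.Agent.FBM

namespace CSQ_

/-- the set of the squares of the factors -/
def CC (D : Dat) (X : Fin 3 → ℝ → ℝ) : Set (Fin 3 → ℝ) :=
  {c | (∀ i, 0 ≤ c i) ∧ (∀ᵐ t ∂cm, ∑ i, c i * X i t ^ 2 ≤ 1) ∧
    (∀ᵐ t ∂cm, t ∈ D.H → ∑ i, c i * X i t ^ 2 = 1) ∧
    ∑ i, c i * en (X i) (X i) = Emin D ∧ ∀ i, (∀ᵐ t ∂cm, X i t = 0) → c i = 1}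

lemma isClosed_CC (D : Dat) (X : Fin 3 → ℝ → ℝ) : IsClosed (CC D X) := by
  refine IsSeqClosed.isClosed fun u c hu hc => ?_
  have hci : ∀ i, Tendsto (fun n => u n i) atTop (𝓝 (c i)) := fun i =>
    (tendsto_pi_nhds.1 hc) i
  have hlim : ∀ t, Tendsto (fun n => ∑ i, u n i * X i t ^ 2) atTop
      (𝓝 (∑ i, c i * X i t ^ 2)) := fun t =>
    tendsto_finsetSum _ fun i _ => (hci i).mul_const _
  refine ⟨fun i => ?_, ?_, ?_, ?_, fun i hi => ?_⟩
  · exact ge_of_tendsto' (hci i) fun n => (hu n).1 i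
  · filter_upwards [ae_all_iff.2 fun n => (hu n).2.1] with t ht
    exact le_of_tendsto' (hlim t) ht
  · filter_upwards [ae_all_iff.2 fun n => (hu n).2.2.1] with t ht hH
    refine tendsto_nhds_unique (hlim t) ?_
    have h1 : (fun n => ∑ i, u n i * X i t ^ 2) = fun _ => (1 : ℝ) := funext fun n => ht n hH
    rw [h1]
    exact tendsto_const_nhds
  · have h2 : Tendsto (fun n => ∑ i, u n i * en (X i) (X i)) atTop
        (𝓝 (∑ i, c i * en (X i) (X i))) :=
      tendsto_finsetSum _ fun i _ => (hci i).mul_const _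
    have h3 : (fun n => ∑ i, u n i * en (X i) (X i)) = fun _ => Emin D :=
      funext fun n => (hu n).2.2.2.1
    rw [h3] at h2
    exact tendsto_nhds_unique h2 tendsto_const_nhds
  · have h4 : (fun n => u n i) = fun _ => (1 : ℝ) := funext fun n => (hu n).2.2.2.2 i hi
    have h5 := hci i
    rw [h4] at h5
    exact tendsto_nhds_unique h5 tendsto_const_nhds

/-- a nonnegative function which is not a.e. zero is bounded below on a set of positive measure -/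
lemma exists_eta {x : ℝ → ℝ} (h0 : ∀ t, 0 ≤ x t) (hx : ¬ ∀ᵐ t ∂cm, x t = 0) :
    ∃ η : ℝ, 0 < η ∧ ∃ᶠ t in ae cm, η ≤ x t := by
  by_contra hcon
  push Not at hcon
  apply hx
  have h1 : ∀ n : ℕ, ∀ᵐ t ∂cm, x t < 1 / ((n : ℝ) + 1) := fun n => by
    have h2 := hcon (1 / ((n : ℝ) + 1)) (by positivity)
    have h2' : ∀ᶠ t in ae cm, ¬ (1 / ((n : ℝ) + 1) ≤ x t) := by
      simpa [Filter.Frequently] using h2
    exact h2'.mono fun t ht => not_le.1 ht
  filter_upwards [ae_all_iff.2 h1] with t ht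
  refine le_antisymm ?_ (h0 t)
  exact ge_of_tendsto' tendsto_one_div_add_atTop_nhds_zero_nat fun n => (ht n).le

lemma bdd_CC {D : Dat} {X : Fin 3 → ℝ → ℝ} (h0 : ∀ i t, 0 ≤ X i t) (i : Fin 3) :
    ∃ M : ℝ, ∀ c ∈ CC D X, c i ≤ M := by
  by_cases hi : ∀ᵐ t ∂cm, X i t = 0
  · exact ⟨1, fun c hc => (hc.2.2.2.2 i hi).le⟩
  · obtain ⟨η, hη, hf⟩ := exists_eta (h0 i) hi
    refine ⟨1 / η ^ 2, fun c hc => ?_⟩
    obtain ⟨t, ht, hs⟩ := (hf.and_eventually hc.2.1).exists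
    have h1 : c i * X i t ^ 2 ≤ 1 :=
      (Finset.single_le_sum (f := fun j => c j * X j t ^ 2)
        (fun j _ => mul_nonneg (hc.1 j) (sq_nonneg _)) (Finset.mem_univ i)).trans hs
    rw [le_div_iff₀ (by positivity)]
    exact (mul_le_mul_of_nonneg_left (pow_le_pow_left₀ hη.le ht 2) (hc.1 i)).trans h1

lemma isCompact_CC {D : Dat} {X : Fin 3 → ℝ → ℝ} (h0 : ∀ i t, 0 ≤ X i t) :
    IsCompact (CC D X) := by
  choose M hM using fun i => bdd_CC (D := D) h0 i
  refine IsCompact.of_isClosed_subset (isCompact_Icc (a := (0 : Fin 3 → ℝ)) (b := M))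
    (isClosed_CC D X) fun c hc => ?_
  exact ⟨fun i => hc.1 i, fun i => hM i c hc⟩

lemma convex_CC (D : Dat) (X : Fin 3 → ℝ → ℝ) : Convex ℝ (CC D X) := by
  intro c hc d hd a b ha hb hab
  have key : ∀ w : Fin 3 → ℝ, ∑ i, (a • c + b • d) i * w i
      = a * ∑ i, c i * w i + b * ∑ i, d i * w i := by
    intro w
    rw [Finset.mul_sum, Finset.mul_sum, ← Finset.sum_add_distrib]
    refine Finset.sum_congr rfl fun i _ => ?_
    simp only [Pi.add_apply, Pi.smul_apply, smul_eq_mul]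
    ring
  refine ⟨fun i => ?_, ?_, ?_, ?_, fun i hi => ?_⟩
  · have h1 := mul_nonneg ha (hc.1 i)
    have h2 := mul_nonneg hb (hd.1 i)
    simp only [Pi.add_apply, Pi.smul_apply, smul_eq_mul]
    linarith
  · filter_upwards [hc.2.1, hd.2.1] with t h1 h2
    rw [key fun i => X i t ^ 2]
    have h3 := mul_le_mul_of_nonneg_left h1 ha
    have h4 := mul_le_mul_of_nonneg_left h2 hb
    linarith
  · filter_upwards [hc.2.2.1, hd.2.2.1] with t h1 h2 hH
    rw [key fun i => X i t ^ 2, h1 hH, h2 hH]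
    linarith
  · rw [key fun i => en (X i) (X i), hc.2.2.2.1, hd.2.2.2.1, ← add_mul, hab, one_mul]
  · simp only [Pi.add_apply, Pi.smul_apply, smul_eq_mul, hc.2.2.2.2 i hi, hd.2.2.2.2 i hi]
    linarith

lemma en_sqrt {x y : ℝ → ℝ} {c : ℝ} (hc : 0 ≤ c) (h : ∀ᵐ t ∂cm, y t = Real.sqrt c * x t) :
    en y y = c * en x x := by
  rw [en_congr (f' := fun t => Real.sqrt c * x t) (g' := fun t => Real.sqrt c * x t) h h,
    en_smul_left, en_smul_right, ← mul_assoc, Real.mul_self_sqrt hc]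

lemma sq_sqrt_mul {c : ℝ} (hc : 0 ≤ c) (x : ℝ) : (Real.sqrt c * x) ^ 2 = c * x ^ 2 := by
  rw [mul_pow, Real.sq_sqrt hc]

end CSQ_

open CSQ_ in
/-- CSQ: the squares of the minimisers. -/
theorem t_CSQ (hE : Stmt_B_emin) (hB2 : Stmt_B2) (hB5 : Stmt_B5) (hOC : Stmt_COC) : Stmt_CSQ := by
  intro D hT X hX hsup
  refine ⟨CC D X, isCompact_CC hX.oct.nonneg, convex_CC D X, fun c hc => hc.1, fun c hc => ?_,
    fun Y hY => ?_⟩
  · obtain ⟨h0, h1, h2, h3, -⟩ := hc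
    have hadm : Adm D (fun i t => Real.sqrt (c i) * X i t) := by
      refine ⟨fun i => (hX.oct.adm.fe i).smul _, fun i => ?_, ?_⟩
      · filter_upwards [hX.oct.adm.zero i] with t ht hZ
        rw [ht hZ, mul_zero]
      · filter_upwards [h2] with t ht hH
        simp only [sq_sqrt_mul (h0 _)]
        exact ht hH
    obtain ⟨Y, hY, hYX⟩ := hOC D hT _ hadm
      (fun i => Eventually.of_forall fun t => mul_nonneg (Real.sqrt_nonneg _) (hX.oct.nonneg i t))
      (by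
        filter_upwards [h1] with t ht
        simp only [sq_sqrt_mul (h0 _)]
        exact ht)
    refine ⟨Y, ⟨hY, fun Z hZ => ?_⟩, hYX⟩
    have h4 : ven Y Y = Emin D := by
      rw [← h3]
      exact Finset.sum_congr rfl fun i _ => en_sqrt (h0 i) (hYX i)
    rw [h4, ← hE D X hX]
    exact hX.min Z hZ
  · obtain ⟨c, hc0, hc⟩ := hB5 D X Y _ _ hT hX (hB2 D hT X hX) hY (hsup Y hY)
    have h1 : ∃ c' : Fin 3 → ℝ, (∀ i, 0 ≤ c' i) ∧ (∀ i, (∀ᵐ t ∂cm, X i t = 0) → c' i = 1) ∧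
        ∀ i, ∀ᵐ t ∂cm, Y i t = Real.sqrt (c' i) * X i t := by
      have h2 : ∀ i, ∃ x : ℝ, 0 ≤ x ∧ ((∀ᵐ t ∂cm, X i t = 0) → x = 1) ∧
          ∀ᵐ t ∂cm, Y i t = Real.sqrt x * X i t := by
        intro i
        by_cases hi : ∀ᵐ t ∂cm, X i t = 0
        · refine ⟨1, zero_le_one, fun _ => rfl, ?_⟩
          filter_upwards [hc i, hi] with t h3 h4
          rw [h3, h4, mul_zero, mul_zero]
        · refine ⟨c i ^ 2, sq_nonneg _, fun h => absurd h hi, ?_⟩
          rw [Real.sqrt_sq (hc0 i)]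
          exact hc i
      choose c' ha hb hd using h2
      exact ⟨c', ha, hb, hd⟩
    obtain ⟨c', ha, hb, hd⟩ := h1
    have hsq : ∀ᵐ t ∂cm, ∑ i, c' i * X i t ^ 2 = ∑ i, Y i t ^ 2 := by
      filter_upwards [ae_all_iff.2 hd] with t ht
      refine Finset.sum_congr rfl fun i _ => ?_
      rw [ht i, sq_sqrt_mul (ha i)]
    refine ⟨c', ⟨ha, ?_, ?_, ?_, hb⟩, hd⟩
    · filter_upwards [hsq] with t ht
      rw [ht]
      exact hY.oct.le_one t
    · filter_upwards [hsq, hY.oct.adm.one] with t ht h1 hH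
      rw [ht]
      exact h1 hH
    · rw [← hE D Y hY]
      exact Finset.sum_congr rfl fun i _ => (en_sqrt (ha i) (hd i)).symm

end Pool.Agent.FBM
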