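import Pool.Agent.FBM.StmtC

/-!
# FBM, block C: strong convergence
-/

open MeasureTheory Set Filter Topology
open scoped Real

namespace Pool.Agent.FBM

namespace CST_

theorem en_le_ven (X : Fin 3 → ℝ → ℝ) (i : Fin 3) : en (X i) (X i) ≤ ven X X :=
  Finset.single_le_sum (f := fun i => en (X i) (X i)) (fun _ _ => en_self_nonneg _)
    (Finset.mem_univ i)

theorem en_sub_self {f g : ℝ → ℝ} (hf : FE f) (hg : FE g) :
    en (fun t => f t - g t) (fun t => f t - g t) = en f f - 2 * en f g + en g g := by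
  rw [en_sub_left hf hg (hf.sub hg), en_sub_right hf hf hg, en_sub_right hg hf hg, en_comm g f]
  ring

theorem Q_diff {v dv : ℝ → ℝ} {C : ℝ} (hC : ∀ f g, FE f → FE g →
    Integrable (fun p : ℝ × ℝ => J p.1 p.2 * kv v dv p.1 p.2 *
      ((f p.1 - f p.2) * (g p.1 - g p.2))) cm2 ∧
    |Qv v dv f g| ≤ C * (Real.sqrt (en f f) * Real.sqrt (en g g)) ∧
    Qv v dv f g = Qv v dv g f ∧
    ∀ f', FE f' → Qv v dv (fun t => f t + f' t) g = Qv v dv f g + Qv v dv f' g)
    {f g : ℝ → ℝ} (hf : FE f) (hg : FE g) :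
    Qv v dv f f - Qv v dv g g =
      Qv v dv (fun t => f t - g t) f + Qv v dv (fun t => f t - g t) g := by
  have e : (fun t => (f t - g t) + g t) = f := funext fun t => sub_add_cancel _ _
  have h1 := (hC _ f (hf.sub hg) hf).2.2.2 g hg
  have h2 := (hC _ g (hf.sub hg) hg).2.2.2 g hg
  rw [e] at h1 h2
  have h3 := (hC f g hf hg).2.2.1
  rw [h1, ← h3, h2]
  ring

end CST_

theorem t_CST (hW : Stmt_A_weak) (hQ : Stmt_CQB) : Stmt_CST := by
  intro Y X hY hX hb hlim hle v dv hv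
  obtain ⟨C, hC0, hC⟩ := hQ v dv hv
  have hK : ∀ j i, en (Y j i) (Y j i) ≤ ven X X := fun j i =>
    (CST_.en_le_ven (Y j) i).trans (hle j)
  have hw : ∀ i, Tendsto (fun j => en (Y j i) (X i)) atTop (𝓝 (en (X i) (X i))) := fun i =>
    hW (fun j => Y j i) (X i) 1 (ven X X) (fun j => hY j i) (fun j t => hb j i t)
      (fun j => hK j i) (hX i) (hlim i) (X i) (hX i)
  have hs : Tendsto (fun j => 2 * (ven X X - ∑ i, en (Y j i) (X i))) atTop (𝓝 0) := by
    have h1 : Tendsto (fun j => ∑ i, en (Y j i) (X i)) atTop (𝓝 (∑ i, en (X i) (X i))) :=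
      tendsto_finsetSum _ fun i _ => hw i
    have h2 : Tendsto (fun j => 2 * (ven X X - ∑ i, en (Y j i) (X i))) atTop
        (𝓝 (2 * (ven X X - ∑ i, en (X i) (X i)))) := (tendsto_const_nhds.sub h1).const_mul 2
    have h3 : 2 * (ven X X - ∑ i, en (X i) (X i)) = 0 := by
      rw [show ven X X = ∑ i, en (X i) (X i) from rfl, sub_self, mul_zero]
    rwa [h3] at h2
  let δ : ℕ → Fin 3 → ℝ := fun j i => en (fun t => Y j i t - X i t) (fun t => Y j i t - X i t)
  have hδ0 : ∀ j i, 0 ≤ δ j i := fun j i => en_self_nonneg _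
  have hδ1 : ∀ j i, δ j i ≤ 2 * (ven X X - ∑ i, en (Y j i) (X i)) := by
    intro j i
    have h1 : δ j i ≤ ∑ i, δ j i :=
      Finset.single_le_sum (f := fun i => δ j i) (fun i _ => hδ0 j i) (Finset.mem_univ i)
    have h2 : ∑ i, δ j i = ven (Y j) (Y j) - 2 * ∑ i, en (Y j i) (X i) + ven X X := by
      unfold ven
      rw [Finset.mul_sum, ← Finset.sum_sub_distrib, ← Finset.sum_add_distrib]
      exact Finset.sum_congr rfl fun i _ => CST_.en_sub_self (hY j i) (hX i)
    have h3 := hle j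
    linarith
  have hδ : ∀ i, Tendsto (fun j => δ j i) atTop (𝓝 0) := fun i =>
    squeeze_zero (fun j => hδ0 j i) (fun j => hδ1 j i) hs
  have hq : ∀ i, Tendsto (fun j => Qv v dv (Y j i) (Y j i)) atTop (𝓝 (Qv v dv (X i) (X i))) := by
    intro i
    rw [tendsto_iff_norm_sub_tendsto_zero]
    have h4 : Tendsto (fun j => C * (Real.sqrt (δ j i) * (2 * Real.sqrt (ven X X)))) atTop
        (𝓝 0) := by
      have h5 : Tendsto (fun j => Real.sqrt (δ j i)) atTop (𝓝 0) := by
        have := (Real.continuous_sqrt.tendsto 0).comp (hδ i)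
        rwa [Real.sqrt_zero] at this
      have h6 := (h5.mul_const (2 * Real.sqrt (ven X X))).const_mul C
      rwa [zero_mul, mul_zero] at h6
    refine squeeze_zero (fun j => norm_nonneg _) (fun j => ?_) h4
    rw [Real.norm_eq_abs, CST_.Q_diff hC (hY j i) (hX i)]
    have h7 := (hC _ _ ((hY j i).sub (hX i)) (hY j i)).2.1
    have h8 := (hC _ _ ((hY j i).sub (hX i)) (hX i)).2.1
    have h9 : Real.sqrt (en (Y j i) (Y j i)) ≤ Real.sqrt (ven X X) :=
      Real.sqrt_le_sqrt (hK j i)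
    have h10 : Real.sqrt (en (X i) (X i)) ≤ Real.sqrt (ven X X) :=
      Real.sqrt_le_sqrt (CST_.en_le_ven X i)
    have h11 : 0 ≤ Real.sqrt (δ j i) := Real.sqrt_nonneg _
    have h12 : C * (Real.sqrt (δ j i) * Real.sqrt (en (Y j i) (Y j i))) ≤
        C * (Real.sqrt (δ j i) * Real.sqrt (ven X X)) :=
      mul_le_mul_of_nonneg_left (mul_le_mul_of_nonneg_left h9 h11) hC0
    have h13 : C * (Real.sqrt (δ j i) * Real.sqrt (en (X i) (X i))) ≤
        C * (Real.sqrt (δ j i) * Real.sqrt (ven X X)) :=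
      mul_le_mul_of_nonneg_left (mul_le_mul_of_nonneg_left h10 h11) hC0
    calc _ ≤ _ := abs_add_le _ _
      _ ≤ C * (Real.sqrt (δ j i) * Real.sqrt (ven X X)) +
          C * (Real.sqrt (δ j i) * Real.sqrt (ven X X)) :=
        add_le_add (h7.trans h12) (h8.trans h13)
      _ = _ := by ring
  unfold QQv
  exact tendsto_finsetSum _ fun i _ => hq i

end Pool.Agent.FBM
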