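import Pool.Agent.FBM.StmtC1

/-!
# FBM, module CTM: the data are tame
-/

open MeasureTheory Set Filter Topology
open scoped Real

namespace Pool.Agent.FBM

namespace CTM

/-- periodic extension commutes with unions -/
lemma pe_iUnion {ι : Sort*} (S : ι → Set ℝ) : pe (⋃ k, S k) = ⋃ k, pe (S k) := by
  ext t
  simp only [pe, mem_iUnion, mem_ofPred_eq]
  exact exists_comm

lemma tame_empty : Tame ∅ where
  meas := MeasurableSet.empty
  per _ := Iff.rfl
  right _ := Or.inr (Eventually.of_forall fun _ h => h)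
  left _ := Or.inr (Eventually.of_forall fun _ h => h)

lemma tame_iUnion (h : Stmt_A_tame) {ι : Type*} [Finite ι] (S : ι → Set ℝ)
    (hS : ∀ k, Tame (S k)) : Tame (⋃ k, S k) := by
  classical
  have := Fintype.ofFinite ι
  have h1 : ∀ F : Finset ι, Tame (⋃ k ∈ F, S k) := by
    intro F
    induction F using Finset.induction_on with
    | empty => simpa using tame_empty
    | insert a F ha ih =>
      rw [Finset.set_biUnion_insert]
      exact (h.1 _ _ (hS a) ih).1
  simpa using h1 Finset.univ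

lemma tame_HH (h : Stmt_A_tame) (m : ℕ) (a b : Fin m → ℝ) : Tame (HH m a b) := by
  rw [HH, pe_iUnion]
  exact tame_iUnion h _ fun k => (h.2 (a k) (b k)).1

lemma tame_side (h : Stmt_A_tame) : ∀ i : Fin 3, Tame (side i)
  | 0 => (h.2 _ _).2
  | 1 => (h.2 _ _).2
  | 2 => (h.2 _ _).2

lemma tame_ZZ (h : Stmt_A_tame) (m : ℕ) (a b : Fin m → ℝ) : ∀ i : Fin 3, Tame (ZZ m a b i)
  | 0 => (h.1 _ _ (tame_side h 0) (tame_HH h m a b)).2.2.1
  | 1 => (h.1 _ _ (tame_side h 1) (tame_HH h m a b)).2.2.1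
  | 2 => tame_side h 2

end CTM

theorem t_CTM (h : Stmt_A_tame) : Stmt_CTM :=
  ⟨fun m p _ => ⟨CTM.tame_ZZ h m p.1 p.2, CTM.tame_HH h m p.1 p.2⟩,
    CTM.tame_side h, (h.1 _ _ (CTM.tame_side h 0) (CTM.tame_side h 1)).1⟩

end Pool.Agent.FBM
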