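import Pool.Agent.FBM.StmtC
import Pool.Agent.FBM.B0

/-!
# Block C, CTR: transport of admissible maps
-/

open MeasureTheory Set Filter Topology
open scoped Real

namespace Pool.Agent.FBM

namespace CTR_

variable {v dv : ℝ → ℝ} {s : ℝ} {τ : ℝ → ℝ}

lemma lt_iff (h : Inv v s τ) {a b : ℝ} : a + s * v a < b ↔ a < τ b := by
  rw [← h.mono.lt_iff_lt, h.left]

lemma le_iff (h : Inv v s τ) {a b : ℝ} : a + s * v a ≤ b ↔ a ≤ τ b := by
  rw [← h.mono.le_iff_le, h.left]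

lemma le_iff' (h : Inv v s τ) {a b : ℝ} : b ≤ a + s * v a ↔ τ b ≤ a := by
  rw [← h.mono.le_iff_le, h.left]

lemma psi_le (h : Inv v s τ) {a b : ℝ} (hab : a ≤ b) : a + s * v a ≤ b + s * v b := by
  rw [le_iff h, h.left]
  exact hab

lemma tau_fix (h : Inv v s τ) {a : ℝ} (ha : v a = 0) : τ a = a := by
  have := h.left a
  rwa [ha, mul_zero, add_zero] at this

lemma tau_int (h : Inv v s τ) (n : ℤ) : ∀ t : ℝ, τ (t + n * (2 * π)) = τ t + n * (2 * π) := by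
  induction n using Int.induction_on with
  | zero => intro t; simp
  | succ n ih =>
    intro t
    have h1 : t + ((n + 1 : ℤ) : ℝ) * (2 * π) = (t + n * (2 * π)) + 2 * π := by
      push_cast; ring
    have h2 := ih t
    push_cast at h1 h2 ⊢
    rw [h1, h.per, h2]
    ring
  | pred n ih =>
    intro t
    have h1 := h.per (t + ((-(n : ℤ) - 1 : ℤ) : ℝ) * (2 * π))
    have h2 : t + ((-(n : ℤ) - 1 : ℤ) : ℝ) * (2 * π) + 2 * π = t + (-(n : ℤ) : ℤ) * (2 * π) := by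
      push_cast; ring
    rw [h2, ih t] at h1
    have h3 : τ (t + ((-(n : ℤ) - 1 : ℤ) : ℝ) * (2 * π)) = τ t + (-(n : ℤ) : ℤ) * (2 * π) - 2 * π := by
      linarith
    rw [h3]
    push_cast
    ring

lemma pe_iff (h : Inv v s τ) {S S' : Set ℝ} (hS : ∀ t, t ∈ S' ↔ τ t ∈ S) (t : ℝ) :
    t ∈ pe S' ↔ τ t ∈ pe S := by
  unfold pe
  simp only [mem_ofPred_eq]
  refine exists_congr fun n => ?_
  rw [hS, tau_int h]

lemma pe_per (S : Set ℝ) (t : ℝ) : t + 2 * π ∈ pe S ↔ t ∈ pe S := by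
  unfold pe
  simp only [mem_ofPred_eq]
  constructor
  · rintro ⟨n, hn⟩
    refine ⟨n + 1, ?_⟩
    have e : t + ((n + 1 : ℤ) : ℝ) * (2 * π) = t + 2 * π + n * (2 * π) := by push_cast; ring
    rw [e]
    exact hn
  · rintro ⟨n, hn⟩
    refine ⟨n - 1, ?_⟩
    have e : t + 2 * π + ((n - 1 : ℤ) : ℝ) * (2 * π) = t + n * (2 * π) := by push_cast; ring
    rw [e]
    exact hn

lemma Ioo_iff (h : Inv v s τ) {a b : ℝ} (ha : τ a = a) (hb : τ b = b) (t : ℝ) :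
    t ∈ Ioo a b ↔ τ t ∈ Ioo a b := by
  have h1 : a < t ↔ a < τ t := by
    conv_rhs => rw [← ha]
    exact h.mono.lt_iff_lt.symm
  have h2 : t < b ↔ τ t < b := by
    conv_rhs => rw [← hb]
    exact h.mono.lt_iff_lt.symm
  rw [mem_Ioo, mem_Ioo, h1, h2]

lemma side_iff (hv : VF v dv) (h : Inv v s τ) (i : Fin 3) (t : ℝ) :
    t ∈ side i ↔ τ t ∈ side i := by
  have h0 : τ 0 = 0 := tau_fix h hv.c0
  have h1 : τ (2 * π / 3) = 2 * π / 3 := tau_fix h hv.c1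
  have h2 : τ (-(2 * π / 3)) = -(2 * π / 3) := tau_fix h hv.c2
  have h3 : τ (4 * π / 3) = 4 * π / 3 := by
    have e : 4 * π / 3 = -(2 * π / 3) + 2 * π := by ring
    rw [e, h.per, h2]
  fin_cases i
  · exact pe_iff h (Ioo_iff h h0 h1) t
  · exact pe_iff h (Ioo_iff h h2 h0) t
  · exact pe_iff h (Ioo_iff h h1 h3) t

lemma HH_iff (h : Inv v s τ) (m : ℕ) (a b : Fin m → ℝ) (t : ℝ) :
    t ∈ HH m (fun k => a k + s * v (a k)) (fun k => b k + s * v (b k)) ↔ τ t ∈ HH m a b := by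
  unfold HH
  refine pe_iff h (fun t => ?_) t
  rw [mem_iUnion, mem_iUnion]
  refine exists_congr fun k => ?_
  rw [mem_Icc, mem_Icc, le_iff h, le_iff' h]

lemma ZZ_iff (hv : VF v dv) (h : Inv v s τ) (m : ℕ) (a b : Fin m → ℝ) (i : Fin 3) (t : ℝ) :
    t ∈ ZZ m (fun k => a k + s * v (a k)) (fun k => b k + s * v (b k)) i ↔
      τ t ∈ ZZ m a b i := by
  fin_cases i
  · change (t ∈ side 0 ∧ ¬ t ∈ HH m _ _) ↔ (τ t ∈ side 0 ∧ ¬ τ t ∈ HH m a b)
    rw [side_iff hv h, HH_iff h]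
  · change (t ∈ side 1 ∧ ¬ t ∈ HH m _ _) ↔ (τ t ∈ side 1 ∧ ¬ τ t ∈ HH m a b)
    rw [side_iff hv h, HH_iff h]
  · exact side_iff hv h 2 t

lemma side_per (i : Fin 3) (t : ℝ) : t + 2 * π ∈ side i ↔ t ∈ side i := by
  fin_cases i
  · exact pe_per _ t
  · exact pe_per _ t
  · exact pe_per _ t

lemma ZZ_per (m : ℕ) (a b : Fin m → ℝ) (i : Fin 3) (t : ℝ) :
    t + 2 * π ∈ ZZ m a b i ↔ t ∈ ZZ m a b i := by
  fin_cases i
  · change (t + 2 * π ∈ side 0 ∧ ¬ t + 2 * π ∈ HH m a b) ↔ (t ∈ side 0 ∧ ¬ t ∈ HH m a b)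
    rw [side_per]
    unfold HH
    rw [pe_per]
  · change (t + 2 * π ∈ side 1 ∧ ¬ t + 2 * π ∈ HH m a b) ↔ (t ∈ side 1 ∧ ¬ t ∈ HH m a b)
    rw [side_per]
    unfold HH
    rw [pe_per]
  · exact side_per 2 t

lemma ae_tau (hv : VF0 v dv) (h : Inv v s τ) {p : ℝ → Prop} (hp : ∀ᵐ t, p t) :
    ∀ᵐ t, p (τ t) := by
  rw [ae_iff] at hp ⊢
  have hsub : {t | ¬ p (τ t)} ⊆ (fun t => t + s * v t) '' {t | ¬ p t} := fun t ht =>
    ⟨τ t, ht, h.right t⟩
  refine measure_mono_null hsub ?_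
  refine addHaar_image_eq_zero_of_differentiableOn_of_addHaar_eq_zero volume ?_ hp
  intro t _
  exact (differentiableAt_id.add ((hv.der t).differentiableAt.const_mul s)).differentiableWithinAt

/-- the transport of admissible maps between two data which correspond to each other -/
lemma adm_tr (hv : VF0 v dv) (h : Inv v s τ) {D D' : Dat}
    (hZ : ∀ i t, t ∈ D'.Z i ↔ τ t ∈ D.Z i) (hH : ∀ t, t ∈ D'.H ↔ τ t ∈ D.H)
    (pZ : ∀ i t, t + 2 * π ∈ D.Z i ↔ t ∈ D.Z i) (pH : ∀ t, t + 2 * π ∈ D.H ↔ t ∈ D.H)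
    {X : Fin 3 → ℝ → ℝ} (hX : Adm D X) (hfe : ∀ i, FE (fun t => X i (τ t))) :
    Adm D' (fun i t => X i (τ t)) := by
  refine ⟨hfe, fun i => ?_, ?_⟩
  · have h1 : ∀ᵐ t, t ∈ D.Z i → X i t = 0 := by
      refine ae_of_cm (fun t => ?_) (hX.zero i)
      rw [pZ, (hX.fe i).per t]
    refine cm_of_ae ?_
    filter_upwards [ae_tau hv h h1] with t ht hm
    exact ht ((hZ i t).1 hm)
  · have h1 : ∀ᵐ t, t ∈ D.H → ∑ i, X i t ^ 2 = 1 := by
      refine ae_of_cm (fun t => ?_) hX.one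
      rw [pH]
      simp only [(hX.fe _).per t]
    refine cm_of_ae ?_
    filter_upwards [ae_tau hv h h1] with t ht hm
    exact ht ((hH t).1 hm)

end CTR_

open CTR_ in
theorem t_CTR (hP : Stmt_CPU) : Stmt_CTR := by
  intro v dv hv
  obtain ⟨C, s₀, hs₀, -, hC⟩ := hP v dv hv.base
  refine ⟨s₀, hs₀, fun s τ hs h => ⟨fun X hX => ?_, fun m q hq X hX => ⟨?_, ?_⟩⟩⟩
  · have hfe : ∀ i, FE (fun t => X i (τ t)) := fun i => (hC s τ hs h (X i) (hX.fe i)).1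
    refine adm_tr hv.base h (D := Dlim) (D' := Dlim) (fun i t => side_iff hv h i t) (fun t => ?_)
      (fun i t => side_per i t) (fun t => ?_) hX hfe
    · change (t ∈ side 0 ∨ t ∈ side 1) ↔ (τ t ∈ side 0 ∨ τ t ∈ side 1)
      rw [side_iff hv h 0, side_iff hv h 1]
    · change (t + 2 * π ∈ side 0 ∨ t + 2 * π ∈ side 1) ↔ (t ∈ side 0 ∨ t ∈ side 1)
      rw [side_per, side_per]
  · intro k
    obtain ⟨h1, h2, h3⟩ := hq k
    have e1 : -(2 * π / 3) + s * v (-(2 * π / 3)) = -(2 * π / 3) := by rw [hv.c2]; ring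
    have e2 : 2 * π / 3 + s * v (2 * π / 3) = 2 * π / 3 := by rw [hv.c1]; ring
    refine ⟨?_, psi_le h h2, ?_⟩
    · have := psi_le h h1
      rwa [e1] at this
    · have := psi_le h h3
      rwa [e2] at this
  · have hfe : ∀ i, FE (fun t => X i (τ t)) := fun i => (hC s τ hs h (X i) (hX.fe i)).1
    exact adm_tr hv.base h (D := Dcfg m q.1 q.2) (fun i t => ZZ_iff hv h m q.1 q.2 i t)
      (fun t => HH_iff h m q.1 q.2 t) (fun i t => ZZ_per m q.1 q.2 i t)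
      (fun t => pe_per _ t) hX hfe

end Pool.Agent.FBM
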