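import Pool.Agent.FBM.StmtC

/-!
# FBM, block C: module CTZ (functions orthogonal to all functions of finite energy)
-/

open MeasureTheory Set Filter Topology
open scoped Real ContDiff

namespace Pool.Agent.FBM

namespace CTZ_

/-- periodic extension of the restriction to the fundamental interval -/
noncomputable def pex (g : ℝ → ℝ) (t : ℝ) : ℝ := g (toIocMod Real.two_pi_pos (-π) t)

theorem pex_per (g : ℝ → ℝ) : Function.Periodic (pex g) (2 * π) := by
  intro t
  unfold pex
  rw [toIocMod_add_right]

theorem pex_eq (g : ℝ → ℝ) {t : ℝ} (ht : t ∈ Ioc (-π) π) : pex g t = g t := by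
  unfold pex
  have e : -π + 2 * π = π := by ring
  rw [(toIocMod_eq_self Real.two_pi_pos).2 (by rw [e]; exact ht)]

/-- a Lipschitz function which vanishes at the end points has a Lipschitz extension -/
theorem pex_lip {g : ℝ → ℝ} {L : ℝ} (hg : ∀ s t, |g s - g t| ≤ L * |s - t|) (h0 : g (-π) = 0)
    (h1 : g π = 0) (s t : ℝ) : |pex g s - pex g t| ≤ L * |s - t| := by
  have hL : 0 ≤ L := by
    have := (abs_nonneg _).trans (hg 1 0)
    simpa using this
  have key : ∀ s t : ℝ, toIocDiv Real.two_pi_pos (-π) s < toIocDiv Real.two_pi_pos (-π) t →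
      |pex g s - pex g t| ≤ L * |s - t| := by
    intro s t hst
    have e1 := self_sub_toIocDiv_zsmul Real.two_pi_pos (-π) s
    have e2 := self_sub_toIocDiv_zsmul Real.two_pi_pos (-π) t
    have m1 := toIocMod_mem_Ioc Real.two_pi_pos (-π) s
    have m2 := toIocMod_mem_Ioc Real.two_pi_pos (-π) t
    unfold pex
    generalize toIocMod Real.two_pi_pos (-π) s = a at *
    generalize toIocMod Real.two_pi_pos (-π) t = b at *
    generalize toIocDiv Real.two_pi_pos (-π) s = n at *
    generalize toIocDiv Real.two_pi_pos (-π) t = m at *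
    rw [zsmul_eq_mul] at e1 e2
    have hnm : (n : ℝ) + 1 ≤ m := by exact_mod_cast hst
    have hpi := Real.pi_pos
    have g1 : |g a| ≤ L * (π - a) := by
      have := hg a π
      rw [h1, sub_zero] at this
      refine this.trans_eq ?_
      rw [abs_of_nonpos (by linarith [m1.2])]
      ring
    have g2 : |g b| ≤ L * (b + π) := by
      have := hg b (-π)
      rw [h0, sub_zero] at this
      refine this.trans_eq ?_
      rw [abs_of_nonneg (by linarith [m2.1])]
      ring
    have h2 : ((n : ℝ) + 1) * (2 * π) ≤ m * (2 * π) :=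
      mul_le_mul_of_nonneg_right hnm (by linarith)
    have h3 : (π - a) + (b + π) ≤ t - s := by
      rw [← e1, ← e2]
      nlinarith
    have h4 : 0 ≤ t - s := by linarith [m1.2, m2.1]
    rw [abs_sub_comm s t, abs_of_nonneg h4]
    calc |g a - g b| ≤ |g a| + |g b| := abs_sub _ _
      _ ≤ L * ((π - a) + (b + π)) := by rw [mul_add]; exact add_le_add g1 g2
      _ ≤ L * (t - s) := mul_le_mul_of_nonneg_left h3 hL
  rcases lt_trichotomy (toIocDiv Real.two_pi_pos (-π) s) (toIocDiv Real.two_pi_pos (-π) t) with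
    h | h | h
  · exact key s t h
  · have e1 := self_sub_toIocDiv_zsmul Real.two_pi_pos (-π) s
    have e2 := self_sub_toIocDiv_zsmul Real.two_pi_pos (-π) t
    unfold pex
    refine (hg _ _).trans_eq ?_
    rw [← e1, ← e2, h, sub_sub_sub_cancel_right]
  · rw [abs_sub_comm, abs_sub_comm s t]
    exact key t s h

end CTZ_

open CTZ_ in
theorem t_CTZ (hL : Stmt_CLI) : Stmt_CTZ := by
  intro T hT h
  have hT' : IntegrableOn T (Ioc (-π) π) volume := hT
  have h1 : ∀ᵐ x ∂(volume : Measure ℝ), x ∈ Ioo (-π) π → T x = 0 := by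
    refine isOpen_Ioo.ae_eq_zero_of_integral_contDiff_smul_eq_zero
      (hT'.mono_set Ioo_subset_Ioc_self).locallyIntegrableOn ?_
    intro g hg hc hs
    obtain ⟨C, hC⟩ := ContDiff.lipschitzWith_of_hasCompactSupport hc hg (by simp)
    have hv : ∀ t, t ∉ Ioo (-π) π → g t = 0 := fun t ht =>
      image_eq_zero_of_notMem_tsupport fun h => ht (hs h)
    have hlip : ∀ s t, |g s - g t| ≤ C * |s - t| := fun s t => by
      have := hC.dist_le_mul s t
      rwa [Real.dist_eq, Real.dist_eq] at this
    have hfe : FE (pex g) := hL (pex g) C (pex_per g)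
      (pex_lip hlip (hv _ fun h => lt_irrefl _ h.1) (hv _ fun h => lt_irrefl _ h.2))
    have h2 := h _ hfe
    have h3 : ∫ t, T t * pex g t ∂cm = ∫ t in Ioc (-π) π, g t • T t := by
      unfold cm
      refine setIntegral_congr_fun measurableSet_Ioc fun t ht => ?_
      simp only [pex_eq g ht, smul_eq_mul, mul_comm]
    rw [← setIntegral_eq_integral_of_forall_compl_eq_zero (s := Ioc (-π) π), ← h3, h2]
    intro t ht
    rw [hv t fun h => ht (Ioo_subset_Ioc_self h), zero_smul]
  unfold cm
  rw [← Measure.restrict_congr_set (Ioo_ae_eq_Ioc (μ := volume) (a := -π) (b := π)),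
    ae_restrict_iff' measurableSet_Ioo]
  exact h1

end Pool.Agent.FBM
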