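import Pool.Agent.FBM.StmtC

/-!
# CUN: uniqueness from an arc
-/

open MeasureTheory Set Filter Topology
open scoped Real

namespace Pool.Agent.FBM

namespace CUN_

theorem exists_shift {a b t δ : ℝ} (hδ : 0 < δ) (h : δ < b - a) :
    ∃ m : ℤ, a < t + m * δ ∧ t + m * δ < b := by
  refine ⟨⌊(a - t) / δ⌋ + 1, ?_, ?_⟩
  · have h1 : (a - t) / δ < ⌊(a - t) / δ⌋ + 1 := Int.lt_floor_add_one _
    have h2 : a - t < ((⌊(a - t) / δ⌋ : ℝ) + 1) * δ := by
      rwa [div_lt_iff₀ hδ] at h1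
    push_cast
    linarith
  · have h1 : (⌊(a - t) / δ⌋ : ℝ) ≤ (a - t) / δ := Int.floor_le _
    have h2 : (⌊(a - t) / δ⌋ : ℝ) * δ ≤ a - t := by
      rwa [le_div_iff₀ hδ] at h1
    push_cast
    linarith

theorem prod_ne {ι : Type*} (s : Finset ι) (f : ι → ℂ → ℂ) (hf : ∀ i ∈ s, AnalyticAt ℂ (f i) 0)
    (h0 : ∀ᶠ z in 𝓝 (0 : ℂ), ∏ i ∈ s, f i z = 0) : ∃ i ∈ s, ∀ᶠ z in 𝓝 (0 : ℂ), f i z = 0 := by
  by_contra hne
  push Not at hne
  have h1 : ∀ i ∈ s, ∀ᶠ z in 𝓝[≠] (0 : ℂ), f i z ≠ 0 := by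
    intro i hi
    rcases (hf i hi).eventually_eq_zero_or_eventually_ne_zero with h | h
    · exact absurd h (by simpa using hne i hi)
    · exact h
  have h2 : ∀ᶠ z in 𝓝[≠] (0 : ℂ), ∀ i ∈ s, f i z ≠ 0 := by
    rw [Filter.eventually_all_finset]
    exact h1
  have h3 : ∀ᶠ z in 𝓝[≠] (0 : ℂ), ∏ i ∈ s, f i z = 0 := h0.filter_mono nhdsWithin_le_nhds
  obtain ⟨z, hz1, hz2⟩ := (h2.and h3).exists
  exact (Finset.prod_ne_zero_iff.2 hz1) hz2

end CUN_

theorem t_CUN : Stmt_CUN := by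
  intro h a b hc hd hab hz
  obtain ⟨N, hN⟩ := exists_nat_gt (2 * π / (b - a))
  have hba : 0 < b - a := sub_pos.2 hab
  have hN0 : (0 : ℝ) < N := lt_trans (by positivity) hN
  have hNn : N ≠ 0 := by
    rintro rfl
    simp at hN0
  have hNc : (N : ℂ) ≠ 0 := by exact_mod_cast hNn
  set δ : ℝ := 2 * π / N with hδ
  have hδ0 : 0 < δ := by positivity
  have hδ1 : δ < b - a := by
    rw [hδ, div_lt_iff₀ hN0]
    rw [div_lt_iff₀ hba] at hN
    linarith
  set w : ℂ := Complex.exp ((δ : ℝ) * Complex.I) with hw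
  have hwn : ‖w‖ = 1 := Complex.norm_exp_ofReal_mul_I δ
  have hw0 : w ≠ 0 := Complex.exp_ne_zero _
  have hwN : w ^ N = 1 := by
    rw [hw, ← Complex.exp_nat_mul]
    have : (N : ℂ) * ((δ : ℝ) * Complex.I) = 2 * π * Complex.I := by
      rw [hδ]
      push_cast
      field_simp
    rw [this, Complex.exp_two_pi_mul_I]
  set G : ℂ → ℂ := fun z => ∏ j ∈ Finset.range N, h (w ^ j * z) with hG
  have hnorm : ∀ (j : ℕ) (z : ℂ), ‖w ^ j * z‖ = ‖z‖ := by
    intro j z
    rw [norm_mul, norm_pow, hwn, one_pow, one_mul]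
  have hGc : ContinuousOn G (Metric.closedBall 0 1) := by
    refine continuousOn_finsetProd _ (fun j _ => ?_)
    refine hc.comp (by fun_prop) ?_
    intro z hz
    rw [mem_closedBall_zero_iff] at hz ⊢
    rwa [hnorm]
  have hjd : ∀ j : ℕ, DifferentiableOn ℂ (fun z => h (w ^ j * z)) (Metric.ball 0 1) := by
    intro j
    refine hd.comp (by fun_prop) ?_
    intro z hz
    rw [mem_ball_zero_iff] at hz ⊢
    rwa [hnorm]
  have hGd : DifferentiableOn ℂ G (Metric.ball 0 1) := by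
    refine DifferentiableOn.fun_finsetProd (fun j _ => hjd j)
  have hGs : ∀ z : ℂ, ‖z‖ = 1 → G z = 0 := by
    intro z hz1
    set t := Complex.arg z with ht
    have hzt : z = Complex.exp (t * Complex.I) := by
      have := Complex.norm_mul_exp_arg_mul_I z
      rw [hz1] at this
      simpa using this.symm
    obtain ⟨m, hm1, hm2⟩ := CUN_.exists_shift (t := t) hδ0 hδ1
    set j : ℕ := (m % (N : ℤ)).toNat with hj
    have hNz : (N : ℤ) ≠ 0 := by exact_mod_cast hNn
    have hj0 : (0 : ℤ) ≤ m % (N : ℤ) := Int.emod_nonneg _ hNz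
    have hjN : j ∈ Finset.range N := by
      rw [Finset.mem_range, hj]
      have h1 : m % (N : ℤ) < N := Int.emod_lt_of_pos _ (by positivity)
      omega
    have hjm : w ^ j = w ^ m := by
      have h1 : ((j : ℕ) : ℤ) = m % (N : ℤ) := by rw [hj, Int.toNat_of_nonneg hj0]
      have h2 : m = (N : ℤ) * (m / (N : ℤ)) + m % (N : ℤ) := (Int.mul_ediv_add_emod m N).symm
      calc w ^ j = w ^ ((j : ℕ) : ℤ) := (zpow_natCast w j).symm
        _ = w ^ (m % (N : ℤ)) := by rw [h1]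
        _ = w ^ ((N : ℤ) * (m / (N : ℤ)) + m % (N : ℤ)) := by
            rw [zpow_add₀ hw0, zpow_mul, zpow_natCast, hwN, one_zpow, one_mul]
        _ = w ^ m := by rw [← h2]
    have key : w ^ j * z = ep 1 (t + m * δ) := by
      rw [hjm, hzt, hw, ← Complex.exp_int_mul, ← Complex.exp_add]
      unfold ep
      push_cast
      rw [one_mul]
      congr 1
      ring
    rw [hG]
    refine Finset.prod_eq_zero hjN ?_
    rw [key]
    exact hz _ ⟨hm1, hm2⟩
  have hcl : closure (Metric.ball (0 : ℂ) 1) = Metric.closedBall 0 1 :=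
    closure_ball _ one_ne_zero
  have hGdc : DiffContOnCl ℂ G (Metric.ball 0 1) := ⟨hGd, by rw [hcl]; exact hGc⟩
  have hG0 : EqOn G (fun _ => 0) (Metric.ball 0 1) := by
    refine Complex.eqOn_of_eqOn_frontier Metric.isBounded_ball hGdc diffContOnCl_const ?_
    intro z hzf
    rw [frontier_ball _ one_ne_zero, mem_sphere_zero_iff_norm] at hzf
    exact hGs z hzf
  have hb0 : Metric.ball (0 : ℂ) 1 ∈ 𝓝 (0 : ℂ) := Metric.ball_mem_nhds _ one_pos
  obtain ⟨j, hj, hjz⟩ := CUN_.prod_ne (Finset.range N) (fun j z => h (w ^ j * z))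
    (fun j _ => (hjd j).analyticAt hb0) (by
      filter_upwards [hb0] with z hz
      exact hG0 hz)
  have hh0 : ∀ᶠ z in 𝓝 (0 : ℂ), h z = 0 := by
    have hcont : Tendsto (fun z : ℂ => (w ^ j)⁻¹ * z) (𝓝 0) (𝓝 0) := by
      have : Continuous (fun z : ℂ => (w ^ j)⁻¹ * z) := by fun_prop
      simpa using this.tendsto 0
    filter_upwards [hcont.eventually hjz] with z hz
    simpa [mul_inv_cancel_left₀ (pow_ne_zero j hw0)] using hz
  have han : AnalyticOnNhd ℂ h (Metric.ball 0 1) := hd.analyticOnNhd Metric.isOpen_ball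
  have hball : EqOn h 0 (Metric.ball 0 1) :=
    han.eqOn_zero_of_preconnected_of_eventuallyEq_zero (convex_ball _ _).isPreconnected
      (Metric.mem_ball_self one_pos) hh0
  have hclosed : EqOn h (fun _ => 0) (Metric.closedBall 0 1) :=
    Set.EqOn.of_subset_closure hball hc continuousOn_const Metric.ball_subset_closedBall
      (by rw [hcl])
  intro z hz1
  exact hclosed (by rwa [mem_closedBall_zero_iff])

end Pool.Agent.FBM

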