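import Pool.Agent.FBM.StmtC1

/-!
# FBM, block C: upper semicontinuity of the minimal energy
-/

open MeasureTheory Set Filter Topology
open scoped Real

namespace Pool.Agent.FBM

namespace CUS

theorem sin_shift (t e : ℝ) (n : ℤ) :
    |Real.sin ((t - e) / 2)| = |Real.sin ((t + n * (2 * π) - e) / 2)| := by
  have h : (t + n * (2 * π) - e) / 2 = (t - e) / 2 + n * π := by ring
  rw [h, Real.sin_add_int_mul_pi, abs_mul, abs_zpow, abs_neg, abs_one, one_zpow, one_mul]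

theorem sin_lt {t e r : ℝ} {n : ℤ} (h : |t + n * (2 * π) - e| < r) :
    |Real.sin ((t - e) / 2)| < r := by
  rw [sin_shift t e n]
  refine (Real.abs_sin_le_abs).trans_lt ?_
  rw [abs_div, abs_two]
  have := abs_nonneg (t + n * (2 * π) - e)
  linarith

theorem near {m : ℕ} {a b a' b' : Fin m → ℝ} {r : ℝ} (h1 : ∀ k, |a' k - a k| < r)
    (h2 : ∀ k, |b' k - b k| < r) {t : ℝ}
    (ht : (t ∈ HH m a b ∧ t ∉ HH m a' b') ∨ (t ∈ HH m a' b' ∧ t ∉ HH m a b)) :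
    ∃ k, |Real.sin ((t - a k) / 2)| < r ∨ |Real.sin ((t - b k) / 2)| < r := by
  rcases ht with ⟨⟨n, hn⟩, ht'⟩ | ⟨⟨n, hn⟩, ht'⟩
  · obtain ⟨k, hk1, hk2⟩ := mem_iUnion.1 hn
    have h3 : ¬ (a' k ≤ t + n * (2 * π) ∧ t + n * (2 * π) ≤ b' k) := fun h =>
      ht' ⟨n, mem_iUnion.2 ⟨k, h⟩⟩
    have h4 := abs_lt.1 (h1 k)
    have h5 := abs_lt.1 (h2 k)
    refine ⟨k, ?_⟩
    by_cases h6 : a' k ≤ t + n * (2 * π)
    · have h7 : b' k < t + n * (2 * π) := not_le.1 fun h => h3 ⟨h6, h⟩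
      right
      exact sin_lt (n := n) (abs_lt.2 ⟨by linarith, by linarith⟩)
    · left
      have h7 := not_le.1 h6
      exact sin_lt (n := n) (abs_lt.2 ⟨by linarith, by linarith⟩)
  · obtain ⟨k, hk1, hk2⟩ := mem_iUnion.1 hn
    have h3 : ¬ (a k ≤ t + n * (2 * π) ∧ t + n * (2 * π) ≤ b k) := fun h =>
      ht' ⟨n, mem_iUnion.2 ⟨k, h⟩⟩
    have h4 := abs_lt.1 (h1 k)
    have h5 := abs_lt.1 (h2 k)
    refine ⟨k, ?_⟩
    by_cases h6 : a k ≤ t + n * (2 * π)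
    · have h7 : b k < t + n * (2 * π) := not_le.1 fun h => h3 ⟨h6, h⟩
      right
      exact sin_lt (n := n) (abs_lt.2 ⟨by linarith, by linarith⟩)
    · left
      have h7 := not_le.1 h6
      exact sin_lt (n := n) (abs_lt.2 ⟨by linarith, by linarith⟩)

theorem choose_s (E ε : ℝ) (_ : 0 ≤ E) (hε : 0 < ε) :
    ∃ s : ℝ, 0 < s ∧ 6 * s ^ 2 + 6 * s * Real.sqrt E ≤ ε := by
  have h1 : 0 ≤ Real.sqrt E := Real.sqrt_nonneg E
  refine ⟨min 1 (ε / (6 * (1 + Real.sqrt E))), by positivity, ?_⟩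
  set s := min 1 (ε / (6 * (1 + Real.sqrt E))) with hs
  have h2 : s ≤ 1 := min_le_left _ _
  have h3 : s ≤ ε / (6 * (1 + Real.sqrt E)) := min_le_right _ _
  have h4 : 0 < s := by positivity
  rw [le_div_iff₀ (by positivity)] at h3
  nlinarith

end CUS

theorem t_CUS : Stmt_CCT → Stmt_A_sqrt → Stmt_A_prod → Stmt_B_ex → Stmt_CTM → Stmt_CAD →
    Stmt_CAI → Stmt_CUS := by
  intro hCCT hsqrt hprod hBex hCTM hCAD hCAI m p hp ε hε
  obtain ⟨Y0, hY0⟩ := hCAD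
  obtain ⟨X, hX⟩ := hBex (Dcfg m p.1 p.2) (hCTM.1 m p hp) ⟨Y0, hCAI m p hp Y0 hY0⟩
  have hE := C0.ven_eq hX
  have hE0 := ven_self_nonneg X
  obtain ⟨s, hs0, hs⟩ := CUS.choose_s (ven X X) ε hE0 hε
  let F : Finset ℝ := (Finset.univ.image p.1) ∪ (Finset.univ.image p.2)
  have hF : ∀ e ∈ F, -(2 * π / 3) ≤ e ∧ e ≤ 2 * π / 3 := by
    intro e he
    rcases Finset.mem_union.1 he with h | h
    · obtain ⟨k, -, rfl⟩ := Finset.mem_image.1 h
      exact ⟨(hp k).1, (hp k).2.1.trans (hp k).2.2⟩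
    · obtain ⟨k, -, rfl⟩ := Finset.mem_image.1 h
      exact ⟨(hp k).1.trans (hp k).2.1, (hp k).2.2⟩
  obtain ⟨α, β, hα, hβ, hα0, hβ0, hsum, hαe, hβe, ⟨r, hr, hαz⟩, hβz⟩ :=
    hCCT F hF (s ^ 2) (by positivity)
  have hXfe : ∀ i, FE (X i) := hX.oct.adm.fe
  have hX0 := hX.oct.nonneg
  have hX1 := hX.oct.le_one
  have hαX : ∀ i, FE (fun t => α t * X i t) := fun i => hα.mul (hXfe i)
  let Y : Fin 3 → ℝ → ℝ := fun i t => Real.sqrt ((α t * X i t) ^ 2 + β i t ^ 2)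
  have hYfe : ∀ i, FE (Y i) := fun i => (hsqrt _ _ (hαX i) (hβ i)).1
  have hYe : ∀ i, en (Y i) (Y i) ≤ en (X i) (X i) + (2 * s ^ 2 + 2 * s * Real.sqrt (ven X X)) := by
    intro i
    have h1 : en (Y i) (Y i) ≤
        en (fun t => α t * X i t) (fun t => α t * X i t) + en (β i) (β i) :=
      (hsqrt _ _ (hαX i) (hβ i)).2
    have hα1 : ∀ t, |α t| ≤ 1 := by
      intro t
      rw [abs_of_nonneg (hα0 t)]
      have h2 : 0 ≤ ∑ i, β i t ^ 2 := Finset.sum_nonneg fun i _ => sq_nonneg _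
      have h3 := hsum t
      by_contra h4
      push Not at h4
      nlinarith
    have hXi1 : ∀ t, |X i t| ≤ 1 := by
      intro t
      rw [abs_of_nonneg (hX0 i t)]
      have h2 : X i t ^ 2 ≤ ∑ i, X i t ^ 2 :=
        Finset.single_le_sum (f := fun i => X i t ^ 2) (fun _ _ => sq_nonneg _)
          (Finset.mem_univ i)
      have h3 := hX1 t
      by_contra h4
      push Not at h4
      nlinarith
    have h5 := hprod α (X i) hα (hXfe i) hα1 hXi1
    have h6 : Real.sqrt (en α α) ≤ s := by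
      rw [Real.sqrt_le_left hs0.le]
      exact hαe
    have h7 : 0 ≤ Real.sqrt (en α α) := Real.sqrt_nonneg _
    have h8 : 0 ≤ Real.sqrt (en (X i) (X i)) := Real.sqrt_nonneg _
    have h9 : Real.sqrt (en (X i) (X i)) ≤ Real.sqrt (ven X X) := by
      refine Real.sqrt_le_sqrt ?_
      exact Finset.single_le_sum (f := fun i => en (X i) (X i)) (fun _ _ => en_self_nonneg _)
        (Finset.mem_univ i)
    have h10 : Real.sqrt (en (X i) (X i)) ^ 2 = en (X i) (X i) := Real.sq_sqrt (en_self_nonneg _)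
    have h11 := hβe i
    have h12 : (Real.sqrt (en α α) + Real.sqrt (en (X i) (X i))) ^ 2 ≤
        (s + Real.sqrt (en (X i) (X i))) ^ 2 := by
      refine pow_le_pow_left₀ (by linarith) (by linarith) 2
    have h13 : s * Real.sqrt (en (X i) (X i)) ≤ s * Real.sqrt (ven X X) :=
      mul_le_mul_of_nonneg_left h9 hs0.le
    nlinarith
  have hven : ven Y Y ≤ Emin (Dcfg m p.1 p.2) + ε := by
    have h1 : ven Y Y ≤ ∑ i, (en (X i) (X i) + (2 * s ^ 2 + 2 * s * Real.sqrt (ven X X))) :=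
      Finset.sum_le_sum fun i _ => hYe i
    have h2 : ∑ i, (en (X i) (X i) + (2 * s ^ 2 + 2 * s * Real.sqrt (ven X X))) =
        ven X X + 3 * (2 * s ^ 2 + 2 * s * Real.sqrt (ven X X)) := by
      rw [Finset.sum_add_distrib, Finset.sum_const, Finset.card_univ, Fintype.card_fin,
        nsmul_eq_mul]
      rfl
    rw [h2] at h1
    rw [← hE]
    linarith
  refine ⟨r, hr, fun p' hp' hd => ?_⟩
  have hd1 : ∀ k, |p'.1 k - p.1 k| < r := fun k =>
    (((dist_le_pi_dist p'.1 p.1 k).trans (le_max_left _ _))).trans_lt hd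
  have hd2 : ∀ k, |p'.2 k - p.2 k| < r := fun k =>
    (((dist_le_pi_dist p'.2 p.2 k).trans (le_max_right _ _))).trans_lt hd
  have hkey : ∀ t, ((t ∈ HH m p.1 p.2 ∧ t ∉ HH m p'.1 p'.2) ∨
      (t ∈ HH m p'.1 p'.2 ∧ t ∉ HH m p.1 p.2)) → α t = 0 := by
    intro t ht
    obtain ⟨k, hk | hk⟩ := CUS.near hd1 hd2 ht
    · exact hαz _ (Finset.mem_union_left _ (Finset.mem_image_of_mem _ (Finset.mem_univ k))) t hk
    · exact hαz _ (Finset.mem_union_right _ (Finset.mem_image_of_mem _ (Finset.mem_univ k))) t hk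
  have hYz : ∀ i t, α t * X i t = 0 → β i t = 0 → Y i t = 0 := by
    intro i t h1 h2
    change Real.sqrt ((α t * X i t) ^ 2 + β i t ^ 2) = 0
    rw [h1, h2]
    simp
  have hadm : Adm (Dcfg m p'.1 p'.2) Y := by
    refine ⟨hYfe, fun i => Eventually.of_forall fun t ht => ?_, ?_⟩
    · fin_cases i
      · obtain ⟨ht1, ht2⟩ : t ∈ side 0 ∧ t ∉ HH m p'.1 p'.2 := ht
        refine hYz 0 t ?_ (hβz 0 t ht1)
        by_cases h : t ∈ HH m p.1 p.2
        · rw [hkey t (Or.inl ⟨h, ht2⟩), zero_mul]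
        · rw [hX.oct.zeroE 0 t ⟨ht1, h⟩, mul_zero]
      · obtain ⟨ht1, ht2⟩ : t ∈ side 1 ∧ t ∉ HH m p'.1 p'.2 := ht
        refine hYz 1 t ?_ (hβz 1 t ht1)
        by_cases h : t ∈ HH m p.1 p.2
        · rw [hkey t (Or.inl ⟨h, ht2⟩), zero_mul]
        · rw [hX.oct.zeroE 1 t ⟨ht1, h⟩, mul_zero]
      · have ht1 : t ∈ side 2 := ht
        refine hYz 2 t ?_ (hβz 2 t ht1)
        rw [hX.oct.zeroE 2 t ht1, mul_zero]
    · filter_upwards [hX.oct.adm.one] with t h1 ht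
      have h2 : ∀ i, Y i t ^ 2 = α t ^ 2 * X i t ^ 2 + β i t ^ 2 := by
        intro i
        change Real.sqrt ((α t * X i t) ^ 2 + β i t ^ 2) ^ 2 = _
        rw [Real.sq_sqrt (by positivity), mul_pow]
      have h3 : ∑ i, Y i t ^ 2 = α t ^ 2 * ∑ i, X i t ^ 2 + ∑ i, β i t ^ 2 := by
        rw [Finset.mul_sum, ← Finset.sum_add_distrib]
        exact Finset.sum_congr rfl fun i _ => h2 i
      rw [h3]
      have h4 := hsum t
      by_cases h : t ∈ HH m p.1 p.2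
      · rw [h1 h]
        linarith
      · rw [hkey t (Or.inr ⟨ht, h⟩)] at h4 ⊢
        linarith
  exact (C0.Emin_le hadm).trans hven

end Pool.Agent.FBM
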