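import Pool.Agent.FBM.StmtC1

/-!
# FBM, block C, CVF: Fatou's lemma for triples
-/

open MeasureTheory Set Filter Topology
open scoped Real

namespace Pool.Agent.FBM

namespace CVF

open C0

lemma en_le_ven (y : Fin 3 → ℝ → ℝ) (i : Fin 3) : en (y i) (y i) ≤ ven y y :=
  Finset.single_le_sum (f := fun j => en (y j) (y j)) (fun j _ => en_self_nonneg (y j))
    (Finset.mem_univ i)

lemma lint_ed {X : Fin 3 → ℝ → ℝ} (h : ∀ i, FE (X i)) :
    ∫⁻ q, ENNReal.ofReal (ed X q) ∂cm2 = ENNReal.ofReal (2 * π * ven X X) := by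
  rw [← ofReal_integral_eq_lintegral_ofReal (ed_int h)
    (Eventually.of_forall fun q => ed_nonneg X q), ven_eq_ed h]
  congr 1
  have hpi : (2 * π : ℝ) ≠ 0 := by positivity
  field_simp

lemma ae_ed {X : ℕ → Fin 3 → ℝ → ℝ} {Y : Fin 3 → ℝ → ℝ}
    (hlim : ∀ i, ∀ᵐ t ∂cm, Tendsto (fun k => X k i t) atTop (𝓝 (Y i t))) :
    ∀ᵐ q : ℝ × ℝ ∂cm2, Tendsto (fun k => ed (X k) q) atTop (𝓝 (ed Y q)) := by
  have h1 : ∀ᵐ t ∂cm, ∀ i, Tendsto (fun k => X k i t) atTop (𝓝 (Y i t)) := ae_all_iff.2 hlim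
  filter_upwards [ae_cm2_of_ae h1] with q hq
  unfold ed
  refine Tendsto.const_mul _ (tendsto_finsetSum _ fun i _ => ?_)
  exact ((hq.1 i).sub (hq.2 i)).pow 2

end CVF

open CVF C0

theorem t_CVF (hF : Stmt_A_fatou) : Stmt_CVF := by
  intro X Y K hX hK hm hp hb hlim
  have hFE : ∀ i, FE (Y i) := fun i =>
    (hF (fun k => X k i) (Y i) K (fun k => hX k i)
      (fun k => (en_le_ven (X k) i).trans (hK k)) (hm i) (hp i) (hb i) (hlim i)).1
  refine ⟨hFE, ?_⟩
  have hK0 : 0 ≤ K := (ven_self_nonneg (X 0)).trans (hK 0)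
  have key : ∫⁻ q, ENNReal.ofReal (ed Y q) ∂cm2 ≤ ENNReal.ofReal (2 * π * K) := by
    calc ∫⁻ q, ENNReal.ofReal (ed Y q) ∂cm2
        = ∫⁻ q, liminf (fun k => ENNReal.ofReal (ed (X k) q)) atTop ∂cm2 := by
          refine lintegral_congr_ae ?_
          filter_upwards [ae_ed hlim] with q hq
          exact ((ENNReal.continuous_ofReal.tendsto _).comp hq).liminf_eq.symm
      _ ≤ liminf (fun k => ∫⁻ q, ENNReal.ofReal (ed (X k) q) ∂cm2) atTop :=
          lintegral_liminf_le fun k => (ed_meas fun i => (hX k i).meas).ennreal_ofReal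
      _ ≤ ENNReal.ofReal (2 * π * K) := by
          refine liminf_le_of_frequently_le' (Frequently.of_forall fun k => ?_)
          rw [lint_ed (hX k)]
          exact ENNReal.ofReal_le_ofReal (mul_le_mul_of_nonneg_left (hK k) (by positivity))
  rw [lint_ed hFE] at key
  have h1 : 2 * π * ven Y Y ≤ 2 * π * K :=
    (ENNReal.ofReal_le_ofReal_iff (by positivity)).1 key
  exact le_of_mul_le_mul_left h1 (by positivity)

end Pool.Agent.FBM
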