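import Pool.Agent.FBM.StmtC
import Pool.Agent.FBM.Test
import Pool.Agent.FBM.B.BEX
import Pool.Agent.FBM.ARel

/-!
# FBM, module C3: fine configurations, convergence of the levels
-/

open MeasureTheory Set Filter Topology ENNReal
open scoped Real

namespace Pool.Agent.FBM

namespace LEV

/-- the kernel dominates the inverse square of the distance -/
lemma J_lower {f : ℝ → ℝ} (hp : Function.Periodic f (2 * π)) {s t δ : ℝ}
    (h : |s - t| ≤ 2 * δ) : (f s - f t) ^ 2 ≤ 4 * δ ^ 2 * (J s t * (f s - f t) ^ 2) := by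
  have hδ : 0 ≤ δ := by
    have := abs_nonneg (s - t)
    linarith
  by_cases h0 : Real.sin ((s - t) / 2) = 0
  · have h2 : f s = f t := by
      obtain ⟨n, hn⟩ := Real.sin_eq_zero_iff.1 h0
      have h3 : s = t + n • (2 * π) := by
        rw [zsmul_eq_mul]
        linarith
      rw [h3]
      exact hp.zsmul n t
    rw [h2]
    simp
  · have h1 : |Real.sin ((s - t) / 2)| ≤ |(s - t) / 2| := Real.abs_sin_le_abs
    have h2 : |(s - t) / 2| ≤ δ := by
      rw [abs_div, abs_two]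
      linarith
    have h3 : Real.sin ((s - t) / 2) ^ 2 ≤ δ ^ 2 := by
      rw [← sq_abs]
      exact pow_le_pow_left₀ (abs_nonneg _) (h1.trans h2) 2
    have h4 : 0 < 4 * Real.sin ((s - t) / 2) ^ 2 := by positivity
    have h5 : 1 ≤ 4 * δ ^ 2 * J s t := by
      rw [J, mul_one_div, le_div_iff₀ h4]
      linarith
    calc (f s - f t) ^ 2 = 1 * (f s - f t) ^ 2 := (one_mul _).symm
      _ ≤ 4 * δ ^ 2 * J s t * (f s - f t) ^ 2 := mul_le_mul_of_nonneg_right h5 (sq_nonneg _)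
      _ = _ := by ring

/-- Poincaré inequality at one point of a cell -/
lemma cell {f : ℝ → ℝ} (hf : FE f) {s u δ : ℝ} (hδ : 0 < δ) (hI : Ioo u (u + δ) ⊆ Ioc (-π) π)
    (hd : ∀ t ∈ Ioo u (u + δ), |s - t| ≤ 2 * δ) (h0 : ∀ᵐ t : ℝ, t ∈ Ioo u (u + δ) → f t = 0) :
    ENNReal.ofReal (f s ^ 2) ≤ ENNReal.ofReal (4 * δ) *
      ∫⁻ t, ENNReal.ofReal (J s t * (f s - f t) ^ 2) ∂cm := by
  have h1 : ENNReal.ofReal (f s ^ 2) * ENNReal.ofReal δ ≤
      ENNReal.ofReal (4 * δ ^ 2) * ∫⁻ t, ENNReal.ofReal (J s t * (f s - f t) ^ 2) ∂cm := by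
    calc ENNReal.ofReal (f s ^ 2) * ENNReal.ofReal δ
        = ∫⁻ _t in Ioo u (u + δ), ENNReal.ofReal (f s ^ 2) := by
          rw [setLIntegral_const, Real.volume_Ioo]
          congr 2
          ring
      _ ≤ ∫⁻ t in Ioo u (u + δ), ENNReal.ofReal (4 * δ ^ 2) *
            ENNReal.ofReal (J s t * (f s - f t) ^ 2) := by
          refine lintegral_mono_ae ?_
          refine (ae_restrict_iff' measurableSet_Ioo).2 ?_
          filter_upwards [h0] with t ht hmem
          rw [← ENNReal.ofReal_mul (by positivity)]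
          refine ENNReal.ofReal_le_ofReal ?_
          have h2 := J_lower hf.per (hd t hmem)
          rw [ht hmem] at h2 ⊢
          simpa using h2
      _ ≤ ∫⁻ t, ENNReal.ofReal (4 * δ ^ 2) *
            ENNReal.ofReal (J s t * (f s - f t) ^ 2) ∂cm := by
          rw [cm]
          exact lintegral_mono_set hI
      _ = _ := lintegral_const_mul' _ _ ENNReal.ofReal_ne_top
  have h3 : ENNReal.ofReal (4 * δ ^ 2) = ENNReal.ofReal (4 * δ) * ENNReal.ofReal δ := by
    rw [← ENNReal.ofReal_mul (by positivity)]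
    congr 1
    ring
  rw [h3, mul_comm (ENNReal.ofReal (4 * δ)), mul_assoc, mul_comm (ENNReal.ofReal (f s ^ 2))] at h1
  exact (ENNReal.mul_le_mul_iff_right (by simpa using hδ) ENNReal.ofReal_ne_top).1 h1

/-- limits of functions vanishing on a part of each cell -/
theorem key {f : ℕ → ℝ → ℝ} {g : ℝ → ℝ} {K : ℝ} (hf : ∀ N, FE (f N))
    (hK : ∀ N, en (f N) (f N) ≤ K) (hg : Measurable g)
    (hlim : ∀ᵐ t ∂cm, Tendsto (fun N => f N t) atTop (𝓝 (g t))) {S : Set ℝ}
    (hS : MeasurableSet S) (δ : ℕ → ℝ) (hδ : ∀ N, 0 < δ N) (hδ0 : Tendsto δ atTop (𝓝 0))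
    (hcell : ∀ N, ∀ s ∈ S, ∃ u, Ioo u (u + δ N) ⊆ Ioc (-π) π ∧
      (∀ t ∈ Ioo u (u + δ N), |s - t| ≤ 2 * δ N) ∧
      ∀ᵐ t : ℝ, t ∈ Ioo u (u + δ N) → f N t = 0) : ∀ᵐ t ∂cm, t ∈ S → g t = 0 := by
  have hpi := Real.pi_pos
  have h1 : ∀ N, ∫⁻ s in S, ENNReal.ofReal (f N s ^ 2) ∂cm ≤
      ENNReal.ofReal (4 * δ N) * ENNReal.ofReal (2 * π * K) := by
    intro N
    have hm : Measurable (fun p : ℝ × ℝ => ENNReal.ofReal (J p.1 p.2 * (f N p.1 - f N p.2) ^ 2)) :=
      (measurable_J.mul ((hf N).ddmeas.pow_const 2)).ennreal_ofReal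
    calc ∫⁻ s in S, ENNReal.ofReal (f N s ^ 2) ∂cm
        ≤ ∫⁻ s in S, ENNReal.ofReal (4 * δ N) *
            ∫⁻ t, ENNReal.ofReal (J s t * (f N s - f N t) ^ 2) ∂cm ∂cm := by
          refine setLIntegral_mono' hS fun s hs => ?_
          obtain ⟨u, h2, h3, h4⟩ := hcell N s hs
          exact cell (hf N) (hδ N) h2 h3 h4
      _ ≤ ∫⁻ s, ENNReal.ofReal (4 * δ N) *
            ∫⁻ t, ENNReal.ofReal (J s t * (f N s - f N t) ^ 2) ∂cm ∂cm :=
          setLIntegral_le_lintegral _ _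
      _ = ENNReal.ofReal (4 * δ N) *
            ∫⁻ p, ENNReal.ofReal (J p.1 p.2 * (f N p.1 - f N p.2) ^ 2) ∂cm2 := by
          rw [lintegral_const_mul' _ _ ENNReal.ofReal_ne_top, cm2, lintegral_prod _ hm.aemeasurable]
      _ = ENNReal.ofReal (4 * δ N) * ENNReal.ofReal (2 * π * en (f N) (f N)) := by
          rw [lintegral_J_eq_en (hf N)]
      _ ≤ _ := by
          gcongr
          exact hK N
  have h2 : ∫⁻ s in S, ENNReal.ofReal (g s ^ 2) ∂cm = 0 := by
    have h3 : ∫⁻ s in S, ENNReal.ofReal (g s ^ 2) ∂cm =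
        ∫⁻ s in S, liminf (fun N => ENNReal.ofReal (f N s ^ 2)) atTop ∂cm := by
      refine lintegral_congr_ae ?_
      filter_upwards [ae_restrict_of_ae hlim] with s hs
      symm
      exact ((ENNReal.continuous_ofReal.tendsto _).comp (hs.pow 2)).liminf_eq
    have h4 : Tendsto (fun N => ENNReal.ofReal (4 * δ N) * ENNReal.ofReal (2 * π * K)) atTop
        (𝓝 0) := by
      have h5 : Tendsto (fun N => ENNReal.ofReal (4 * δ N)) atTop (𝓝 0) := by
        have h6 : Tendsto (fun N => 4 * δ N) atTop (𝓝 0) := by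
          have h7 := hδ0.const_mul 4
          rwa [mul_zero] at h7
        have h8 := (ENNReal.continuous_ofReal.tendsto 0).comp h6
        rwa [ENNReal.ofReal_zero] at h8
      have h6 := ENNReal.Tendsto.mul_const (b := ENNReal.ofReal (2 * π * K)) h5
        (Or.inr ENNReal.ofReal_ne_top)
      simpa using h6
    refine le_antisymm ?_ zero_le
    rw [h3]
    refine (lintegral_liminf_le fun N => ((hf N).meas.pow_const 2).ennreal_ofReal).trans ?_
    rw [← h4.liminf_eq]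
    exact liminf_le_liminf (Eventually.of_forall h1)
  rw [lintegral_eq_zero_iff ((hg.pow_const 2).ennreal_ofReal)] at h2
  rw [← ae_restrict_iff' hS]
  filter_upwards [h2] with s hs
  simp only [Pi.zero_apply, ENNReal.ofReal_eq_zero] at hs
  have := sq_nonneg (g s)
  exact pow_eq_zero_iff (two_ne_zero) |>.1 (le_antisymm hs this)

/-- compactness for triples -/
theorem triple (X : ℕ → Fin 3 → ℝ → ℝ) (hfe : ∀ k i, FE (X k i)) (hb : ∀ k i t, |X k i t| ≤ 1)
    {K : ℝ} (hK : ∀ k, ven (X k) (X k) ≤ K) : ∃ (φ : ℕ → ℕ) (Y : Fin 3 → ℝ → ℝ), StrictMono φ ∧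
      (∀ i, FE (Y i)) ∧ ven Y Y ≤ K ∧
      ∀ᵐ t ∂cm, ∀ i, Tendsto (fun k => X (φ k) i t) atTop (𝓝 (Y i t)) := by
  have hKi : ∀ i k, en (X k i) (X k i) ≤ K := by
    intro i k
    refine le_trans ?_ (hK k)
    exact Finset.single_le_sum (f := fun i => en (X k i) (X k i))
      (fun j _ => en_self_nonneg _) (Finset.mem_univ i)
  obtain ⟨φ0, g0, e0, hφ0, hg0, hl0, he0, hle0⟩ := BEX.step t_A_fatou_60 t_A_rellich
    (fun k => X k 0) K (fun k => hfe k 0) (fun k => hb k 0) (hKi 0)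
  obtain ⟨φ1, g1, e1, hφ1, hg1, hl1, he1, hle1⟩ := BEX.step t_A_fatou_60 t_A_rellich
    (fun k => X (φ0 k) 1) K (fun k => hfe _ 1) (fun k => hb _ 1) (fun k => hKi 1 _)
  obtain ⟨φ2, g2, e2, hφ2, hg2, hl2, he2, hle2⟩ := BEX.step t_A_fatou_60 t_A_rellich
    (fun k => X (φ0 (φ1 k)) 2) K (fun k => hfe _ 2) (fun k => hb _ 2) (fun k => hKi 2 _)
  refine ⟨fun k => φ0 (φ1 (φ2 k)), ![g0, g1, g2], hφ0.comp (hφ1.comp hφ2), ?_, ?_, ?_⟩
  · intro i
    fin_cases i
    · exact hg0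
    · exact hg1
    · exact hg2
  · have h1 : Tendsto (fun k => ven (X (φ0 (φ1 (φ2 k)))) (X (φ0 (φ1 (φ2 k))))) atTop
        (𝓝 (e0 + e1 + e2)) := by
      have t0 := he0.comp (hφ1.comp hφ2).tendsto_atTop
      have t1 := he1.comp hφ2.tendsto_atTop
      have t2 := (t0.add t1).add he2
      refine t2.congr fun k => ?_
      rw [ven, Fin.sum_univ_three]
      rfl
    have h2 : e0 + e1 + e2 ≤ K := le_of_tendsto h1 (Eventually.of_forall fun k => hK _)
    rw [ven, Fin.sum_univ_three]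
    simp only [Matrix.cons_val_zero, Matrix.cons_val_one, Matrix.cons_val_two]
    refine le_trans ?_ h2
    exact add_le_add (add_le_add hle0 hle1) hle2
  · filter_upwards [hl0, hl1, hl2] with t h0 h1 h2 i
    fin_cases i
    · exact h0.comp (hφ1.comp hφ2).tendsto_atTop
    · exact h1.comp hφ2.tendsto_atTop
    · exact h2

end LEV

end Pool.Agent.FBM
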